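import Pool.Agent.H12.Eng2.Core

/-! Certificate data (generated). -/

set_option autoImplicit false

namespace Pool.Agent.H12.Eng2

open Pool.Agent.H12.Eng (Ex)

def tL0 : List Ex := [(.m (.m (.m (.m (.v 1) (.v 0)) (.v 0)) (.m (.m (.v 2) (.v 0)) (.v 0))) (.v 0))]

def cL0 : List It := [⟨0, 2, 4, 2, 2, 2, 2, [2, 6, 2]⟩,
  ⟨0, 2, 4, 2, 2, 2, 2, [6, 2, 2]⟩,
  ⟨0, 2, 6, 2, 2, 2, 2, [4, 2, 2]⟩,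
  ⟨0, 2, 81, 2, 2, 2, 2, [2, 2]⟩,
  ⟨0, 2, 11867, 2, 2, 2, 2, [2]⟩,
  ⟨0, 2, 11933, 2, 2, 2, 2, []⟩,
  ⟨1, 2, 4, 6, 2, 2, 2, [2, 2, 2]⟩,
  ⟨2, 2, 4, 77, 2, 2, 2, [2, 2]⟩,
  ⟨2, 2, 6, 2743, 2, 2, 2, [2]⟩]

end Pool.Agent.H12.Eng2
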