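import Pool.Agent.H12.Eng2.Core

/-! Certificate data (generated). -/

set_option autoImplicit false

namespace Pool.Agent.H12.Eng2

open Pool.Agent.H12.Eng (Ex)

def tL1 : List Ex := [(.m (.m (.v 3) (.m (.m (.m (.v 1) (.v 0)) (.v 0)) (.m (.m (.v 2) (.v 0)) (.v 0)))) (.v 0))]

def cL1 : List It := [⟨0, 2, 4, 2, 2, 2, 2, [2, 6, 8, 2]⟩,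
  ⟨0, 2, 4, 2, 2, 2, 2, [6, 2, 8, 2]⟩,
  ⟨0, 2, 4, 2, 2, 2, 2, [6, 8, 2, 2]⟩,
  ⟨0, 2, 4, 2, 2, 2, 2, [8, 6, 2, 2]⟩,
  ⟨0, 2, 6, 2, 2, 2, 2, [4, 2, 8, 2]⟩,
  ⟨0, 2, 137, 2, 2, 2, 2, [6, 2, 2]⟩,
  ⟨0, 2, 81, 2, 2, 2, 2, [2, 8, 2]⟩,
  ⟨0, 2, 11867, 2, 2, 2, 2, [8, 2]⟩,
  ⟨0, 2, 452891289336659, 2, 2, 2, 2, []⟩,
  ⟨0, 2, 158441204879266435, 2, 2, 2, 2, []⟩,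
  ⟨1, 2, 4, 6, 2, 2, 2, [2, 2, 8, 2]⟩,
  ⟨1, 2, 4, 6, 2, 2, 2, [2, 8, 2, 2]⟩,
  ⟨1, 2, 4, 6, 2, 2, 2, [8, 2, 2, 2]⟩,
  ⟨1, 2, 4, 141, 2, 2, 2, [2, 2, 2]⟩,
  ⟨1, 2, 6, 4, 2, 2, 2, [2, 8, 2, 2]⟩,
  ⟨1, 2, 8, 4, 2, 2, 2, [2, 6, 2, 2]⟩,
  ⟨1, 2, 8, 4, 2, 2, 2, [6, 2, 2, 2]⟩,
  ⟨1, 2, 8, 6, 2, 2, 2, [4, 2, 2, 2]⟩,
  ⟨1, 2, 8, 81, 2, 2, 2, [2, 2, 2]⟩,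
  ⟨1, 2, 8, 11867, 2, 2, 2, [2, 2]⟩,
  ⟨1, 2, 8, 11933, 2, 2, 2, [2]⟩,
  ⟨1, 2, 37, 6, 2, 2, 2, [8, 2, 2]⟩,
  ⟨1, 2, 37543, 6, 2, 2, 2, [2, 2]⟩,
  ⟨2, 2, 4, 8, 6, 2, 2, [2, 2, 2, 2]⟩,
  ⟨2, 2, 4, 77, 2, 2, 2, [2, 8, 2]⟩,
  ⟨2, 2, 4, 77, 8, 2, 2, [2, 2, 2]⟩,
  ⟨2, 2, 6, 8, 2743, 2, 2, [2, 2]⟩,
  ⟨2, 2, 6, 137, 2, 2, 2, [2, 2, 2]⟩,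
  ⟨2, 2, 6, 2755, 2, 2, 2, [2, 2]⟩,
  ⟨2, 2, 6, 2743, 2, 2, 2, [8, 2]⟩,
  ⟨2, 2, 8, 11863, 4, 2, 2, [2, 2]⟩,
  ⟨2, 4, 8, 77, 2, 2, 2, [2, 2, 2]⟩]

end Pool.Agent.H12.Eng2
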