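import Pool.Agent.H12.Eng2.Core

/-! Certificate data (generated). -/

set_option autoImplicit false

namespace Pool.Agent.H12.Eng2

open Pool.Agent.H12.Eng (Ex)

def tL3 : List Ex := [(.m (.v 3) (.m (.m (.m (.v 1) (.v 0)) (.v 0)) (.m (.m (.v 2) (.v 0)) (.v 0)))), (.m (.m (.m (.v 3) (.v 0)) (.m (.v 1) (.v 0))) (.m (.m (.v 2) (.v 0)) (.v 0))), (.m (.m (.m (.v 3) (.v 0)) (.m (.m (.v 2) (.v 0)) (.v 0))) (.m (.v 1) (.v 0))), (.m (.m (.v 3) (.m (.m (.v 1) (.v 0)) (.v 0))) (.m (.m (.v 2) (.v 0)) (.v 0)))]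

def cL3 : List It := [⟨0, 2, 6, 2, 2, 2, 2, [8, 37]⟩,
  ⟨0, 2, 6, 2, 2, 2, 2, [37, 8]⟩,
  ⟨2, 8, 37, 11863, 2, 2, 2, []⟩]

end Pool.Agent.H12.Eng2
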