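import Pool.Agent.H12.Eng2.Core

/-! Certificate data (generated). -/

set_option autoImplicit false

namespace Pool.Agent.H12.Eng2

open Pool.Agent.H12.Eng (Ex)

def tL4 : List Ex := [(.m (.m (.v 3) (.m (.m (.m (.v 1) (.v 0)) (.v 0)) (.m (.m (.v 2) (.v 0)) (.v 0)))) (.m (.m (.v 4) (.v 0)) (.v 0)))]

def cL4 : List It := [⟨1, 2, 158447372324701267, 10, 2, 2, 2, []⟩,
  ⟨1, 2, 10, 158447372324701267, 2, 2, 2, []⟩,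
  ⟨4, 2, 4, 6, 8, 2, 2, [10, 2]⟩,
  ⟨4, 2, 4, 6, 8, 2, 2, [2, 10]⟩,
  ⟨2, 8, 205, 2, 281467025, 2, 2, []⟩,
  ⟨2, 8, 281467025, 2, 205, 2, 2, []⟩,
  ⟨4, 2, 4, 6, 8, 2, 2, [205]⟩,
  ⟨3, 2, 4, 6, 2, 2, 2, [8, 205]⟩,
  ⟨3, 2, 4, 6, 2, 2, 2, [205, 8]⟩,
  ⟨4, 2, 4, 6, 84067, 2, 2, []⟩,
  ⟨1, 2, 8, 10, 2, 2, 2, [281467025]⟩,
  ⟨5, 2, 4, 6, 217, 2, 2, []⟩,
  ⟨5, 2, 4, 6, 10, 2, 2, [8]⟩]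

end Pool.Agent.H12.Eng2
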