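import Pool.Agent.H12.Eng2.Core

/-! Certificate data (generated). -/

set_option autoImplicit false

namespace Pool.Agent.H12.Eng2

open Pool.Agent.H12.Eng (Ex)

def tS3 : List Ex := [(.m (.m (.v 2) (.m (.m (.v 1) (.v 0)) (.v 0))) (.m (.m (.v 1) (.v 0)) (.v 0)))]

def cS3 : List It := [⟨0, 2, 4, 2, 2, 2, 2, [4, 77]⟩,
  ⟨0, 2, 4, 2, 2, 2, 2, [6, 2, 4]⟩,
  ⟨0, 2, 4, 2, 2, 2, 2, [77, 4]⟩,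
  ⟨1, 2, 37, 4, 2, 2, 2, [77]⟩,
  ⟨1, 2, 11863, 4, 2, 2, 2, [4]⟩,
  ⟨1, 4, 2, 2, 2, 2, 2, [2, 77]⟩,
  ⟨2, 2, 6, 37, 2, 2, 2, [2, 4]⟩,
  ⟨2, 4, 77, 2743, 2, 2, 2, []⟩,
  ⟨8, 2, 4, 2, 2, 2, 2, [77]⟩,
  ⟨14, 2, 6, 4, 2, 2, 2, [2, 2, 4]⟩,
  ⟨14, 2, 6, 4, 2, 2, 2, [2743]⟩]

end Pool.Agent.H12.Eng2
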