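import Pool.Agent.H12.Eng2.IdsDef
import Pool.Agent.H12.Eng2.DatL0
import Pool.Agent.H12.Eng2.DatL1
import Pool.Agent.H12.Eng2.DatL2
import Pool.Agent.H12.Eng2.DatL3
import Pool.Agent.H12.Eng2.DatL4
import Pool.Agent.H12.Eng2.DatS1
import Pool.Agent.H12.Eng2.DatS3

/-! Kernel evaluations of certificates. -/

set_option autoImplicit false

namespace Pool.Agent.H12.Eng2
set_option maxRecDepth 1000000

open Pool.Agent.H12.Eng (Ex)

def idsL : ℕ → List Ex
  | 0 => rE3
  | 1 => rE21
  | 2 => rE111
  | 3 => tL0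
  | 4 => tL1
  | _ => tL2

theorem kL0 : chk idsE tL0 cL0 = true := by decide +kernel
theorem kL1 : chk idsE tL1 cL1 = true := by decide +kernel
theorem kL2 : chk idsE tL2 cL2 = true := by decide +kernel
theorem kL3 : chk idsE tL3 cL3 = true := by decide +kernel
theorem kL4 : chk idsL tL4 cL4 = true := by decide +kernel
theorem kS3 : chk idsA tS3 cS3 = true := by decide +kernel
theorem kS1 : chk idsV tS1 cS1 = true := by decide +kernel

end Pool.Agent.H12.Eng2
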