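import Pool.Agent.H12.Eng2.Core

/-! Certificate data (generated). -/

set_option autoImplicit false

namespace Pool.Agent.H12.Eng2

open Pool.Agent.H12.Eng (Ex)

def tS2 : List Ex := [(.m (.m (.v 3) (.m (.m (.m (.v 1) (.v 0)) (.v 0)) (.v 2))) (.m (.m (.m (.v 1) (.v 0)) (.v 0)) (.v 2))), (.m (.m (.v 3) (.m (.m (.m (.v 1) (.v 0)) (.v 0)) (.v 2))) (.m (.m (.m (.v 2) (.v 0)) (.v 0)) (.v 1))), (.m (.m (.v 3) (.m (.m (.m (.v 1) (.v 0)) (.v 0)) (.v 2))) (.m (.m (.v 2) (.v 0)) (.m (.v 1) (.v 0)))), (.m (.m (.v 3) (.m (.m (.m (.v 2) (.v 0)) (.v 0)) (.v 1))) (.m (.m (.m (.v 1) (.v 0)) (.v 0)) (.v 2))),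 (.m (.m (.v 3) (.m (.m (.m (.v 2) (.v 0)) (.v 0)) (.v 1))) (.m (.m (.m (.v 2) (.v 0)) (.v 0)) (.v 1))), (.m (.m (.v 3) (.m (.m (.m (.v 2) (.v 0)) (.v 0)) (.v 1))) (.m (.m (.v 2) (.v 0)) (.m (.v 1) (.v 0)))), (.m (.m (.v 3) (.m (.m (.v 2) (.v 0)) (.m (.v 1) (.v 0)))) (.m (.m (.m (.v 1) (.v 0)) (.v 0)) (.v 2))), (.m (.m (.v 3) (.m (.m (.v 2) (.v 0)) (.m (.v 1) (.v 0)))) (.m (.m (.m (.v 2) (.v 0)) (.v 0)) (.v 1))), (.m (.m (.v 3) (.m (.m (.v 2) (.v 0)) (.m (.v 1) (.v 0)))) (.m (.m (.v 2) (.v 0)) (.m (.v 1) (.v 0))))]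

def cS2 : List It := [⟨0, 2, 4, 2, 2, 2, 2, [2, 4, 6, 6, 8]⟩,
  ⟨0, 2, 4, 2, 2, 2, 2, [2, 4, 6, 8, 6]⟩,
  ⟨0, 2, 4, 2, 2, 2, 2, [2, 4, 8, 6, 6]⟩,
  ⟨0, 2, 4, 2, 2, 2, 2, [2, 137, 6, 6]⟩,
  ⟨0, 2, 4, 2, 2, 2, 2, [4, 2, 6, 6, 8]⟩,
  ⟨0, 2, 4, 2, 2, 2, 2, [4, 6, 2, 6, 8]⟩,
  ⟨0, 2, 4, 2, 2, 2, 2, [4, 6, 2, 8, 6]⟩,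
  ⟨0, 2, 4, 2, 2, 2, 2, [4, 6, 6, 2, 8]⟩,
  ⟨0, 2, 4, 2, 2, 2, 2, [4, 6, 8, 2, 6]⟩,
  ⟨0, 2, 4, 2, 2, 2, 2, [4, 6, 8, 77]⟩,
  ⟨0, 2, 4, 2, 2, 2, 2, [4, 6, 141, 2]⟩,
  ⟨0, 2, 4, 2, 2, 2, 2, [4, 6, 133, 6]⟩,
  ⟨0, 2, 4, 2, 2, 2, 2, [4, 8, 2, 6, 6]⟩,
  ⟨0, 2, 4, 2, 2, 2, 2, [4, 8, 6, 2, 6]⟩,
  ⟨0, 2, 4, 2, 2, 2, 2, [4, 8, 6, 6, 2]⟩,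
  ⟨0, 2, 4, 2, 2, 2, 2, [4, 77, 8, 6]⟩,
  ⟨0, 2, 4, 2, 2, 2, 2, [6, 2, 4, 8, 6]⟩,
  ⟨0, 2, 4, 2, 2, 2, 2, [6, 2, 4, 141]⟩,
  ⟨0, 2, 4, 2, 2, 2, 2, [6, 2, 6, 4, 8]⟩,
  ⟨0, 2, 4, 2, 2, 2, 2, [6, 2, 8, 4, 6]⟩,
  ⟨0, 2, 4, 2, 2, 2, 2, [6, 4, 2, 6, 8]⟩,
  ⟨0, 2, 4, 2, 2, 2, 2, [6, 4, 2, 8, 6]⟩,
  ⟨0, 2, 4, 2, 2, 2, 2, [6, 4, 2, 141]⟩,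
  ⟨0, 2, 4, 2, 2, 2, 2, [6, 4, 6, 2, 8]⟩,
  ⟨0, 2, 4, 2, 2, 2, 2, [6, 4, 6, 8, 2]⟩,
  ⟨0, 2, 4, 2, 2, 2, 2, [6, 4, 6, 133]⟩,
  ⟨0, 2, 4, 2, 2, 2, 2, [6, 4, 8, 2, 6]⟩,
  ⟨0, 2, 4, 2, 2, 2, 2, [6, 4, 8, 6, 2]⟩,
  ⟨0, 2, 4, 2, 2, 2, 2, [6, 4, 8, 77]⟩,
  ⟨0, 2, 4, 2, 2, 2, 2, [6, 4, 141, 2]⟩,
  ⟨0, 2, 4, 2, 2, 2, 2, [6, 4, 39767]⟩,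
  ⟨0, 2, 4, 2, 2, 2, 2, [6, 6, 2, 8, 4]⟩,
  ⟨0, 2, 4, 2, 2, 2, 2, [6, 6, 4, 2, 8]⟩,
  ⟨0, 2, 4, 2, 2, 2, 2, [6, 6, 8, 4, 2]⟩,
  ⟨0, 2, 4, 2, 2, 2, 2, [6, 6, 37, 8]⟩,
  ⟨0, 2, 4, 2, 2, 2, 2, [6, 8, 2, 4, 6]⟩,
  ⟨0, 2, 4, 2, 2, 2, 2, [6, 8, 4, 77]⟩,
  ⟨0, 2, 4, 2, 2, 2, 2, [6, 8, 6, 2, 4]⟩,
  ⟨0, 2, 4, 2, 2, 2, 2, [6, 8, 6, 4, 2]⟩,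
  ⟨0, 2, 4, 2, 2, 2, 2, [6, 8, 37, 6]⟩,
  ⟨0, 2, 4, 2, 2, 2, 2, [6, 8, 2751]⟩,
  ⟨0, 2, 4, 2, 2, 2, 2, [6, 8, 11867]⟩,
  ⟨0, 2, 4, 2, 2, 2, 2, [6, 141, 4, 2]⟩,
  ⟨0, 2, 4, 2, 2, 2, 2, [6, 137, 2, 6]⟩,
  ⟨0, 2, 4, 2, 2, 2, 2, [6, 133, 4, 6]⟩,
  ⟨0, 2, 4, 2, 2, 2, 2, [6, 77, 4, 8]⟩,
  ⟨0, 2, 4, 2, 2, 2, 2, [6, 77, 8, 4]⟩,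
  ⟨0, 2, 4, 2, 2, 2, 2, [6, 77, 137]⟩,
  ⟨0, 2, 4, 2, 2, 2, 2, [6, 37, 8, 6]⟩,
  ⟨0, 2, 4, 2, 2, 2, 2, [6, 11875, 4]⟩,
  ⟨0, 2, 4, 2, 2, 2, 2, [6, 2755, 6]⟩,
  ⟨0, 2, 4, 2, 2, 2, 2, [6, 2751, 8]⟩,
  ⟨0, 2, 4, 2, 2, 2, 2, [6, 11867, 8]⟩,
  ⟨0, 2, 4, 2, 2, 2, 2, [6, 15180063]⟩,
  ⟨0, 2, 4, 2, 2, 2, 2, [6, 39837]⟩,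
  ⟨0, 2, 4, 2, 2, 2, 2, [6, 282031259]⟩,
  ⟨0, 2, 4, 2, 2, 2, 2, [6, 37693]⟩,
  ⟨0, 2, 4, 2, 2, 2, 2, [8, 2, 81, 6]⟩,
  ⟨0, 2, 4, 2, 2, 2, 2, [8, 4, 6, 2, 6]⟩,
  ⟨0, 2, 4, 2, 2, 2, 2, [8, 4, 6, 6, 2]⟩,
  ⟨0, 2, 4, 2, 2, 2, 2, [8, 4, 6, 77]⟩,
  ⟨0, 2, 4, 2, 2, 2, 2, [8, 4, 77, 6]⟩,
  ⟨0, 2, 4, 2, 2, 2, 2, [8, 6, 2, 4, 6]⟩,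
  ⟨0, 2, 4, 2, 2, 2, 2, [8, 6, 4, 77]⟩,
  ⟨0, 2, 4, 2, 2, 2, 2, [8, 6, 77, 4]⟩,
  ⟨0, 2, 4, 2, 2, 2, 2, [8, 77, 4, 6]⟩,
  ⟨0, 2, 4, 2, 2, 2, 2, [8, 37, 6, 6]⟩,
  ⟨0, 2, 4, 2, 2, 2, 2, [8, 2751, 6]⟩,
  ⟨0, 2, 4, 2, 2, 2, 2, [8, 11867, 6]⟩,
  ⟨0, 2, 4, 2, 2, 2, 2, [141, 4, 2, 6]⟩,
  ⟨0, 2, 4, 2, 2, 2, 2, [141, 6, 2, 4]⟩,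
  ⟨0, 2, 4, 2, 2, 2, 2, [141, 6, 4, 2]⟩,
  ⟨0, 2, 4, 2, 2, 2, 2, [137, 6, 6, 2]⟩,
  ⟨0, 2, 4, 2, 2, 2, 2, [137, 6, 77]⟩,
  ⟨0, 2, 4, 2, 2, 2, 2, [137, 77, 6]⟩,
  ⟨0, 2, 4, 2, 2, 2, 2, [81, 2, 8, 6]⟩,
  ⟨0, 2, 4, 2, 2, 2, 2, [81, 8, 77]⟩,
  ⟨0, 2, 4, 2, 2, 2, 2, [133, 6, 4, 6]⟩,
  ⟨0, 2, 4, 2, 2, 2, 2, [77, 4, 8, 6]⟩,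
  ⟨0, 2, 4, 2, 2, 2, 2, [77, 8, 4, 6]⟩,
  ⟨0, 2, 4, 2, 2, 2, 2, [77, 8, 6, 4]⟩,
  ⟨0, 2, 4, 2, 2, 2, 2, [77, 141, 4]⟩,
  ⟨0, 2, 4, 2, 2, 2, 2, [77, 137, 6]⟩,
  ⟨0, 2, 4, 2, 2, 2, 2, [37, 8, 6, 6]⟩,
  ⟨0, 2, 4, 2, 2, 2, 2, [39775, 4, 2]⟩,
  ⟨0, 2, 4, 2, 2, 2, 2, [13135, 8, 2]⟩,
  ⟨0, 2, 4, 2, 2, 2, 2, [11875, 6, 4]⟩,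
  ⟨0, 2, 4, 2, 2, 2, 2, [11871, 8, 4]⟩,
  ⟨0, 2, 4, 2, 2, 2, 2, [2751, 8, 6]⟩,
  ⟨0, 2, 4, 2, 2, 2, 2, [39917, 4]⟩,
  ⟨0, 2, 6, 2, 2, 2, 2, [2, 4, 8, 4, 6]⟩,
  ⟨0, 2, 6, 2, 2, 2, 2, [2, 6, 137, 4]⟩,
  ⟨0, 2, 6, 2, 2, 2, 2, [4, 2, 6, 4, 8]⟩,
  ⟨0, 2, 6, 2, 2, 2, 2, [4, 2, 8, 4, 6]⟩,
  ⟨0, 2, 6, 2, 2, 2, 2, [4, 4, 2, 6, 8]⟩,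
  ⟨0, 2, 6, 2, 2, 2, 2, [4, 4, 6, 2, 8]⟩,
  ⟨0, 2, 6, 2, 2, 2, 2, [4, 4, 8, 2, 6]⟩,
  ⟨0, 2, 6, 2, 2, 2, 2, [4, 4, 8, 6, 2]⟩,
  ⟨0, 2, 6, 2, 2, 2, 2, [4, 4, 133, 6]⟩,
  ⟨0, 2, 6, 2, 2, 2, 2, [4, 4, 11875]⟩,
  ⟨0, 2, 6, 2, 2, 2, 2, [4, 6, 8, 2, 4]⟩,
  ⟨0, 2, 6, 2, 2, 2, 2, [4, 8, 2, 4, 6]⟩,
  ⟨0, 2, 6, 2, 2, 2, 2, [4, 8, 2, 6, 4]⟩,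
  ⟨0, 2, 6, 2, 2, 2, 2, [4, 8, 4, 2, 6]⟩,
  ⟨0, 2, 6, 2, 2, 2, 2, [4, 8, 6, 4, 2]⟩,
  ⟨0, 2, 6, 2, 2, 2, 2, [4, 8, 77, 4]⟩,
  ⟨0, 2, 6, 2, 2, 2, 2, [4, 141, 4, 2]⟩,
  ⟨0, 2, 6, 2, 2, 2, 2, [4, 137, 6, 2]⟩,
  ⟨0, 2, 6, 2, 2, 2, 2, [4, 137, 77]⟩,
  ⟨0, 2, 6, 2, 2, 2, 2, [4, 133, 4, 6]⟩,
  ⟨0, 2, 6, 2, 2, 2, 2, [4, 133, 6, 4]⟩,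
  ⟨0, 2, 6, 2, 2, 2, 2, [4, 77, 4, 8]⟩,
  ⟨0, 2, 6, 2, 2, 2, 2, [4, 77, 137]⟩,
  ⟨0, 2, 6, 2, 2, 2, 2, [4, 37, 8, 6]⟩,
  ⟨0, 2, 6, 2, 2, 2, 2, [4, 2751, 8]⟩,
  ⟨0, 2, 6, 2, 2, 2, 2, [4, 11867, 8]⟩,
  ⟨0, 2, 6, 2, 2, 2, 2, [6, 2, 4, 4, 8]⟩,
  ⟨0, 2, 6, 2, 2, 2, 2, [6, 4, 2, 8, 4]⟩,
  ⟨0, 2, 6, 2, 2, 2, 2, [6, 8, 2, 4, 4]⟩,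
  ⟨0, 2, 6, 2, 2, 2, 2, [6, 8, 4, 2, 4]⟩,
  ⟨0, 2, 6, 2, 2, 2, 2, [6, 8, 4, 4, 2]⟩,
  ⟨0, 2, 6, 2, 2, 2, 2, [6, 8, 37, 4]⟩,
  ⟨0, 2, 6, 2, 2, 2, 2, [6, 8, 2747]⟩,
  ⟨0, 2, 6, 2, 2, 2, 2, [6, 137, 2, 4]⟩,
  ⟨0, 2, 6, 2, 2, 2, 2, [8, 2, 4, 6, 4]⟩,
  ⟨0, 2, 6, 2, 2, 2, 2, [8, 4, 37, 6]⟩,
  ⟨0, 2, 6, 2, 2, 2, 2, [8, 4, 2751]⟩,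
  ⟨0, 2, 6, 2, 2, 2, 2, [8, 4, 11867]⟩,
  ⟨0, 2, 6, 2, 2, 2, 2, [8, 6, 2, 4, 4]⟩,
  ⟨0, 2, 6, 2, 2, 2, 2, [8, 6, 4, 2, 4]⟩,
  ⟨0, 2, 6, 2, 2, 2, 2, [8, 6, 2747]⟩,
  ⟨0, 2, 6, 2, 2, 2, 2, [8, 81, 2, 4]⟩,
  ⟨0, 2, 6, 2, 2, 2, 2, [8, 77, 4, 4]⟩,
  ⟨0, 2, 6, 2, 2, 2, 2, [8, 37, 4, 6]⟩,
  ⟨0, 2, 6, 2, 2, 2, 2, [8, 2751, 4]⟩,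
  ⟨0, 2, 6, 2, 2, 2, 2, [8, 11867, 4]⟩,
  ⟨0, 2, 6, 2, 2, 2, 2, [137, 4, 6, 2]⟩,
  ⟨0, 2, 6, 2, 2, 2, 2, [137, 4, 77]⟩,
  ⟨0, 2, 6, 2, 2, 2, 2, [137, 6, 4, 2]⟩,
  ⟨0, 2, 6, 2, 2, 2, 2, [81, 8, 2, 4]⟩,
  ⟨0, 2, 6, 2, 2, 2, 2, [133, 4, 6, 4]⟩,
  ⟨0, 2, 6, 2, 2, 2, 2, [77, 8, 4, 4]⟩,
  ⟨0, 2, 6, 2, 2, 2, 2, [77, 137, 4]⟩,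
  ⟨0, 2, 6, 2, 2, 2, 2, [37, 6, 8, 4]⟩,
  ⟨0, 2, 6, 2, 2, 2, 2, [37, 8, 4, 6]⟩,
  ⟨0, 2, 6, 2, 2, 2, 2, [37, 141, 4]⟩,
  ⟨0, 2, 6, 2, 2, 2, 2, [37, 137, 6]⟩,
  ⟨0, 2, 6, 2, 2, 2, 2, [39771, 2, 4]⟩,
  ⟨0, 2, 6, 2, 2, 2, 2, [37547, 2, 6]⟩,
  ⟨0, 2, 6, 2, 2, 2, 2, [11875, 4, 4]⟩,
  ⟨0, 2, 6, 2, 2, 2, 2, [37543, 4, 6]⟩,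
  ⟨0, 2, 6, 2, 2, 2, 2, [2751, 8, 4]⟩,
  ⟨0, 2, 6, 2, 2, 2, 2, [11867, 8, 4]⟩,
  ⟨0, 2, 6, 2, 2, 2, 2, [2747, 8, 6]⟩,
  ⟨0, 2, 6, 2, 2, 2, 2, [39837, 4]⟩,
  ⟨0, 2, 6, 2, 2, 2, 2, [37693, 4]⟩,
  ⟨0, 2, 6, 2, 2, 2, 2, [15092035, 6]⟩,
  ⟨0, 2, 8, 2, 2, 2, 2, [4, 2, 4, 6, 6]⟩,
  ⟨0, 2, 8, 2, 2, 2, 2, [4, 2, 6, 4, 6]⟩,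
  ⟨0, 2, 8, 2, 2, 2, 2, [4, 2, 81, 6]⟩,
  ⟨0, 2, 8, 2, 2, 2, 2, [4, 4, 6, 2, 6]⟩,
  ⟨0, 2, 8, 2, 2, 2, 2, [4, 4, 6, 6, 2]⟩,
  ⟨0, 2, 8, 2, 2, 2, 2, [4, 4, 77, 6]⟩,
  ⟨0, 2, 8, 2, 2, 2, 2, [4, 6, 2, 4, 6]⟩,
  ⟨0, 2, 8, 2, 2, 2, 2, [4, 6, 4, 6, 2]⟩,
  ⟨0, 2, 8, 2, 2, 2, 2, [4, 6, 4, 77]⟩,
  ⟨0, 2, 8, 2, 2, 2, 2, [4, 6, 77, 4]⟩,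
  ⟨0, 2, 8, 2, 2, 2, 2, [4, 81, 2, 6]⟩,
  ⟨0, 2, 8, 2, 2, 2, 2, [4, 81, 77]⟩,
  ⟨0, 2, 8, 2, 2, 2, 2, [4, 77, 4, 6]⟩,
  ⟨0, 2, 8, 2, 2, 2, 2, [4, 11871, 4]⟩,
  ⟨0, 2, 8, 2, 2, 2, 2, [4, 2751, 6]⟩,
  ⟨0, 2, 8, 2, 2, 2, 2, [6, 2, 6, 4, 4]⟩,
  ⟨0, 2, 8, 2, 2, 2, 2, [6, 4, 2, 6, 4]⟩,
  ⟨0, 2, 8, 2, 2, 2, 2, [6, 4, 4, 2, 6]⟩,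
  ⟨0, 2, 8, 2, 2, 2, 2, [6, 4, 6, 4, 2]⟩,
  ⟨0, 2, 8, 2, 2, 2, 2, [6, 4, 77, 4]⟩,
  ⟨0, 2, 8, 2, 2, 2, 2, [6, 6, 4, 2, 4]⟩,
  ⟨0, 2, 8, 2, 2, 2, 2, [6, 6, 4, 4, 2]⟩,
  ⟨0, 2, 8, 2, 2, 2, 2, [6, 6, 2747]⟩,
  ⟨0, 2, 8, 2, 2, 2, 2, [6, 81, 4, 2]⟩,
  ⟨0, 2, 8, 2, 2, 2, 2, [6, 77, 4, 4]⟩,
  ⟨0, 2, 8, 2, 2, 2, 2, [6, 37, 6, 4]⟩,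
  ⟨0, 2, 8, 2, 2, 2, 2, [81, 2, 4, 6]⟩,
  ⟨0, 2, 8, 2, 2, 2, 2, [81, 6, 4, 2]⟩,
  ⟨0, 2, 8, 2, 2, 2, 2, [81, 77, 4]⟩,
  ⟨0, 2, 8, 2, 2, 2, 2, [77, 81, 4]⟩,
  ⟨0, 2, 8, 2, 2, 2, 2, [13135, 2, 4]⟩,
  ⟨0, 2, 8, 2, 2, 2, 2, [11871, 4, 4]⟩,
  ⟨0, 2, 8, 2, 2, 2, 2, [2751, 4, 6]⟩,
  ⟨0, 2, 8, 2, 2, 2, 2, [11867, 6, 4]⟩,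
  ⟨0, 2, 8, 2, 2, 2, 2, [13127, 4, 6]⟩,
  ⟨0, 2, 8, 2, 2, 2, 2, [13197, 6]⟩,
  ⟨0, 2, 141, 2, 2, 2, 2, [2, 4, 4, 6]⟩,
  ⟨0, 2, 141, 2, 2, 2, 2, [4, 2, 4, 6]⟩,
  ⟨0, 2, 141, 2, 2, 2, 2, [4, 4, 2, 6]⟩,
  ⟨0, 2, 141, 2, 2, 2, 2, [4, 4, 77]⟩,
  ⟨0, 2, 141, 2, 2, 2, 2, [4, 6, 4, 2]⟩,
  ⟨0, 2, 141, 2, 2, 2, 2, [4, 37, 6]⟩,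
  ⟨0, 2, 141, 2, 2, 2, 2, [4, 2751]⟩,
  ⟨0, 2, 141, 2, 2, 2, 2, [4, 11867]⟩,
  ⟨0, 2, 141, 2, 2, 2, 2, [6, 4, 4, 2]⟩,
  ⟨0, 2, 141, 2, 2, 2, 2, [6, 37, 4]⟩,
  ⟨0, 2, 141, 2, 2, 2, 2, [81, 2, 4]⟩,
  ⟨0, 2, 141, 2, 2, 2, 2, [11867, 4]⟩,
  ⟨0, 2, 141, 2, 2, 2, 2, [13127, 4]⟩,
  ⟨0, 2, 141, 2, 2, 2, 2, [2747, 6]⟩,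
  ⟨0, 2, 137, 2, 2, 2, 2, [2, 6, 6, 4]⟩,
  ⟨0, 2, 137, 2, 2, 2, 2, [4, 2, 6, 6]⟩,
  ⟨0, 2, 137, 2, 2, 2, 2, [4, 6, 77]⟩,
  ⟨0, 2, 137, 2, 2, 2, 2, [4, 77, 6]⟩,
  ⟨0, 2, 137, 2, 2, 2, 2, [6, 4, 6, 2]⟩,
  ⟨0, 2, 137, 2, 2, 2, 2, [6, 77, 4]⟩,
  ⟨0, 2, 137, 2, 2, 2, 2, [6, 37, 6]⟩,
  ⟨0, 2, 137, 2, 2, 2, 2, [6, 2751]⟩,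
  ⟨0, 2, 137, 2, 2, 2, 2, [6, 11867]⟩,
  ⟨0, 2, 137, 2, 2, 2, 2, [81, 2, 6]⟩,
  ⟨0, 2, 137, 2, 2, 2, 2, [81, 77]⟩,
  ⟨0, 2, 137, 2, 2, 2, 2, [37, 6, 6]⟩,
  ⟨0, 2, 137, 2, 2, 2, 2, [11867, 6]⟩,
  ⟨0, 2, 81, 2, 2, 2, 2, [2, 4, 6, 8]⟩,
  ⟨0, 2, 81, 2, 2, 2, 2, [2, 4, 8, 6]⟩,
  ⟨0, 2, 81, 2, 2, 2, 2, [2, 4, 141]⟩,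
  ⟨0, 2, 81, 2, 2, 2, 2, [2, 6, 4, 8]⟩,
  ⟨0, 2, 81, 2, 2, 2, 2, [2, 8, 4, 6]⟩,
  ⟨0, 2, 81, 2, 2, 2, 2, [2, 8, 6, 4]⟩,
  ⟨0, 2, 81, 2, 2, 2, 2, [4, 2, 6, 8]⟩,
  ⟨0, 2, 81, 2, 2, 2, 2, [4, 2, 141]⟩,
  ⟨0, 2, 81, 2, 2, 2, 2, [4, 6, 2, 8]⟩,
  ⟨0, 2, 81, 2, 2, 2, 2, [4, 6, 8, 2]⟩,
  ⟨0, 2, 81, 2, 2, 2, 2, [4, 133, 6]⟩,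
  ⟨0, 2, 81, 2, 2, 2, 2, [4, 77, 8]⟩,
  ⟨0, 2, 81, 2, 2, 2, 2, [6, 2, 4, 8]⟩,
  ⟨0, 2, 81, 2, 2, 2, 2, [6, 4, 133]⟩,
  ⟨0, 2, 81, 2, 2, 2, 2, [6, 37, 8]⟩,
  ⟨0, 2, 81, 2, 2, 2, 2, [6, 2755]⟩,
  ⟨0, 2, 81, 2, 2, 2, 2, [8, 4, 2, 6]⟩,
  ⟨0, 2, 81, 2, 2, 2, 2, [8, 4, 77]⟩,
  ⟨0, 2, 81, 2, 2, 2, 2, [8, 77, 4]⟩,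
  ⟨0, 2, 81, 2, 2, 2, 2, [8, 37, 6]⟩,
  ⟨0, 2, 81, 2, 2, 2, 2, [8, 2751]⟩,
  ⟨0, 2, 81, 2, 2, 2, 2, [8, 11867]⟩,
  ⟨0, 2, 81, 2, 2, 2, 2, [141, 2, 4]⟩,
  ⟨0, 2, 81, 2, 2, 2, 2, [137, 6, 2]⟩,
  ⟨0, 2, 81, 2, 2, 2, 2, [133, 6, 4]⟩,
  ⟨0, 2, 81, 2, 2, 2, 2, [77, 8, 4]⟩,
  ⟨0, 2, 81, 2, 2, 2, 2, [37, 6, 8]⟩,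
  ⟨0, 2, 81, 2, 2, 2, 2, [11875, 4]⟩,
  ⟨0, 2, 81, 2, 2, 2, 2, [35391, 4]⟩,
  ⟨0, 2, 81, 2, 2, 2, 2, [39767, 4]⟩,
  ⟨0, 2, 81, 2, 2, 2, 2, [2755, 6]⟩,
  ⟨0, 2, 81, 2, 2, 2, 2, [35387, 6]⟩,
  ⟨0, 2, 81, 2, 2, 2, 2, [15180063]⟩,
  ⟨0, 2, 81, 2, 2, 2, 2, [39837]⟩,
  ⟨0, 2, 81, 2, 2, 2, 2, [282031259]⟩,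
  ⟨0, 2, 81, 2, 2, 2, 2, [37693]⟩,
  ⟨0, 2, 13139, 2, 2, 2, 2, [2, 6, 4]⟩,
  ⟨0, 2, 13139, 2, 2, 2, 2, [4, 2, 6]⟩,
  ⟨0, 2, 13139, 2, 2, 2, 2, [4, 77]⟩,
  ⟨0, 2, 13139, 2, 2, 2, 2, [77, 4]⟩,
  ⟨0, 2, 39771, 2, 2, 2, 2, [4, 2, 6]⟩,
  ⟨0, 2, 39771, 2, 2, 2, 2, [4, 77]⟩,
  ⟨0, 2, 39771, 2, 2, 2, 2, [6, 2, 4]⟩,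
  ⟨0, 2, 39771, 2, 2, 2, 2, [77, 4]⟩,
  ⟨0, 2, 13135, 2, 2, 2, 2, [4, 8, 2]⟩,
  ⟨0, 2, 13135, 2, 2, 2, 2, [8, 4, 2]⟩,
  ⟨0, 2, 37547, 2, 2, 2, 2, [6, 2, 6]⟩,
  ⟨0, 2, 13131, 2, 2, 2, 2, [8, 2, 6]⟩,
  ⟨0, 2, 13131, 2, 2, 2, 2, [8, 77]⟩,
  ⟨0, 2, 13131, 2, 2, 2, 2, [141, 2]⟩,
  ⟨0, 2, 11875, 2, 2, 2, 2, [4, 4, 6]⟩,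
  ⟨0, 2, 11875, 2, 2, 2, 2, [4, 6, 4]⟩,
  ⟨0, 2, 11875, 2, 2, 2, 2, [6, 4, 4]⟩,
  ⟨0, 2, 2755, 2, 2, 2, 2, [4, 6, 6]⟩,
  ⟨0, 2, 2755, 2, 2, 2, 2, [6, 6, 4]⟩,
  ⟨0, 2, 2755, 2, 2, 2, 2, [81, 6]⟩,
  ⟨0, 2, 2751, 2, 2, 2, 2, [4, 6, 8]⟩,
  ⟨0, 2, 2751, 2, 2, 2, 2, [4, 8, 6]⟩,
  ⟨0, 2, 2751, 2, 2, 2, 2, [4, 141]⟩,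
  ⟨0, 2, 2751, 2, 2, 2, 2, [8, 4, 6]⟩,
  ⟨0, 2, 2751, 2, 2, 2, 2, [8, 6, 4]⟩,
  ⟨0, 2, 3163464895, 2, 2, 2, 2, [2, 4]⟩,
  ⟨0, 2, 39925, 2, 2, 2, 2, [2, 4]⟩,
  ⟨0, 2, 39925, 2, 2, 2, 2, [4, 2]⟩,
  ⟨0, 2, 344846335, 2, 2, 2, 2, [8, 2]⟩,
  ⟨0, 2, 281841299, 2, 2, 2, 2, [4, 4]⟩,
  ⟨0, 2, 344636275, 2, 2, 2, 2, [6, 4]⟩,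
  ⟨0, 2, 15092035, 2, 2, 2, 2, [6, 6]⟩,
  ⟨0, 2, 15092031, 2, 2, 2, 2, [8, 6]⟩,
  ⟨0, 2, 352557475, 2, 2, 2, 2, [4]⟩,
  ⟨0, 2, 15136285, 2, 2, 2, 2, [4]⟩,
  ⟨0, 2, 348321635, 2, 2, 2, 2, [6]⟩,
  ⟨1, 2, 4, 6, 2, 2, 2, [2, 2, 4, 6, 8]⟩,
  ⟨1, 2, 4, 6, 2, 2, 2, [2, 2, 4, 8, 6]⟩,
  ⟨1, 2, 4, 6, 2, 2, 2, [2, 2, 4, 141]⟩,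
  ⟨1, 2, 4, 6, 2, 2, 2, [2, 2, 8, 4, 6]⟩,
  ⟨1, 2, 4, 6, 2, 2, 2, [2, 2, 8, 6, 4]⟩,
  ⟨1, 2, 4, 6, 2, 2, 2, [2, 4, 2, 6, 8]⟩,
  ⟨1, 2, 4, 6, 2, 2, 2, [2, 4, 2, 8, 6]⟩,
  ⟨1, 2, 4, 6, 2, 2, 2, [2, 4, 2, 141]⟩,
  ⟨1, 2, 4, 6, 2, 2, 2, [2, 4, 6, 8, 2]⟩,
  ⟨1, 2, 4, 6, 2, 2, 2, [2, 4, 6, 133]⟩,
  ⟨1, 2, 4, 6, 2, 2, 2, [2, 4, 8, 2, 6]⟩,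
  ⟨1, 2, 4, 6, 2, 2, 2, [2, 4, 8, 77]⟩,
  ⟨1, 2, 4, 6, 2, 2, 2, [2, 4, 133, 6]⟩,
  ⟨1, 2, 4, 6, 2, 2, 2, [2, 4, 39767]⟩,
  ⟨1, 2, 4, 6, 2, 2, 2, [2, 6, 2, 8, 4]⟩,
  ⟨1, 2, 4, 6, 2, 2, 2, [2, 6, 2, 137]⟩,
  ⟨1, 2, 4, 6, 2, 2, 2, [2, 6, 4, 2, 8]⟩,
  ⟨1, 2, 4, 6, 2, 2, 2, [2, 6, 4, 8, 2]⟩,
  ⟨1, 2, 4, 6, 2, 2, 2, [2, 6, 8, 2, 4]⟩,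
  ⟨1, 2, 4, 6, 2, 2, 2, [2, 6, 8, 4, 2]⟩,
  ⟨1, 2, 4, 6, 2, 2, 2, [2, 6, 8, 37]⟩,
  ⟨1, 2, 4, 6, 2, 2, 2, [2, 6, 133, 4]⟩,
  ⟨1, 2, 4, 6, 2, 2, 2, [2, 8, 4, 2, 6]⟩,
  ⟨1, 2, 4, 6, 2, 2, 2, [2, 8, 4, 6, 2]⟩,
  ⟨1, 2, 4, 6, 2, 2, 2, [2, 8, 77, 4]⟩,
  ⟨1, 2, 4, 6, 2, 2, 2, [2, 8, 37, 6]⟩,
  ⟨1, 2, 4, 6, 2, 2, 2, [2, 8, 2751]⟩,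
  ⟨1, 2, 4, 6, 2, 2, 2, [2, 8, 11867]⟩,
  ⟨1, 2, 4, 6, 2, 2, 2, [2, 141, 4, 2]⟩,
  ⟨1, 2, 4, 6, 2, 2, 2, [2, 137, 6, 2]⟩,
  ⟨1, 2, 4, 6, 2, 2, 2, [2, 137, 77]⟩,
  ⟨1, 2, 4, 6, 2, 2, 2, [2, 133, 6, 4]⟩,
  ⟨1, 2, 4, 6, 2, 2, 2, [2, 77, 4, 8]⟩,
  ⟨1, 2, 4, 6, 2, 2, 2, [2, 77, 8, 4]⟩,
  ⟨1, 2, 4, 6, 2, 2, 2, [2, 2755, 6]⟩,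
  ⟨1, 2, 4, 6, 2, 2, 2, [2, 2751, 8]⟩,
  ⟨1, 2, 4, 6, 2, 2, 2, [2, 11867, 8]⟩,
  ⟨1, 2, 4, 6, 2, 2, 2, [2, 15180063]⟩,
  ⟨1, 2, 4, 6, 2, 2, 2, [2, 39837]⟩,
  ⟨1, 2, 4, 6, 2, 2, 2, [2, 282031259]⟩,
  ⟨1, 2, 4, 6, 2, 2, 2, [2, 37693]⟩,
  ⟨1, 2, 4, 6, 2, 2, 2, [4, 2, 6, 2, 8]⟩,
  ⟨1, 2, 4, 6, 2, 2, 2, [4, 2, 6, 133]⟩,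
  ⟨1, 2, 4, 6, 2, 2, 2, [4, 6, 8, 2, 2]⟩,
  ⟨1, 2, 4, 6, 2, 2, 2, [4, 8, 2, 2, 6]⟩,
  ⟨1, 2, 4, 6, 2, 2, 2, [4, 8, 2, 77]⟩,
  ⟨1, 2, 4, 6, 2, 2, 2, [4, 8, 6, 2, 2]⟩,
  ⟨1, 2, 4, 6, 2, 2, 2, [4, 141, 2, 2]⟩,
  ⟨1, 2, 4, 6, 2, 2, 2, [4, 133, 6, 2]⟩,
  ⟨1, 2, 4, 6, 2, 2, 2, [4, 133, 77]⟩,
  ⟨1, 2, 4, 6, 2, 2, 2, [6, 2, 2, 137]⟩,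
  ⟨1, 2, 4, 6, 2, 2, 2, [6, 2, 4, 8, 2]⟩,
  ⟨1, 2, 4, 6, 2, 2, 2, [6, 2, 8, 37]⟩,
  ⟨1, 2, 4, 6, 2, 2, 2, [6, 4, 2, 8, 2]⟩,
  ⟨1, 2, 4, 6, 2, 2, 2, [6, 8, 2, 2, 4]⟩,
  ⟨1, 2, 4, 6, 2, 2, 2, [6, 8, 4, 2, 2]⟩,
  ⟨1, 2, 4, 6, 2, 2, 2, [6, 137, 2, 2]⟩,
  ⟨1, 2, 4, 6, 2, 2, 2, [6, 133, 4, 2]⟩,
  ⟨1, 2, 4, 6, 2, 2, 2, [6, 37, 133]⟩,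
  ⟨1, 2, 4, 6, 2, 2, 2, [8, 2, 2, 4, 6]⟩,
  ⟨1, 2, 4, 6, 2, 2, 2, [8, 2, 2, 6, 4]⟩,
  ⟨1, 2, 4, 6, 2, 2, 2, [8, 4, 2, 77]⟩,
  ⟨1, 2, 4, 6, 2, 2, 2, [8, 6, 2, 2, 4]⟩,
  ⟨1, 2, 4, 6, 2, 2, 2, [8, 6, 37, 2]⟩,
  ⟨1, 2, 4, 6, 2, 2, 2, [8, 77, 37]⟩,
  ⟨1, 2, 4, 6, 2, 2, 2, [8, 37, 77]⟩,
  ⟨1, 2, 4, 6, 2, 2, 2, [141, 2, 4, 2]⟩,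
  ⟨1, 2, 4, 6, 2, 2, 2, [77, 2, 137]⟩,
  ⟨1, 2, 4, 6, 2, 2, 2, [77, 8, 2, 4]⟩,
  ⟨1, 2, 4, 6, 2, 2, 2, [77, 8, 4, 2]⟩,
  ⟨1, 2, 4, 6, 2, 2, 2, [77, 8, 37]⟩,
  ⟨1, 2, 4, 6, 2, 2, 2, [37, 8, 2, 6]⟩,
  ⟨1, 2, 4, 6, 2, 2, 2, [37, 8, 6, 2]⟩,
  ⟨1, 2, 4, 6, 2, 2, 2, [37, 8, 77]⟩,
  ⟨1, 2, 4, 6, 2, 2, 2, [39767, 4, 2]⟩,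
  ⟨1, 2, 4, 6, 2, 2, 2, [11867, 8, 2]⟩,
  ⟨1, 2, 4, 6, 2, 2, 2, [11863, 4, 8]⟩,
  ⟨1, 2, 4, 6, 2, 2, 2, [2743, 6, 8]⟩,
  ⟨1, 2, 4, 6, 2, 2, 2, [35533, 4]⟩,
  ⟨1, 2, 4, 6, 2, 2, 2, [35453, 6]⟩,
  ⟨1, 2, 4, 6, 2, 2, 2, [15048111, 8]⟩,
  ⟨1, 2, 4, 6, 2, 2, 2, [281461547, 8]⟩,
  ⟨1, 2, 4, 6, 2, 2, 2, [11933, 8]⟩,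
  ⟨1, 2, 4, 6, 2, 2, 2, [284792995]⟩,
  ⟨1, 2, 4, 6, 2, 2, 2, [159083257593750059]⟩,
  ⟨1, 2, 4, 8, 2, 2, 2, [2, 2, 6, 6, 4]⟩,
  ⟨1, 2, 4, 8, 2, 2, 2, [2, 4, 6, 2, 6]⟩,
  ⟨1, 2, 4, 8, 2, 2, 2, [2, 4, 6, 6, 2]⟩,
  ⟨1, 2, 4, 8, 2, 2, 2, [2, 4, 77, 6]⟩,
  ⟨1, 2, 4, 8, 2, 2, 2, [2, 6, 4, 6, 2]⟩,
  ⟨1, 2, 4, 8, 2, 2, 2, [2, 6, 6, 2, 4]⟩,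
  ⟨1, 2, 4, 8, 2, 2, 2, [2, 6, 6, 4, 2]⟩,
  ⟨1, 2, 4, 8, 2, 2, 2, [2, 81, 2, 6]⟩,
  ⟨1, 2, 4, 8, 2, 2, 2, [2, 11871, 4]⟩,
  ⟨1, 2, 4, 8, 2, 2, 2, [2, 11867, 6]⟩,
  ⟨1, 2, 4, 8, 2, 2, 2, [4, 6, 2, 2, 6]⟩,
  ⟨1, 2, 4, 8, 2, 2, 2, [4, 77, 2, 6]⟩,
  ⟨1, 2, 4, 8, 2, 2, 2, [4, 77, 6, 2]⟩,
  ⟨1, 2, 4, 8, 2, 2, 2, [4, 77, 77]⟩,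
  ⟨1, 2, 4, 8, 2, 2, 2, [6, 2, 2, 4, 6]⟩,
  ⟨1, 2, 4, 8, 2, 2, 2, [6, 2, 4, 2, 6]⟩,
  ⟨1, 2, 4, 8, 2, 2, 2, [6, 2, 4, 6, 2]⟩,
  ⟨1, 2, 4, 8, 2, 2, 2, [6, 2, 6, 2, 4]⟩,
  ⟨1, 2, 4, 8, 2, 2, 2, [6, 2, 77, 4]⟩,
  ⟨1, 2, 4, 8, 2, 2, 2, [6, 4, 2, 2, 6]⟩,
  ⟨1, 2, 4, 8, 2, 2, 2, [6, 4, 2, 77]⟩,
  ⟨1, 2, 4, 8, 2, 2, 2, [6, 4, 6, 2, 2]⟩,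
  ⟨1, 2, 4, 8, 2, 2, 2, [6, 6, 2, 2, 4]⟩,
  ⟨1, 2, 4, 8, 2, 2, 2, [6, 6, 2, 4, 2]⟩,
  ⟨1, 2, 4, 8, 2, 2, 2, [6, 6, 4, 2, 2]⟩,
  ⟨1, 2, 4, 8, 2, 2, 2, [6, 77, 2, 4]⟩,
  ⟨1, 2, 4, 8, 2, 2, 2, [6, 77, 4, 2]⟩,
  ⟨1, 2, 4, 8, 2, 2, 2, [6, 37, 2, 6]⟩,
  ⟨1, 2, 4, 8, 2, 2, 2, [6, 37, 6, 2]⟩,
  ⟨1, 2, 4, 8, 2, 2, 2, [6, 37, 77]⟩,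
  ⟨1, 2, 4, 8, 2, 2, 2, [6, 281461547]⟩,
  ⟨1, 2, 4, 8, 2, 2, 2, [6, 11933]⟩,
  ⟨1, 2, 4, 8, 2, 2, 2, [81, 2, 2, 6]⟩,
  ⟨1, 2, 4, 8, 2, 2, 2, [81, 6, 2, 2]⟩,
  ⟨1, 2, 4, 8, 2, 2, 2, [77, 2, 6, 4]⟩,
  ⟨1, 2, 4, 8, 2, 2, 2, [77, 4, 2, 6]⟩,
  ⟨1, 2, 4, 8, 2, 2, 2, [77, 4, 6, 2]⟩,
  ⟨1, 2, 4, 8, 2, 2, 2, [77, 4, 77]⟩,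
  ⟨1, 2, 4, 8, 2, 2, 2, [77, 6, 2, 4]⟩,
  ⟨1, 2, 4, 8, 2, 2, 2, [77, 6, 4, 2]⟩,
  ⟨1, 2, 4, 8, 2, 2, 2, [77, 37, 6]⟩,
  ⟨1, 2, 4, 8, 2, 2, 2, [77, 2751]⟩,
  ⟨1, 2, 4, 8, 2, 2, 2, [77, 11867]⟩,
  ⟨1, 2, 4, 8, 2, 2, 2, [37, 6, 2, 6]⟩,
  ⟨1, 2, 4, 8, 2, 2, 2, [37, 6, 77]⟩,
  ⟨1, 2, 4, 8, 2, 2, 2, [13135, 2, 2]⟩,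
  ⟨1, 2, 4, 8, 2, 2, 2, [2751, 2, 6]⟩,
  ⟨1, 2, 4, 8, 2, 2, 2, [2751, 6, 2]⟩,
  ⟨1, 2, 4, 8, 2, 2, 2, [2751, 77]⟩,
  ⟨1, 2, 4, 8, 2, 2, 2, [13127, 2, 6]⟩,
  ⟨1, 2, 4, 8, 2, 2, 2, [13127, 6, 2]⟩,
  ⟨1, 2, 4, 8, 2, 2, 2, [13127, 77]⟩,
  ⟨1, 2, 4, 8, 2, 2, 2, [11863, 4, 6]⟩,
  ⟨1, 2, 4, 8, 2, 2, 2, [11863, 6, 4]⟩,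
  ⟨1, 2, 4, 8, 2, 2, 2, [11933, 6]⟩,
  ⟨1, 2, 4, 141, 2, 2, 2, [2, 2, 6, 4]⟩,
  ⟨1, 2, 4, 141, 2, 2, 2, [2, 4, 2, 6]⟩,
  ⟨1, 2, 4, 141, 2, 2, 2, [2, 4, 6, 2]⟩,
  ⟨1, 2, 4, 141, 2, 2, 2, [2, 6, 2, 4]⟩,
  ⟨1, 2, 4, 141, 2, 2, 2, [2, 77, 4]⟩,
  ⟨1, 2, 4, 141, 2, 2, 2, [4, 2, 2, 6]⟩,
  ⟨1, 2, 4, 141, 2, 2, 2, [4, 6, 2, 2]⟩,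
  ⟨1, 2, 4, 141, 2, 2, 2, [6, 2, 4, 2]⟩,
  ⟨1, 2, 4, 141, 2, 2, 2, [6, 4, 2, 2]⟩,
  ⟨1, 2, 4, 141, 2, 2, 2, [6, 37, 2]⟩,
  ⟨1, 2, 4, 141, 2, 2, 2, [77, 2, 4]⟩,
  ⟨1, 2, 4, 141, 2, 2, 2, [77, 4, 2]⟩,
  ⟨1, 2, 4, 141, 2, 2, 2, [77, 37]⟩,
  ⟨1, 2, 4, 141, 2, 2, 2, [37, 2, 6]⟩,
  ⟨1, 2, 4, 141, 2, 2, 2, [37, 6, 2]⟩,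
  ⟨1, 2, 4, 141, 2, 2, 2, [37, 77]⟩,
  ⟨1, 2, 4, 141, 2, 2, 2, [11863, 4]⟩,
  ⟨1, 2, 4, 13139, 2, 2, 2, [2, 77]⟩,
  ⟨1, 2, 4, 13139, 2, 2, 2, [6, 2, 2]⟩,
  ⟨1, 2, 4, 35541, 2, 2, 2, [77]⟩,
  ⟨1, 2, 4, 15136285, 2, 2, 2, [2]⟩,
  ⟨1, 2, 4, 15136269, 2, 2, 2, [6]⟩,
  ⟨1, 2, 4, 15180205, 2, 2, 2, [6]⟩,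
  ⟨1, 2, 6, 4, 2, 2, 2, [2, 2, 6, 4, 8]⟩,
  ⟨1, 2, 6, 4, 2, 2, 2, [2, 2, 8, 4, 6]⟩,
  ⟨1, 2, 6, 4, 2, 2, 2, [2, 4, 2, 8, 6]⟩,
  ⟨1, 2, 6, 4, 2, 2, 2, [2, 4, 6, 2, 8]⟩,
  ⟨1, 2, 6, 4, 2, 2, 2, [2, 4, 6, 133]⟩,
  ⟨1, 2, 6, 4, 2, 2, 2, [2, 4, 8, 2, 6]⟩,
  ⟨1, 2, 6, 4, 2, 2, 2, [2, 4, 8, 77]⟩,
  ⟨1, 2, 6, 4, 2, 2, 2, [2, 4, 77, 8]⟩,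
  ⟨1, 2, 6, 4, 2, 2, 2, [2, 4, 39767]⟩,
  ⟨1, 2, 6, 4, 2, 2, 2, [2, 6, 2, 4, 8]⟩,
  ⟨1, 2, 6, 4, 2, 2, 2, [2, 6, 2, 8, 4]⟩,
  ⟨1, 2, 6, 4, 2, 2, 2, [2, 6, 2, 137]⟩,
  ⟨1, 2, 6, 4, 2, 2, 2, [2, 6, 4, 2, 8]⟩,
  ⟨1, 2, 6, 4, 2, 2, 2, [2, 6, 4, 8, 2]⟩,
  ⟨1, 2, 6, 4, 2, 2, 2, [2, 6, 4, 133]⟩,
  ⟨1, 2, 6, 4, 2, 2, 2, [2, 6, 8, 2, 4]⟩,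
  ⟨1, 2, 6, 4, 2, 2, 2, [2, 6, 8, 4, 2]⟩,
  ⟨1, 2, 6, 4, 2, 2, 2, [2, 6, 8, 37]⟩,
  ⟨1, 2, 6, 4, 2, 2, 2, [2, 6, 133, 4]⟩,
  ⟨1, 2, 6, 4, 2, 2, 2, [2, 6, 37, 8]⟩,
  ⟨1, 2, 6, 4, 2, 2, 2, [2, 6, 2755]⟩,
  ⟨1, 2, 6, 4, 2, 2, 2, [2, 8, 2, 4, 6]⟩,
  ⟨1, 2, 6, 4, 2, 2, 2, [2, 8, 4, 6, 2]⟩,
  ⟨1, 2, 6, 4, 2, 2, 2, [2, 8, 6, 2, 4]⟩,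
  ⟨1, 2, 6, 4, 2, 2, 2, [2, 8, 6, 4, 2]⟩,
  ⟨1, 2, 6, 4, 2, 2, 2, [2, 137, 2, 6]⟩,
  ⟨1, 2, 6, 4, 2, 2, 2, [2, 77, 4, 8]⟩,
  ⟨1, 2, 6, 4, 2, 2, 2, [2, 37, 6, 8]⟩,
  ⟨1, 2, 6, 4, 2, 2, 2, [2, 11875, 4]⟩,
  ⟨1, 2, 6, 4, 2, 2, 2, [2, 35391, 4]⟩,
  ⟨1, 2, 6, 4, 2, 2, 2, [2, 39767, 4]⟩,
  ⟨1, 2, 6, 4, 2, 2, 2, [2, 35387, 6]⟩,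
  ⟨1, 2, 6, 4, 2, 2, 2, [2, 2751, 8]⟩,
  ⟨1, 2, 6, 4, 2, 2, 2, [2, 11867, 8]⟩,
  ⟨1, 2, 6, 4, 2, 2, 2, [4, 2, 6, 2, 8]⟩,
  ⟨1, 2, 6, 4, 2, 2, 2, [4, 2, 6, 133]⟩,
  ⟨1, 2, 6, 4, 2, 2, 2, [4, 2, 8, 2, 6]⟩,
  ⟨1, 2, 6, 4, 2, 2, 2, [4, 2, 8, 6, 2]⟩,
  ⟨1, 2, 6, 4, 2, 2, 2, [4, 2, 8, 77]⟩,
  ⟨1, 2, 6, 4, 2, 2, 2, [4, 6, 8, 2, 2]⟩,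
  ⟨1, 2, 6, 4, 2, 2, 2, [4, 8, 2, 2, 6]⟩,
  ⟨1, 2, 6, 4, 2, 2, 2, [4, 8, 2, 77]⟩,
  ⟨1, 2, 6, 4, 2, 2, 2, [4, 8, 6, 2, 2]⟩,
  ⟨1, 2, 6, 4, 2, 2, 2, [4, 141, 2, 2]⟩,
  ⟨1, 2, 6, 4, 2, 2, 2, [4, 133, 2, 6]⟩,
  ⟨1, 2, 6, 4, 2, 2, 2, [6, 2, 2, 137]⟩,
  ⟨1, 2, 6, 4, 2, 2, 2, [6, 2, 4, 8, 2]⟩,
  ⟨1, 2, 6, 4, 2, 2, 2, [6, 2, 8, 2, 4]⟩,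
  ⟨1, 2, 6, 4, 2, 2, 2, [6, 2, 8, 4, 2]⟩,
  ⟨1, 2, 6, 4, 2, 2, 2, [6, 2, 8, 37]⟩,
  ⟨1, 2, 6, 4, 2, 2, 2, [6, 4, 2, 8, 2]⟩,
  ⟨1, 2, 6, 4, 2, 2, 2, [6, 8, 2, 2, 4]⟩,
  ⟨1, 2, 6, 4, 2, 2, 2, [6, 8, 4, 2, 2]⟩,
  ⟨1, 2, 6, 4, 2, 2, 2, [6, 133, 2, 4]⟩,
  ⟨1, 2, 6, 4, 2, 2, 2, [6, 37, 133]⟩,
  ⟨1, 2, 6, 4, 2, 2, 2, [8, 2, 2, 4, 6]⟩,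
  ⟨1, 2, 6, 4, 2, 2, 2, [8, 2, 2, 6, 4]⟩,
  ⟨1, 2, 6, 4, 2, 2, 2, [8, 2, 4, 2, 6]⟩,
  ⟨1, 2, 6, 4, 2, 2, 2, [8, 2, 4, 6, 2]⟩,
  ⟨1, 2, 6, 4, 2, 2, 2, [8, 2, 6, 4, 2]⟩,
  ⟨1, 2, 6, 4, 2, 2, 2, [8, 4, 2, 77]⟩,
  ⟨1, 2, 6, 4, 2, 2, 2, [8, 4, 6, 2, 2]⟩,
  ⟨1, 2, 6, 4, 2, 2, 2, [8, 6, 2, 2, 4]⟩,
  ⟨1, 2, 6, 4, 2, 2, 2, [8, 77, 2, 4]⟩,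
  ⟨1, 2, 6, 4, 2, 2, 2, [8, 77, 4, 2]⟩,
  ⟨1, 2, 6, 4, 2, 2, 2, [8, 37, 77]⟩,
  ⟨1, 2, 6, 4, 2, 2, 2, [141, 2, 2, 4]⟩,
  ⟨1, 2, 6, 4, 2, 2, 2, [141, 2, 4, 2]⟩,
  ⟨1, 2, 6, 4, 2, 2, 2, [141, 4, 2, 2]⟩,
  ⟨1, 2, 6, 4, 2, 2, 2, [141, 37, 2]⟩,
  ⟨1, 2, 6, 4, 2, 2, 2, [137, 2, 2, 6]⟩,
  ⟨1, 2, 6, 4, 2, 2, 2, [137, 2, 77]⟩,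
  ⟨1, 2, 6, 4, 2, 2, 2, [137, 6, 2, 2]⟩,
  ⟨1, 2, 6, 4, 2, 2, 2, [133, 4, 2, 6]⟩,
  ⟨1, 2, 6, 4, 2, 2, 2, [133, 4, 6, 2]⟩,
  ⟨1, 2, 6, 4, 2, 2, 2, [133, 4, 77]⟩,
  ⟨1, 2, 6, 4, 2, 2, 2, [133, 6, 2, 4]⟩,
  ⟨1, 2, 6, 4, 2, 2, 2, [133, 6, 4, 2]⟩,
  ⟨1, 2, 6, 4, 2, 2, 2, [77, 2, 8, 4]⟩,
  ⟨1, 2, 6, 4, 2, 2, 2, [77, 2, 137]⟩,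
  ⟨1, 2, 6, 4, 2, 2, 2, [77, 8, 37]⟩,
  ⟨1, 2, 6, 4, 2, 2, 2, [37, 8, 2, 6]⟩,
  ⟨1, 2, 6, 4, 2, 2, 2, [37, 8, 6, 2]⟩,
  ⟨1, 2, 6, 4, 2, 2, 2, [13139, 2, 2]⟩,
  ⟨1, 2, 6, 4, 2, 2, 2, [39771, 2, 2]⟩,
  ⟨1, 2, 6, 4, 2, 2, 2, [39767, 4, 2]⟩,
  ⟨1, 2, 6, 4, 2, 2, 2, [2755, 77]⟩,
  ⟨1, 2, 6, 4, 2, 2, 2, [37543, 77]⟩,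
  ⟨1, 2, 6, 4, 2, 2, 2, [2751, 8, 2]⟩,
  ⟨1, 2, 6, 4, 2, 2, 2, [35383, 4, 6]⟩,
  ⟨1, 2, 6, 4, 2, 2, 2, [11863, 4, 8]⟩,
  ⟨1, 2, 6, 4, 2, 2, 2, [11863, 8, 4]⟩,
  ⟨1, 2, 6, 4, 2, 2, 2, [2743, 6, 8]⟩,
  ⟨1, 2, 6, 4, 2, 2, 2, [2743, 8, 6]⟩,
  ⟨1, 2, 6, 4, 2, 2, 2, [35533, 4]⟩,
  ⟨1, 2, 6, 4, 2, 2, 2, [35453, 6]⟩,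
  ⟨1, 2, 6, 4, 2, 2, 2, [15048111, 8]⟩,
  ⟨1, 2, 6, 4, 2, 2, 2, [281461547, 8]⟩,
  ⟨1, 2, 6, 4, 2, 2, 2, [11933, 8]⟩,
  ⟨1, 2, 6, 4, 2, 2, 2, [284792995]⟩,
  ⟨1, 2, 6, 4, 2, 2, 2, [159083257593750059]⟩,
  ⟨1, 2, 6, 8, 2, 2, 2, [2, 2, 4, 4, 6]⟩,
  ⟨1, 2, 6, 8, 2, 2, 2, [2, 2, 4, 6, 4]⟩,
  ⟨1, 2, 6, 8, 2, 2, 2, [2, 4, 2, 4, 6]⟩,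
  ⟨1, 2, 6, 8, 2, 2, 2, [2, 4, 6, 2, 4]⟩,
  ⟨1, 2, 6, 8, 2, 2, 2, [2, 4, 6, 4, 2]⟩,
  ⟨1, 2, 6, 8, 2, 2, 2, [2, 4, 37, 6]⟩,
  ⟨1, 2, 6, 8, 2, 2, 2, [2, 4, 2751]⟩,
  ⟨1, 2, 6, 8, 2, 2, 2, [2, 4, 11867]⟩,
  ⟨1, 2, 6, 8, 2, 2, 2, [2, 6, 4, 4, 2]⟩,
  ⟨1, 2, 6, 8, 2, 2, 2, [2, 81, 2, 4]⟩,
  ⟨1, 2, 6, 8, 2, 2, 2, [2, 37, 6, 4]⟩,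
  ⟨1, 2, 6, 8, 2, 2, 2, [2, 11867, 4]⟩,
  ⟨1, 2, 6, 8, 2, 2, 2, [2, 2747, 6]⟩,
  ⟨1, 2, 6, 8, 2, 2, 2, [4, 2, 4, 6, 2]⟩,
  ⟨1, 2, 6, 8, 2, 2, 2, [4, 2, 6, 2, 4]⟩,
  ⟨1, 2, 6, 8, 2, 2, 2, [4, 4, 2, 2, 6]⟩,
  ⟨1, 2, 6, 8, 2, 2, 2, [4, 6, 37, 2]⟩,
  ⟨1, 2, 6, 8, 2, 2, 2, [4, 37, 6, 2]⟩,
  ⟨1, 2, 6, 8, 2, 2, 2, [4, 281461547]⟩,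
  ⟨1, 2, 6, 8, 2, 2, 2, [4, 11933]⟩,
  ⟨1, 2, 6, 8, 2, 2, 2, [6, 2, 4, 4, 2]⟩,
  ⟨1, 2, 6, 8, 2, 2, 2, [6, 2, 2747]⟩,
  ⟨1, 2, 6, 8, 2, 2, 2, [6, 4, 4, 2, 2]⟩,
  ⟨1, 2, 6, 8, 2, 2, 2, [6, 37, 4, 2]⟩,
  ⟨1, 2, 6, 8, 2, 2, 2, [81, 2, 4, 2]⟩,
  ⟨1, 2, 6, 8, 2, 2, 2, [81, 4, 2, 2]⟩,
  ⟨1, 2, 6, 8, 2, 2, 2, [77, 4, 2, 4]⟩,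
  ⟨1, 2, 6, 8, 2, 2, 2, [77, 4, 4, 2]⟩,
  ⟨1, 2, 6, 8, 2, 2, 2, [37, 2, 4, 6]⟩,
  ⟨1, 2, 6, 8, 2, 2, 2, [37, 2, 6, 4]⟩,
  ⟨1, 2, 6, 8, 2, 2, 2, [37, 4, 6, 2]⟩,
  ⟨1, 2, 6, 8, 2, 2, 2, [37, 4, 77]⟩,
  ⟨1, 2, 6, 8, 2, 2, 2, [37, 6, 2, 4]⟩,
  ⟨1, 2, 6, 8, 2, 2, 2, [37, 6, 4, 2]⟩,
  ⟨1, 2, 6, 8, 2, 2, 2, [37, 37, 6]⟩,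
  ⟨1, 2, 6, 8, 2, 2, 2, [37, 2751]⟩,
  ⟨1, 2, 6, 8, 2, 2, 2, [37, 11867]⟩,
  ⟨1, 2, 6, 8, 2, 2, 2, [13131, 2, 2]⟩,
  ⟨1, 2, 6, 8, 2, 2, 2, [13127, 2, 4]⟩,
  ⟨1, 2, 6, 8, 2, 2, 2, [13127, 4, 2]⟩,
  ⟨1, 2, 6, 8, 2, 2, 2, [2743, 4, 6]⟩,
  ⟨1, 2, 6, 8, 2, 2, 2, [2743, 6, 4]⟩,
  ⟨1, 2, 6, 8, 2, 2, 2, [281461547, 4]⟩,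
  ⟨1, 2, 6, 8, 2, 2, 2, [15048107, 6]⟩,
  ⟨1, 2, 6, 137, 2, 2, 2, [2, 4, 2, 6]⟩,
  ⟨1, 2, 6, 137, 2, 2, 2, [2, 6, 2, 4]⟩,
  ⟨1, 2, 6, 137, 2, 2, 2, [2, 6, 4, 2]⟩,
  ⟨1, 2, 6, 137, 2, 2, 2, [2, 77, 4]⟩,
  ⟨1, 2, 6, 137, 2, 2, 2, [4, 6, 2, 2]⟩,
  ⟨1, 2, 6, 137, 2, 2, 2, [6, 2, 2, 4]⟩,
  ⟨1, 2, 6, 137, 2, 2, 2, [6, 37, 2]⟩,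
  ⟨1, 2, 6, 137, 2, 2, 2, [77, 2, 4]⟩,
  ⟨1, 2, 6, 137, 2, 2, 2, [77, 4, 2]⟩,
  ⟨1, 2, 6, 137, 2, 2, 2, [37, 6, 2]⟩,
  ⟨1, 2, 6, 137, 2, 2, 2, [11863, 4]⟩,
  ⟨1, 2, 6, 13139, 2, 2, 2, [2, 4, 2]⟩,
  ⟨1, 2, 6, 13139, 2, 2, 2, [4, 2, 2]⟩,
  ⟨1, 2, 6, 13139, 2, 2, 2, [37, 2]⟩,
  ⟨1, 2, 6, 37547, 2, 2, 2, [2, 77]⟩,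
  ⟨1, 2, 6, 35453, 2, 2, 2, [4, 6]⟩,
  ⟨1, 2, 6, 15180205, 2, 2, 2, [4]⟩,
  ⟨1, 2, 8, 4, 2, 2, 2, [2, 2, 6, 4, 6]⟩,
  ⟨1, 2, 8, 4, 2, 2, 2, [2, 4, 2, 6, 6]⟩,
  ⟨1, 2, 8, 4, 2, 2, 2, [2, 4, 6, 2, 6]⟩,
  ⟨1, 2, 8, 4, 2, 2, 2, [2, 4, 6, 6, 2]⟩,
  ⟨1, 2, 8, 4, 2, 2, 2, [2, 4, 6, 77]⟩,
  ⟨1, 2, 8, 4, 2, 2, 2, [2, 6, 6, 2, 4]⟩,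
  ⟨1, 2, 8, 4, 2, 2, 2, [2, 6, 77, 4]⟩,
  ⟨1, 2, 8, 4, 2, 2, 2, [2, 6, 37, 6]⟩,
  ⟨1, 2, 8, 4, 2, 2, 2, [2, 6, 2751]⟩,
  ⟨1, 2, 8, 4, 2, 2, 2, [2, 6, 11867]⟩,
  ⟨1, 2, 8, 4, 2, 2, 2, [2, 81, 77]⟩,
  ⟨1, 2, 8, 4, 2, 2, 2, [2, 37, 6, 6]⟩,
  ⟨1, 2, 8, 4, 2, 2, 2, [2, 11871, 4]⟩,
  ⟨1, 2, 8, 4, 2, 2, 2, [4, 6, 2, 2, 6]⟩,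
  ⟨1, 2, 8, 4, 2, 2, 2, [4, 77, 2, 6]⟩,
  ⟨1, 2, 8, 4, 2, 2, 2, [4, 77, 6, 2]⟩,
  ⟨1, 2, 8, 4, 2, 2, 2, [4, 77, 77]⟩,
  ⟨1, 2, 8, 4, 2, 2, 2, [6, 2, 4, 77]⟩,
  ⟨1, 2, 8, 4, 2, 2, 2, [6, 2, 6, 2, 4]⟩,
  ⟨1, 2, 8, 4, 2, 2, 2, [6, 2, 6, 4, 2]⟩,
  ⟨1, 2, 8, 4, 2, 2, 2, [6, 2, 77, 4]⟩,
  ⟨1, 2, 8, 4, 2, 2, 2, [6, 4, 2, 2, 6]⟩,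
  ⟨1, 2, 8, 4, 2, 2, 2, [6, 4, 2, 77]⟩,
  ⟨1, 2, 8, 4, 2, 2, 2, [6, 6, 2, 2, 4]⟩,
  ⟨1, 2, 8, 4, 2, 2, 2, [6, 6, 4, 2, 2]⟩,
  ⟨1, 2, 8, 4, 2, 2, 2, [6, 6, 37, 2]⟩,
  ⟨1, 2, 8, 4, 2, 2, 2, [6, 77, 2, 4]⟩,
  ⟨1, 2, 8, 4, 2, 2, 2, [6, 77, 4, 2]⟩,
  ⟨1, 2, 8, 4, 2, 2, 2, [6, 37, 2, 6]⟩,
  ⟨1, 2, 8, 4, 2, 2, 2, [6, 37, 6, 2]⟩,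
  ⟨1, 2, 8, 4, 2, 2, 2, [6, 37, 77]⟩,
  ⟨1, 2, 8, 4, 2, 2, 2, [6, 11863, 4]⟩,
  ⟨1, 2, 8, 4, 2, 2, 2, [6, 281461547]⟩,
  ⟨1, 2, 8, 4, 2, 2, 2, [6, 11933]⟩,
  ⟨1, 2, 8, 4, 2, 2, 2, [81, 2, 2, 6]⟩,
  ⟨1, 2, 8, 4, 2, 2, 2, [81, 6, 2, 2]⟩,
  ⟨1, 2, 8, 4, 2, 2, 2, [77, 2, 6, 4]⟩,
  ⟨1, 2, 8, 4, 2, 2, 2, [77, 4, 2, 6]⟩,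
  ⟨1, 2, 8, 4, 2, 2, 2, [77, 4, 6, 2]⟩,
  ⟨1, 2, 8, 4, 2, 2, 2, [77, 4, 77]⟩,
  ⟨1, 2, 8, 4, 2, 2, 2, [77, 6, 2, 4]⟩,
  ⟨1, 2, 8, 4, 2, 2, 2, [77, 6, 4, 2]⟩,
  ⟨1, 2, 8, 4, 2, 2, 2, [77, 37, 6]⟩,
  ⟨1, 2, 8, 4, 2, 2, 2, [77, 2751]⟩,
  ⟨1, 2, 8, 4, 2, 2, 2, [77, 11867]⟩,
  ⟨1, 2, 8, 4, 2, 2, 2, [37, 6, 2, 6]⟩,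
  ⟨1, 2, 8, 4, 2, 2, 2, [37, 6, 77]⟩,
  ⟨1, 2, 8, 4, 2, 2, 2, [37, 77, 6]⟩,
  ⟨1, 2, 8, 4, 2, 2, 2, [13135, 2, 2]⟩,
  ⟨1, 2, 8, 4, 2, 2, 2, [11871, 2, 4]⟩,
  ⟨1, 2, 8, 4, 2, 2, 2, [11871, 4, 2]⟩,
  ⟨1, 2, 8, 4, 2, 2, 2, [2751, 2, 6]⟩,
  ⟨1, 2, 8, 4, 2, 2, 2, [2751, 77]⟩,
  ⟨1, 2, 8, 4, 2, 2, 2, [11863, 4, 6]⟩,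
  ⟨1, 2, 8, 4, 2, 2, 2, [11863, 6, 4]⟩,
  ⟨1, 2, 8, 4, 2, 2, 2, [2743, 6, 6]⟩,
  ⟨1, 2, 8, 4, 2, 2, 2, [11933, 6]⟩,
  ⟨1, 2, 8, 6, 2, 2, 2, [2, 2, 4, 6, 4]⟩,
  ⟨1, 2, 8, 6, 2, 2, 2, [2, 4, 4, 2, 6]⟩,
  ⟨1, 2, 8, 6, 2, 2, 2, [2, 4, 6, 2, 4]⟩,
  ⟨1, 2, 8, 6, 2, 2, 2, [2, 6, 37, 4]⟩,
  ⟨1, 2, 8, 6, 2, 2, 2, [2, 81, 2, 4]⟩,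
  ⟨1, 2, 8, 6, 2, 2, 2, [2, 81, 4, 2]⟩,
  ⟨1, 2, 8, 6, 2, 2, 2, [2, 37, 6, 4]⟩,
  ⟨1, 2, 8, 6, 2, 2, 2, [2, 13127, 4]⟩,
  ⟨1, 2, 8, 6, 2, 2, 2, [2, 2747, 6]⟩,
  ⟨1, 2, 8, 6, 2, 2, 2, [4, 2, 2, 6, 4]⟩,
  ⟨1, 2, 8, 6, 2, 2, 2, [4, 2, 4, 2, 6]⟩,
  ⟨1, 2, 8, 6, 2, 2, 2, [4, 2, 4, 6, 2]⟩,
  ⟨1, 2, 8, 6, 2, 2, 2, [4, 2, 4, 77]⟩,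
  ⟨1, 2, 8, 6, 2, 2, 2, [4, 2, 6, 2, 4]⟩,
  ⟨1, 2, 8, 6, 2, 2, 2, [4, 2, 77, 4]⟩,
  ⟨1, 2, 8, 6, 2, 2, 2, [4, 4, 2, 2, 6]⟩,
  ⟨1, 2, 8, 6, 2, 2, 2, [4, 4, 2, 77]⟩,
  ⟨1, 2, 8, 6, 2, 2, 2, [4, 6, 2, 2, 4]⟩,
  ⟨1, 2, 8, 6, 2, 2, 2, [4, 6, 2, 4, 2]⟩,
  ⟨1, 2, 8, 6, 2, 2, 2, [4, 6, 37, 2]⟩,
  ⟨1, 2, 8, 6, 2, 2, 2, [4, 77, 2, 4]⟩,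
  ⟨1, 2, 8, 6, 2, 2, 2, [4, 77, 4, 2]⟩,
  ⟨1, 2, 8, 6, 2, 2, 2, [4, 77, 37]⟩,
  ⟨1, 2, 8, 6, 2, 2, 2, [4, 37, 6, 2]⟩,
  ⟨1, 2, 8, 6, 2, 2, 2, [4, 37, 77]⟩,
  ⟨1, 2, 8, 6, 2, 2, 2, [4, 15048111]⟩,
  ⟨1, 2, 8, 6, 2, 2, 2, [4, 281461547]⟩,
  ⟨1, 2, 8, 6, 2, 2, 2, [4, 11933]⟩,
  ⟨1, 2, 8, 6, 2, 2, 2, [6, 4, 4, 2, 2]⟩,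
  ⟨1, 2, 8, 6, 2, 2, 2, [81, 2, 2, 4]⟩,
  ⟨1, 2, 8, 6, 2, 2, 2, [37, 2, 4, 6]⟩,
  ⟨1, 2, 8, 6, 2, 2, 2, [37, 2, 6, 4]⟩,
  ⟨1, 2, 8, 6, 2, 2, 2, [37, 4, 6, 2]⟩,
  ⟨1, 2, 8, 6, 2, 2, 2, [37, 6, 2, 4]⟩,
  ⟨1, 2, 8, 6, 2, 2, 2, [37, 37, 6]⟩,
  ⟨1, 2, 8, 6, 2, 2, 2, [37, 2751]⟩,
  ⟨1, 2, 8, 6, 2, 2, 2, [37, 11867]⟩,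
  ⟨1, 2, 8, 6, 2, 2, 2, [13127, 2, 4]⟩,
  ⟨1, 2, 8, 6, 2, 2, 2, [13127, 4, 2]⟩,
  ⟨1, 2, 8, 6, 2, 2, 2, [11863, 4, 4]⟩,
  ⟨1, 2, 8, 6, 2, 2, 2, [2743, 4, 6]⟩,
  ⟨1, 2, 8, 6, 2, 2, 2, [2743, 6, 4]⟩,
  ⟨1, 2, 8, 6, 2, 2, 2, [15048111, 4]⟩,
  ⟨1, 2, 8, 6, 2, 2, 2, [281461547, 4]⟩,
  ⟨1, 2, 8, 6, 2, 2, 2, [15048107, 6]⟩,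
  ⟨1, 2, 8, 6, 2, 2, 2, [0, 2, 6]⟩,
  ⟨1, 2, 8, 81, 2, 2, 2, [2, 2, 4, 6]⟩,
  ⟨1, 2, 8, 81, 2, 2, 2, [2, 4, 77]⟩,
  ⟨1, 2, 8, 81, 2, 2, 2, [2, 6, 2, 4]⟩,
  ⟨1, 2, 8, 81, 2, 2, 2, [2, 77, 4]⟩,
  ⟨1, 2, 8, 81, 2, 2, 2, [4, 2, 77]⟩,
  ⟨1, 2, 8, 81, 2, 2, 2, [4, 6, 2, 2]⟩,
  ⟨1, 2, 8, 81, 2, 2, 2, [6, 2, 2, 4]⟩,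
  ⟨1, 2, 8, 81, 2, 2, 2, [6, 2, 4, 2]⟩,
  ⟨1, 2, 8, 81, 2, 2, 2, [6, 37, 2]⟩,
  ⟨1, 2, 8, 81, 2, 2, 2, [77, 2, 4]⟩,
  ⟨1, 2, 8, 81, 2, 2, 2, [77, 4, 2]⟩,
  ⟨1, 2, 8, 81, 2, 2, 2, [77, 37]⟩,
  ⟨1, 2, 8, 13135, 2, 2, 2, [2, 2, 4]⟩,
  ⟨1, 2, 8, 13135, 2, 2, 2, [2, 4, 2]⟩,
  ⟨1, 2, 8, 13135, 2, 2, 2, [4, 2, 2]⟩,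
  ⟨1, 2, 8, 13131, 2, 2, 2, [2, 2, 6]⟩,
  ⟨1, 2, 8, 13131, 2, 2, 2, [2, 77]⟩,
  ⟨1, 2, 8, 13131, 2, 2, 2, [6, 2, 2]⟩,
  ⟨1, 2, 8, 2751, 2, 2, 2, [2, 6, 4]⟩,
  ⟨1, 2, 8, 2751, 2, 2, 2, [4, 2, 6]⟩,
  ⟨1, 2, 8, 2751, 2, 2, 2, [4, 6, 2]⟩,
  ⟨1, 2, 8, 2751, 2, 2, 2, [4, 77]⟩,
  ⟨1, 2, 8, 2751, 2, 2, 2, [6, 2, 4]⟩,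
  ⟨1, 2, 8, 2751, 2, 2, 2, [6, 4, 2]⟩,
  ⟨1, 2, 8, 11867, 2, 2, 2, [2, 6, 4]⟩,
  ⟨1, 2, 8, 11867, 2, 2, 2, [4, 2, 6]⟩,
  ⟨1, 2, 8, 11867, 2, 2, 2, [6, 4, 2]⟩,
  ⟨1, 2, 8, 344846335, 2, 2, 2, [2, 2]⟩,
  ⟨1, 2, 8, 13277, 2, 2, 2, [2, 4]⟩,
  ⟨1, 2, 8, 13277, 2, 2, 2, [4, 2]⟩,
  ⟨1, 2, 8, 15092031, 2, 2, 2, [2, 6]⟩,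
  ⟨1, 2, 8, 13197, 2, 2, 2, [77]⟩,
  ⟨1, 2, 8, 15048111, 2, 2, 2, [6, 4]⟩,
  ⟨1, 2, 8, 11933, 2, 2, 2, [6, 4]⟩,
  ⟨1, 2, 8, 15136165, 2, 2, 2, [2]⟩,
  ⟨1, 2, 8, 15136157, 2, 2, 2, [4]⟩,
  ⟨1, 2, 141, 6, 2, 2, 2, [2, 2, 4, 4]⟩,
  ⟨1, 2, 141, 6, 2, 2, 2, [2, 4, 4, 2]⟩,
  ⟨1, 2, 141, 6, 2, 2, 2, [4, 2, 4, 2]⟩,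
  ⟨1, 2, 141, 6, 2, 2, 2, [37, 4, 2]⟩,
  ⟨1, 2, 141, 6, 2, 2, 2, [15048107]⟩,
  ⟨1, 2, 141, 81, 2, 2, 2, [2, 2, 4]⟩,
  ⟨1, 2, 141, 81, 2, 2, 2, [4, 2, 2]⟩,
  ⟨1, 2, 141, 81, 2, 2, 2, [37, 2]⟩,
  ⟨1, 2, 141, 11867, 2, 2, 2, [4, 2]⟩,
  ⟨1, 2, 141, 13197, 2, 2, 2, [2]⟩,
  ⟨1, 2, 137, 4, 2, 2, 2, [6, 6, 2, 2]⟩,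
  ⟨1, 2, 137, 4, 2, 2, 2, [77, 2, 6]⟩,
  ⟨1, 2, 137, 4, 2, 2, 2, [77, 6, 2]⟩,
  ⟨1, 2, 137, 4, 2, 2, 2, [77, 77]⟩,
  ⟨1, 2, 137, 2751, 2, 2, 2, [2, 6]⟩,
  ⟨1, 2, 137, 2751, 2, 2, 2, [77]⟩,
  ⟨1, 2, 81, 4, 2, 2, 2, [2, 2, 8, 6]⟩,
  ⟨1, 2, 81, 4, 2, 2, 2, [2, 8, 2, 6]⟩,
  ⟨1, 2, 81, 4, 2, 2, 2, [2, 8, 6, 2]⟩,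
  ⟨1, 2, 81, 4, 2, 2, 2, [2, 8, 77]⟩,
  ⟨1, 2, 81, 4, 2, 2, 2, [2, 141, 2]⟩,
  ⟨1, 2, 81, 4, 2, 2, 2, [8, 2, 2, 6]⟩,
  ⟨1, 2, 81, 4, 2, 2, 2, [8, 2, 77]⟩,
  ⟨1, 2, 81, 4, 2, 2, 2, [133, 2, 6]⟩,
  ⟨1, 2, 81, 4, 2, 2, 2, [133, 6, 2]⟩,
  ⟨1, 2, 81, 4, 2, 2, 2, [133, 77]⟩,
  ⟨1, 2, 81, 6, 2, 2, 2, [2, 8, 2, 4]⟩,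
  ⟨1, 2, 81, 6, 2, 2, 2, [2, 8, 4, 2]⟩,
  ⟨1, 2, 81, 6, 2, 2, 2, [4, 8, 2, 2]⟩,
  ⟨1, 2, 81, 6, 2, 2, 2, [8, 4, 2, 2]⟩,
  ⟨1, 2, 81, 6, 2, 2, 2, [35383, 4]⟩,
  ⟨1, 2, 81, 8, 2, 2, 2, [2, 2, 4, 6]⟩,
  ⟨1, 2, 81, 8, 2, 2, 2, [2, 4, 6, 2]⟩,
  ⟨1, 2, 81, 8, 2, 2, 2, [2, 4, 77]⟩,
  ⟨1, 2, 81, 8, 2, 2, 2, [2, 6, 2, 4]⟩,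
  ⟨1, 2, 81, 8, 2, 2, 2, [2, 6, 4, 2]⟩,
  ⟨1, 2, 81, 8, 2, 2, 2, [2, 77, 4]⟩,
  ⟨1, 2, 81, 8, 2, 2, 2, [4, 2, 2, 6]⟩,
  ⟨1, 2, 81, 8, 2, 2, 2, [6, 2, 4, 2]⟩,
  ⟨1, 2, 81, 8, 2, 2, 2, [77, 2, 4]⟩,
  ⟨1, 2, 81, 8, 2, 2, 2, [77, 4, 2]⟩,
  ⟨1, 2, 81, 8, 2, 2, 2, [37, 2, 6]⟩,
  ⟨1, 2, 81, 8, 2, 2, 2, [37, 77]⟩,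
  ⟨1, 2, 81, 141, 2, 2, 2, [2, 2, 4]⟩,
  ⟨1, 2, 81, 141, 2, 2, 2, [2, 4, 2]⟩,
  ⟨1, 2, 81, 141, 2, 2, 2, [4, 2, 2]⟩,
  ⟨1, 2, 81, 11875, 2, 2, 2, [2, 4]⟩,
  ⟨1, 2, 133, 2751, 2, 2, 2, [4, 6]⟩,
  ⟨1, 2, 77, 6, 2, 2, 2, [2, 4, 8, 4]⟩,
  ⟨1, 2, 77, 6, 2, 2, 2, [4, 2, 8, 4]⟩,
  ⟨1, 2, 77, 6, 2, 2, 2, [4, 2, 137]⟩,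
  ⟨1, 2, 77, 6, 2, 2, 2, [4, 4, 8, 2]⟩,
  ⟨1, 2, 77, 6, 2, 2, 2, [4, 8, 37]⟩,
  ⟨1, 2, 77, 6, 2, 2, 2, [8, 4, 2, 4]⟩,
  ⟨1, 2, 77, 6, 2, 2, 2, [137, 4, 2]⟩,
  ⟨1, 2, 77, 6, 2, 2, 2, [37, 8, 4]⟩,
  ⟨1, 2, 77, 6, 2, 2, 2, [37, 137]⟩,
  ⟨1, 2, 77, 6, 2, 2, 2, [35387, 4]⟩,
  ⟨1, 2, 77, 6, 2, 2, 2, [37543, 4]⟩,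
  ⟨1, 2, 77, 6, 2, 2, 2, [15180059]⟩,
  ⟨1, 2, 77, 6, 2, 2, 2, [37613]⟩,
  ⟨1, 2, 77, 8, 2, 2, 2, [2, 4, 6, 4]⟩,
  ⟨1, 2, 77, 8, 2, 2, 2, [2, 6, 4, 4]⟩,
  ⟨1, 2, 77, 8, 2, 2, 2, [4, 2, 4, 6]⟩,
  ⟨1, 2, 77, 8, 2, 2, 2, [4, 2, 6, 4]⟩,
  ⟨1, 2, 77, 8, 2, 2, 2, [4, 4, 77]⟩,
  ⟨1, 2, 77, 8, 2, 2, 2, [4, 37, 6]⟩,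
  ⟨1, 2, 77, 8, 2, 2, 2, [4, 2751]⟩,
  ⟨1, 2, 77, 8, 2, 2, 2, [4, 11867]⟩,
  ⟨1, 2, 77, 8, 2, 2, 2, [6, 2, 4, 4]⟩,
  ⟨1, 2, 77, 8, 2, 2, 2, [6, 4, 2, 4]⟩,
  ⟨1, 2, 77, 8, 2, 2, 2, [6, 37, 4]⟩,
  ⟨1, 2, 77, 8, 2, 2, 2, [81, 2, 4]⟩,
  ⟨1, 2, 77, 8, 2, 2, 2, [81, 4, 2]⟩,
  ⟨1, 2, 77, 8, 2, 2, 2, [37, 6, 4]⟩,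
  ⟨1, 2, 77, 11867, 2, 2, 2, [137]⟩,
  ⟨1, 2, 37, 4, 2, 2, 2, [2, 8, 6, 6]⟩,
  ⟨1, 2, 37, 4, 2, 2, 2, [6, 2, 6, 8]⟩,
  ⟨1, 2, 37, 4, 2, 2, 2, [6, 2, 8, 6]⟩,
  ⟨1, 2, 37, 4, 2, 2, 2, [6, 6, 2, 8]⟩,
  ⟨1, 2, 37, 4, 2, 2, 2, [6, 6, 133]⟩,
  ⟨1, 2, 37, 4, 2, 2, 2, [6, 8, 2, 6]⟩,
  ⟨1, 2, 37, 4, 2, 2, 2, [6, 133, 6]⟩,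
  ⟨1, 2, 37, 4, 2, 2, 2, [6, 39767]⟩,
  ⟨1, 2, 37, 4, 2, 2, 2, [8, 2, 6, 6]⟩,
  ⟨1, 2, 37, 4, 2, 2, 2, [8, 6, 6, 2]⟩,
  ⟨1, 2, 37, 4, 2, 2, 2, [8, 6, 77]⟩,
  ⟨1, 2, 37, 4, 2, 2, 2, [141, 6, 2]⟩,
  ⟨1, 2, 37, 4, 2, 2, 2, [133, 6, 6]⟩,
  ⟨1, 2, 37, 4, 2, 2, 2, [282031263]⟩,
  ⟨1, 2, 37, 4, 2, 2, 2, [39917]⟩,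
  ⟨1, 2, 37, 6, 2, 2, 2, [2, 6, 4, 8]⟩,
  ⟨1, 2, 37, 6, 2, 2, 2, [2, 6, 8, 4]⟩,
  ⟨1, 2, 37, 6, 2, 2, 2, [2, 8, 4, 6]⟩,
  ⟨1, 2, 37, 6, 2, 2, 2, [4, 2, 6, 8]⟩,
  ⟨1, 2, 37, 6, 2, 2, 2, [4, 2, 141]⟩,
  ⟨1, 2, 37, 6, 2, 2, 2, [4, 6, 2, 8]⟩,
  ⟨1, 2, 37, 6, 2, 2, 2, [4, 6, 8, 2]⟩,
  ⟨1, 2, 37, 6, 2, 2, 2, [4, 133, 6]⟩,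
  ⟨1, 2, 37, 6, 2, 2, 2, [4, 77, 8]⟩,
  ⟨1, 2, 37, 6, 2, 2, 2, [6, 2, 4, 8]⟩,
  ⟨1, 2, 37, 6, 2, 2, 2, [6, 4, 133]⟩,
  ⟨1, 2, 37, 6, 2, 2, 2, [6, 37, 8]⟩,
  ⟨1, 2, 37, 6, 2, 2, 2, [6, 2755]⟩,
  ⟨1, 2, 37, 6, 2, 2, 2, [8, 2, 4, 6]⟩,
  ⟨1, 2, 37, 6, 2, 2, 2, [8, 6, 4, 2]⟩,
  ⟨1, 2, 37, 6, 2, 2, 2, [8, 77, 4]⟩,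
  ⟨1, 2, 37, 6, 2, 2, 2, [8, 37, 6]⟩,
  ⟨1, 2, 37, 6, 2, 2, 2, [8, 2751]⟩,
  ⟨1, 2, 37, 6, 2, 2, 2, [8, 11867]⟩,
  ⟨1, 2, 37, 6, 2, 2, 2, [137, 6, 2]⟩,
  ⟨1, 2, 37, 6, 2, 2, 2, [133, 4, 6]⟩,
  ⟨1, 2, 37, 6, 2, 2, 2, [133, 6, 4]⟩,
  ⟨1, 2, 37, 6, 2, 2, 2, [77, 8, 4]⟩,
  ⟨1, 2, 37, 6, 2, 2, 2, [77, 137]⟩,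
  ⟨1, 2, 37, 6, 2, 2, 2, [11875, 4]⟩,
  ⟨1, 2, 37, 6, 2, 2, 2, [15180063]⟩,
  ⟨1, 2, 37, 6, 2, 2, 2, [39837]⟩,
  ⟨1, 2, 37, 6, 2, 2, 2, [282031259]⟩,
  ⟨1, 2, 37, 6, 2, 2, 2, [37693]⟩,
  ⟨1, 2, 37, 8, 2, 2, 2, [2, 4, 6, 6]⟩,
  ⟨1, 2, 37, 8, 2, 2, 2, [2, 6, 4, 6]⟩,
  ⟨1, 2, 37, 8, 2, 2, 2, [2, 81, 6]⟩,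
  ⟨1, 2, 37, 8, 2, 2, 2, [4, 77, 6]⟩,
  ⟨1, 2, 37, 8, 2, 2, 2, [6, 2, 4, 6]⟩,
  ⟨1, 2, 37, 8, 2, 2, 2, [6, 4, 6, 2]⟩,
  ⟨1, 2, 37, 8, 2, 2, 2, [6, 4, 77]⟩,
  ⟨1, 2, 37, 8, 2, 2, 2, [6, 6, 4, 2]⟩,
  ⟨1, 2, 37, 8, 2, 2, 2, [6, 37, 6]⟩,
  ⟨1, 2, 37, 8, 2, 2, 2, [6, 2751]⟩,
  ⟨1, 2, 37, 8, 2, 2, 2, [6, 11867]⟩,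
  ⟨1, 2, 37, 8, 2, 2, 2, [81, 2, 6]⟩,
  ⟨1, 2, 37, 8, 2, 2, 2, [81, 77]⟩,
  ⟨1, 2, 37, 8, 2, 2, 2, [11871, 4]⟩,
  ⟨1, 2, 37, 8, 2, 2, 2, [2751, 6]⟩,
  ⟨1, 2, 37, 2755, 2, 2, 2, [6, 6]⟩,
  ⟨1, 2, 37, 2751, 2, 2, 2, [6, 8]⟩,
  ⟨1, 2, 13139, 6, 2, 2, 2, [2, 2, 4]⟩,
  ⟨1, 2, 13139, 81, 2, 2, 2, [2, 2]⟩,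
  ⟨1, 2, 37551, 6, 2, 2, 2, [2, 2, 4]⟩,
  ⟨1, 2, 39771, 81, 2, 2, 2, [2, 2]⟩,
  ⟨1, 2, 13135, 137, 2, 2, 2, [2, 2]⟩,
  ⟨1, 2, 37547, 6, 2, 2, 2, [2, 2, 6]⟩,
  ⟨1, 2, 13131, 6, 2, 2, 2, [8, 2, 2]⟩,
  ⟨1, 2, 13131, 8, 2, 2, 2, [2, 77]⟩,
  ⟨1, 2, 35387, 6, 2, 2, 2, [2, 4, 6]⟩,
  ⟨1, 2, 35387, 6, 2, 2, 2, [77, 4]⟩,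
  ⟨1, 2, 2751, 6, 2, 2, 2, [2, 8, 4]⟩,
  ⟨1, 2, 2751, 6, 2, 2, 2, [8, 2, 4]⟩,
  ⟨1, 2, 2751, 6, 2, 2, 2, [8, 4, 2]⟩,
  ⟨1, 2, 2751, 6, 2, 2, 2, [133, 4]⟩,
  ⟨1, 2, 2751, 8, 2, 2, 2, [4, 6, 2]⟩,
  ⟨1, 2, 2751, 8, 2, 2, 2, [6, 2, 4]⟩,
  ⟨1, 2, 2751, 8, 2, 2, 2, [6, 4, 2]⟩,
  ⟨1, 2, 2751, 8, 2, 2, 2, [77, 4]⟩,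
  ⟨1, 2, 35383, 4, 2, 2, 2, [6, 4, 6]⟩,
  ⟨1, 2, 35383, 4, 2, 2, 2, [81, 6]⟩,
  ⟨1, 2, 35383, 6, 2, 2, 2, [4, 6, 4]⟩,
  ⟨1, 2, 35383, 13131, 2, 2, 2, [6]⟩,
  ⟨1, 2, 11863, 4, 2, 2, 2, [4, 141]⟩,
  ⟨1, 2, 11863, 4, 2, 2, 2, [6, 8, 4]⟩,
  ⟨1, 2, 11863, 4, 2, 2, 2, [8, 6, 4]⟩,
  ⟨1, 2, 2819554431, 6, 2, 2, 2, [2, 2]⟩,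
  ⟨1, 2, 37701, 6, 2, 2, 2, [2, 2]⟩,
  ⟨1, 2, 2504479551, 4, 2, 2, 2, [2, 6]⟩,
  ⟨1, 2, 282031259, 4, 2, 2, 2, [2, 6]⟩,
  ⟨1, 2, 282031259, 4, 2, 2, 2, [77]⟩,
  ⟨1, 2, 35541, 4, 2, 2, 2, [2, 6]⟩,
  ⟨1, 2, 15136015, 8, 2, 2, 2, [2, 4]⟩,
  ⟨1, 2, 15136015, 8, 2, 2, 2, [4, 2]⟩,
  ⟨1, 2, 15092035, 6, 2, 2, 2, [2, 6]⟩,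
  ⟨1, 2, 15092035, 6, 2, 2, 2, [77]⟩,
  ⟨1, 2, 37613, 6, 2, 2, 2, [2, 6]⟩,
  ⟨1, 2, 37613, 6, 2, 2, 2, [77]⟩,
  ⟨1, 2, 13197, 8, 2, 2, 2, [2, 6]⟩,
  ⟨1, 2, 2503913391, 6, 2, 2, 2, [4, 4]⟩,
  ⟨1, 2, 35453, 6, 2, 2, 2, [4, 6]⟩,
  ⟨1, 2, 35453, 6, 2, 2, 2, [6, 4]⟩,
  ⟨1, 2, 15048111, 6, 2, 2, 2, [8, 4]⟩,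
  ⟨1, 2, 15048111, 8, 2, 2, 2, [4, 6]⟩,
  ⟨1, 2, 15048111, 8, 2, 2, 2, [6, 4]⟩,
  ⟨1, 2, 281461547, 4, 2, 2, 2, [8, 6]⟩,
  ⟨1, 2, 11933, 8, 2, 2, 2, [4, 6]⟩,
  ⟨1, 2, 11933, 8, 2, 2, 2, [6, 4]⟩,
  ⟨1, 2, 237548324091751255, 4, 2, 2, 2, [6]⟩,
  ⟨1, 2, 15136269, 4, 2, 2, 2, [6]⟩,
  ⟨1, 2, 452891289336655, 8, 2, 2, 2, [4]⟩,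
  ⟨1, 2, 284792991, 8, 2, 2, 2, [4]⟩,
  ⟨1, 2, 458197415808107, 8, 2, 2, 2, [6]⟩,
  ⟨1, 2, 15136077, 8, 2, 2, 2, [6]⟩,
  ⟨1, 4, 2, 2, 2, 2, 2, [2, 2, 8, 6, 6]⟩,
  ⟨1, 4, 2, 2, 2, 2, 2, [2, 2, 141, 6]⟩,
  ⟨1, 4, 2, 2, 2, 2, 2, [2, 6, 2, 6, 8]⟩,
  ⟨1, 4, 2, 2, 2, 2, 2, [2, 6, 2, 8, 6]⟩,
  ⟨1, 4, 2, 2, 2, 2, 2, [2, 6, 6, 8, 2]⟩,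
  ⟨1, 4, 2, 2, 2, 2, 2, [2, 6, 6, 133]⟩,
  ⟨1, 4, 2, 2, 2, 2, 2, [2, 6, 8, 77]⟩,
  ⟨1, 4, 2, 2, 2, 2, 2, [2, 6, 141, 2]⟩,
  ⟨1, 4, 2, 2, 2, 2, 2, [2, 6, 133, 6]⟩,
  ⟨1, 4, 2, 2, 2, 2, 2, [2, 8, 6, 6, 2]⟩,
  ⟨1, 4, 2, 2, 2, 2, 2, [2, 8, 6, 77]⟩,
  ⟨1, 4, 2, 2, 2, 2, 2, [2, 141, 6, 2]⟩,
  ⟨1, 4, 2, 2, 2, 2, 2, [2, 133, 6, 6]⟩,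
  ⟨1, 4, 2, 2, 2, 2, 2, [2, 282031263]⟩,
  ⟨1, 4, 2, 2, 2, 2, 2, [2, 39917]⟩,
  ⟨1, 4, 2, 2, 2, 2, 2, [6, 2, 6, 2, 8]⟩,
  ⟨1, 4, 2, 2, 2, 2, 2, [6, 2, 6, 133]⟩,
  ⟨1, 4, 2, 2, 2, 2, 2, [6, 2, 8, 6, 2]⟩,
  ⟨1, 4, 2, 2, 2, 2, 2, [6, 2, 8, 77]⟩,
  ⟨1, 4, 2, 2, 2, 2, 2, [6, 2, 141, 2]⟩,
  ⟨1, 4, 2, 2, 2, 2, 2, [6, 8, 6, 2, 2]⟩,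
  ⟨1, 4, 2, 2, 2, 2, 2, [6, 141, 2, 2]⟩,
  ⟨1, 4, 2, 2, 2, 2, 2, [6, 133, 2, 6]⟩,
  ⟨1, 4, 2, 2, 2, 2, 2, [6, 35383, 6]⟩,
  ⟨1, 4, 2, 2, 2, 2, 2, [8, 2, 6, 2, 6]⟩,
  ⟨1, 4, 2, 2, 2, 2, 2, [8, 2, 6, 77]⟩,
  ⟨1, 4, 2, 2, 2, 2, 2, [8, 2, 77, 6]⟩,
  ⟨1, 4, 2, 2, 2, 2, 2, [8, 6, 2, 2, 6]⟩,
  ⟨1, 4, 2, 2, 2, 2, 2, [8, 6, 2, 77]⟩,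
  ⟨1, 4, 2, 2, 2, 2, 2, [8, 6, 6, 2, 2]⟩,
  ⟨1, 4, 2, 2, 2, 2, 2, [8, 77, 2, 6]⟩,
  ⟨1, 4, 2, 2, 2, 2, 2, [8, 77, 77]⟩,
  ⟨1, 4, 2, 2, 2, 2, 2, [141, 2, 2, 6]⟩,
  ⟨1, 4, 2, 2, 2, 2, 2, [141, 2, 77]⟩,
  ⟨1, 4, 2, 2, 2, 2, 2, [141, 6, 2, 2]⟩,
  ⟨1, 4, 2, 2, 2, 2, 2, [133, 6, 2, 6]⟩,
  ⟨1, 4, 2, 2, 2, 2, 2, [133, 6, 6, 2]⟩,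
  ⟨1, 4, 2, 2, 2, 2, 2, [77, 6, 8, 2]⟩,
  ⟨1, 4, 2, 2, 2, 2, 2, [77, 8, 6, 2]⟩,
  ⟨1, 4, 2, 2, 2, 2, 2, [77, 8, 77]⟩,
  ⟨1, 4, 2, 2, 2, 2, 2, [77, 77, 8]⟩,
  ⟨1, 4, 2, 2, 2, 2, 2, [77, 11875]⟩,
  ⟨1, 4, 2, 2, 2, 2, 2, [39775, 2, 2]⟩,
  ⟨1, 4, 2, 2, 2, 2, 2, [11875, 77]⟩,
  ⟨1, 4, 2, 2, 2, 2, 2, [39767, 2, 6]⟩,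
  ⟨1, 4, 2, 2, 2, 2, 2, [39767, 77]⟩,
  ⟨1, 4, 2, 2, 2, 2, 2, [35383, 6, 6]⟩,
  ⟨1, 4, 2, 2, 2, 2, 2, [11863, 8, 6]⟩,
  ⟨1, 4, 2, 2, 2, 2, 2, [11863, 141]⟩,
  ⟨1, 4, 2, 2, 2, 2, 2, [35533, 6]⟩,
  ⟨1, 4, 2, 6, 2, 2, 2, [2, 2, 2, 8, 6]⟩,
  ⟨1, 4, 2, 6, 2, 2, 2, [2, 2, 8, 6, 2]⟩,
  ⟨1, 4, 2, 6, 2, 2, 2, [2, 8, 6, 2, 2]⟩,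
  ⟨1, 4, 2, 6, 2, 2, 2, [2, 141, 2, 2]⟩,
  ⟨1, 4, 2, 6, 2, 2, 2, [2, 133, 2, 6]⟩,
  ⟨1, 4, 2, 6, 2, 2, 2, [2, 133, 6, 2]⟩,
  ⟨1, 4, 2, 6, 2, 2, 2, [2, 133, 77]⟩,
  ⟨1, 4, 2, 6, 2, 2, 2, [2, 35383, 6]⟩,
  ⟨1, 4, 2, 6, 2, 2, 2, [8, 77, 2, 2]⟩,
  ⟨1, 4, 2, 6, 2, 2, 2, [133, 2, 2, 6]⟩,
  ⟨1, 4, 2, 6, 2, 2, 2, [77, 8, 2, 2]⟩,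
  ⟨1, 4, 2, 6, 2, 2, 2, [35383, 2, 6]⟩,
  ⟨1, 4, 2, 6, 2, 2, 2, [35383, 77]⟩,
  ⟨1, 4, 2, 6, 2, 2, 2, [11863, 8, 2]⟩,
  ⟨1, 4, 2, 8, 2, 2, 2, [2, 6, 2, 77]⟩,
  ⟨1, 4, 2, 8, 2, 2, 2, [2, 6, 6, 2, 2]⟩,
  ⟨1, 4, 2, 8, 2, 2, 2, [2, 77, 2, 6]⟩,
  ⟨1, 4, 2, 8, 2, 2, 2, [2, 77, 6, 2]⟩,
  ⟨1, 4, 2, 8, 2, 2, 2, [2, 77, 77]⟩,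
  ⟨1, 4, 2, 8, 2, 2, 2, [2, 11863, 6]⟩,
  ⟨1, 4, 2, 8, 2, 2, 2, [6, 2, 6, 2, 2]⟩,
  ⟨1, 4, 2, 8, 2, 2, 2, [6, 6, 2, 2, 2]⟩,
  ⟨1, 4, 2, 8, 2, 2, 2, [6, 77, 2, 2]⟩,
  ⟨1, 4, 2, 8, 2, 2, 2, [11863, 6, 2]⟩,
  ⟨1, 4, 2, 8, 2, 2, 2, [11871, 2, 2]⟩,
  ⟨1, 4, 2, 141, 2, 2, 2, [2, 6, 2, 2]⟩,
  ⟨1, 4, 2, 133, 2, 2, 2, [11863, 6]⟩,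
  ⟨1, 4, 2, 77, 2, 2, 2, [8, 2, 2, 6]⟩,
  ⟨1, 4, 2, 77, 2, 2, 2, [8, 2, 77]⟩,
  ⟨1, 4, 2, 77, 2, 2, 2, [133, 2, 6]⟩,
  ⟨1, 4, 2, 77, 2, 2, 2, [35383, 6]⟩,
  ⟨1, 4, 2, 11875, 2, 2, 2, [2, 2, 6]⟩,
  ⟨1, 4, 2, 11875, 2, 2, 2, [2, 77]⟩,
  ⟨1, 4, 2, 11871, 2, 2, 2, [2, 8, 2]⟩,
  ⟨1, 4, 2, 35383, 2, 2, 2, [2, 6, 6]⟩,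
  ⟨1, 4, 2, 35383, 2, 2, 2, [6, 77]⟩,
  ⟨1, 4, 2, 35383, 2, 2, 2, [77, 6]⟩,
  ⟨1, 4, 2, 11863, 2, 2, 2, [6, 2, 8]⟩,
  ⟨1, 4, 2, 11863, 2, 2, 2, [6, 133]⟩,
  ⟨1, 4, 2, 11863, 2, 2, 2, [141, 2]⟩,
  ⟨1, 4, 2, 11863, 2, 2, 2, [77, 8]⟩,
  ⟨1, 4, 2, 11863, 2, 2, 2, [11875]⟩,
  ⟨1, 4, 2, 11863, 2, 2, 2, [39767]⟩,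
  ⟨1, 4, 2, 281461551, 2, 2, 2, [8, 2]⟩,
  ⟨1, 4, 6, 2, 2, 2, 2, [2, 2, 2, 8, 6]⟩,
  ⟨1, 4, 6, 2, 2, 2, 2, [2, 2, 8, 6, 2]⟩,
  ⟨1, 4, 6, 2, 2, 2, 2, [2, 8, 2, 77]⟩,
  ⟨1, 4, 6, 2, 2, 2, 2, [2, 8, 6, 2, 2]⟩,
  ⟨1, 4, 6, 2, 2, 2, 2, [2, 141, 2, 2]⟩,
  ⟨1, 4, 6, 2, 2, 2, 2, [2, 133, 6, 2]⟩,
  ⟨1, 4, 6, 2, 2, 2, 2, [2, 133, 77]⟩,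
  ⟨1, 4, 6, 2, 2, 2, 2, [8, 2, 2, 2, 6]⟩,
  ⟨1, 4, 6, 2, 2, 2, 2, [8, 2, 6, 2, 2]⟩,
  ⟨1, 4, 6, 2, 2, 2, 2, [8, 6, 2, 2, 2]⟩,
  ⟨1, 4, 6, 2, 2, 2, 2, [141, 2, 2, 2]⟩,
  ⟨1, 4, 6, 2, 2, 2, 2, [133, 2, 2, 6]⟩,
  ⟨1, 4, 6, 2, 2, 2, 2, [11875, 2, 2]⟩,
  ⟨1, 4, 6, 2, 2, 2, 2, [39767, 2, 2]⟩,
  ⟨1, 4, 6, 2, 2, 2, 2, [35383, 2, 6]⟩,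
  ⟨1, 4, 6, 8, 2, 2, 2, [77, 2, 2, 2]⟩,
  ⟨1, 4, 6, 133, 2, 2, 2, [2, 2, 2, 6]⟩,
  ⟨1, 4, 6, 133, 2, 2, 2, [2, 6, 2, 2]⟩,
  ⟨1, 4, 6, 133, 2, 2, 2, [6, 2, 2, 2]⟩,
  ⟨1, 4, 6, 133, 2, 2, 2, [77, 2, 2]⟩,
  ⟨1, 4, 8, 2, 2, 2, 2, [2, 6, 2, 2, 6]⟩,
  ⟨1, 4, 8, 2, 2, 2, 2, [2, 77, 2, 6]⟩,
  ⟨1, 4, 8, 2, 2, 2, 2, [2, 77, 6, 2]⟩,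
  ⟨1, 4, 8, 2, 2, 2, 2, [2, 77, 77]⟩,
  ⟨1, 4, 8, 2, 2, 2, 2, [6, 2, 2, 2, 6]⟩,
  ⟨1, 4, 8, 2, 2, 2, 2, [6, 2, 2, 77]⟩,
  ⟨1, 4, 8, 2, 2, 2, 2, [77, 2, 2, 6]⟩,
  ⟨1, 4, 8, 2, 2, 2, 2, [77, 6, 2, 2]⟩,
  ⟨1, 4, 8, 2, 2, 2, 2, [11871, 2, 2]⟩,
  ⟨1, 4, 8, 2, 2, 2, 2, [11871, 2, 2]⟩,
  ⟨1, 4, 8, 6, 2, 2, 2, [2, 2, 6, 2, 2]⟩,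
  ⟨1, 4, 8, 6, 2, 2, 2, [2, 6, 2, 2, 2]⟩,
  ⟨1, 4, 8, 6, 2, 2, 2, [77, 2, 2, 2]⟩,
  ⟨1, 4, 8, 77, 2, 2, 2, [2, 2, 2, 6]⟩,
  ⟨1, 4, 8, 77, 2, 2, 2, [2, 6, 2, 2]⟩,
  ⟨1, 4, 8, 11871, 2, 2, 2, [2, 2, 2]⟩,
  ⟨1, 4, 8, 11863, 2, 2, 2, [6, 2, 2]⟩,
  ⟨1, 4, 141, 2, 2, 2, 2, [6, 2, 2, 2]⟩,
  ⟨1, 4, 141, 6, 2, 2, 2, [2, 2, 2, 2]⟩,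
  ⟨1, 4, 141, 77, 2, 2, 2, [2, 2, 2]⟩,
  ⟨1, 4, 133, 2, 2, 2, 2, [2, 2, 6, 6]⟩,
  ⟨1, 4, 133, 2, 2, 2, 2, [2, 6, 2, 6]⟩,
  ⟨1, 4, 133, 2, 2, 2, 2, [2, 77, 6]⟩,
  ⟨1, 4, 133, 2, 2, 2, 2, [6, 2, 2, 6]⟩,
  ⟨1, 4, 133, 2, 2, 2, 2, [6, 6, 2, 2]⟩,
  ⟨1, 4, 133, 2, 2, 2, 2, [77, 2, 6]⟩,
  ⟨1, 4, 133, 2, 2, 2, 2, [77, 6, 2]⟩,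
  ⟨1, 4, 133, 2, 2, 2, 2, [77, 77]⟩,
  ⟨1, 4, 133, 2, 2, 2, 2, [11863, 6]⟩,
  ⟨1, 4, 133, 11863, 2, 2, 2, [2, 6]⟩,
  ⟨1, 4, 133, 11863, 2, 2, 2, [6, 2]⟩,
  ⟨1, 4, 133, 11863, 2, 2, 2, [77]⟩,
  ⟨1, 4, 77, 2, 2, 2, 2, [2, 8, 6, 2]⟩,
  ⟨1, 4, 77, 2, 2, 2, 2, [2, 141, 2]⟩,
  ⟨1, 4, 77, 6, 2, 2, 2, [8, 2, 2, 2]⟩,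
  ⟨1, 4, 77, 6, 2, 2, 2, [133, 2, 2]⟩,
  ⟨1, 4, 77, 8, 2, 2, 2, [2, 6, 2, 2]⟩,
  ⟨1, 4, 77, 8, 2, 2, 2, [11863, 2]⟩,
  ⟨1, 4, 77, 133, 2, 2, 2, [2, 2, 6]⟩,
  ⟨1, 4, 77, 133, 2, 2, 2, [6, 2, 2]⟩,
  ⟨1, 4, 39775, 2, 2, 2, 2, [2, 2, 2]⟩,
  ⟨1, 4, 11875, 2, 2, 2, 2, [2, 77]⟩,
  ⟨1, 4, 11875, 2, 2, 2, 2, [6, 2, 2]⟩,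
  ⟨1, 4, 11875, 77, 2, 2, 2, [2, 2]⟩,
  ⟨1, 4, 35391, 2, 2, 2, 2, [2, 77]⟩,
  ⟨1, 4, 35391, 2, 2, 2, 2, [6, 2, 2]⟩,
  ⟨1, 4, 35391, 6, 2, 2, 2, [2, 2, 2]⟩,
  ⟨1, 4, 39767, 2, 2, 2, 2, [2, 2, 6]⟩,
  ⟨1, 4, 39767, 2, 2, 2, 2, [2, 77]⟩,
  ⟨1, 4, 39767, 6, 2, 2, 2, [2, 2, 2]⟩,
  ⟨1, 4, 39767, 77, 2, 2, 2, [2, 2]⟩,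
  ⟨1, 4, 11871, 2, 2, 2, 2, [8, 2, 2]⟩,
  ⟨1, 4, 35383, 6, 2, 2, 2, [2, 2, 6]⟩,
  ⟨1, 4, 35383, 6, 2, 2, 2, [2, 77]⟩,
  ⟨1, 4, 35383, 77, 2, 2, 2, [77]⟩,
  ⟨1, 4, 35383, 11863, 2, 2, 2, [6]⟩,
  ⟨1, 4, 11863, 2, 2, 2, 2, [2, 6, 8]⟩,
  ⟨1, 4, 11863, 2, 2, 2, 2, [2, 8, 6]⟩,
  ⟨1, 4, 11863, 2, 2, 2, 2, [2, 141]⟩,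
  ⟨1, 4, 11863, 2, 2, 2, 2, [6, 2, 8]⟩,
  ⟨1, 4, 11863, 2, 2, 2, 2, [6, 8, 2]⟩,
  ⟨1, 4, 11863, 2, 2, 2, 2, [8, 6, 2]⟩,
  ⟨1, 4, 11863, 2, 2, 2, 2, [8, 77]⟩,
  ⟨1, 4, 11863, 2, 2, 2, 2, [77, 8]⟩,
  ⟨1, 4, 11863, 2, 2, 2, 2, [11875]⟩,
  ⟨1, 4, 11863, 6, 2, 2, 2, [8, 2, 2]⟩,
  ⟨1, 4, 11863, 8, 2, 2, 2, [2, 2, 6]⟩,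
  ⟨1, 4, 11863, 141, 2, 2, 2, [2, 2]⟩,
  ⟨1, 4, 11863, 133, 2, 2, 2, [6, 2]⟩,
  ⟨1, 4, 11863, 77, 2, 2, 2, [8, 2]⟩,
  ⟨1, 4, 11863, 11875, 2, 2, 2, [2]⟩,
  ⟨1, 4, 11863, 11863, 2, 2, 2, [8]⟩,
  ⟨1, 4, 281841299, 2, 2, 2, 2, [2, 2]⟩,
  ⟨1, 4, 39917, 2, 2, 2, 2, [2, 2]⟩,
  ⟨1, 4, 281461555, 2, 2, 2, 2, [6, 2]⟩,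
  ⟨1, 4, 281461555, 6, 2, 2, 2, [2, 2]⟩,
  ⟨1, 4, 2503913391, 2, 2, 2, 2, [2, 6]⟩,
  ⟨1, 4, 35533, 2, 2, 2, 2, [2, 6]⟩,
  ⟨1, 4, 35533, 2, 2, 2, 2, [6, 2]⟩,
  ⟨1, 4, 35533, 6, 2, 2, 2, [2, 2]⟩,
  ⟨1, 4, 281461551, 2, 2, 2, 2, [2, 8]⟩,
  ⟨1, 4, 281461551, 2, 2, 2, 2, [8, 2]⟩,
  ⟨1, 4, 2525188183, 2, 2, 2, 2, [6]⟩,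
  ⟨1, 6, 2, 2, 2, 2, 2, [2, 2, 4, 8, 4]⟩,
  ⟨1, 6, 2, 2, 2, 2, 2, [2, 4, 2, 8, 4]⟩,
  ⟨1, 6, 2, 2, 2, 2, 2, [2, 4, 2, 137]⟩,
  ⟨1, 6, 2, 2, 2, 2, 2, [2, 4, 8, 2, 4]⟩,
  ⟨1, 6, 2, 2, 2, 2, 2, [2, 4, 8, 4, 2]⟩,
  ⟨1, 6, 2, 2, 2, 2, 2, [2, 4, 8, 37]⟩,
  ⟨1, 6, 2, 2, 2, 2, 2, [2, 8, 2, 4, 4]⟩,
  ⟨1, 6, 2, 2, 2, 2, 2, [2, 8, 2747]⟩,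
  ⟨1, 6, 2, 2, 2, 2, 2, [2, 137, 4, 2]⟩,
  ⟨1, 6, 2, 2, 2, 2, 2, [2, 37, 8, 4]⟩,
  ⟨1, 6, 2, 2, 2, 2, 2, [2, 37, 137]⟩,
  ⟨1, 6, 2, 2, 2, 2, 2, [2, 35387, 4]⟩,
  ⟨1, 6, 2, 2, 2, 2, 2, [2, 37543, 4]⟩,
  ⟨1, 6, 2, 2, 2, 2, 2, [2, 15180059]⟩,
  ⟨1, 6, 2, 2, 2, 2, 2, [2, 37613]⟩,
  ⟨1, 6, 2, 2, 2, 2, 2, [4, 2, 2, 8, 4]⟩,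
  ⟨1, 6, 2, 2, 2, 2, 2, [4, 2, 2, 137]⟩,
  ⟨1, 6, 2, 2, 2, 2, 2, [4, 2, 8, 2, 4]⟩,
  ⟨1, 6, 2, 2, 2, 2, 2, [4, 2, 8, 4, 2]⟩,
  ⟨1, 6, 2, 2, 2, 2, 2, [4, 2, 8, 37]⟩,
  ⟨1, 6, 2, 2, 2, 2, 2, [4, 4, 8, 2, 2]⟩,
  ⟨1, 6, 2, 2, 2, 2, 2, [4, 8, 2, 2, 4]⟩,
  ⟨1, 6, 2, 2, 2, 2, 2, [4, 8, 2, 4, 2]⟩,
  ⟨1, 6, 2, 2, 2, 2, 2, [4, 37, 133]⟩,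
  ⟨1, 6, 2, 2, 2, 2, 2, [8, 2, 2747]⟩,
  ⟨1, 6, 2, 2, 2, 2, 2, [8, 4, 2, 2, 4]⟩,
  ⟨1, 6, 2, 2, 2, 2, 2, [8, 4, 2, 4, 2]⟩,
  ⟨1, 6, 2, 2, 2, 2, 2, [8, 4, 4, 2, 2]⟩,
  ⟨1, 6, 2, 2, 2, 2, 2, [8, 15048107]⟩,
  ⟨1, 6, 2, 2, 2, 2, 2, [133, 4, 2, 4]⟩,
  ⟨1, 6, 2, 2, 2, 2, 2, [133, 4, 4, 2]⟩,
  ⟨1, 6, 2, 2, 2, 2, 2, [133, 37, 4]⟩,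
  ⟨1, 6, 2, 2, 2, 2, 2, [133, 2747]⟩,
  ⟨1, 6, 2, 2, 2, 2, 2, [37, 2, 4, 8]⟩,
  ⟨1, 6, 2, 2, 2, 2, 2, [37, 4, 2, 8]⟩,
  ⟨1, 6, 2, 2, 2, 2, 2, [37, 4, 8, 2]⟩,
  ⟨1, 6, 2, 2, 2, 2, 2, [37, 4, 133]⟩,
  ⟨1, 6, 2, 2, 2, 2, 2, [37, 8, 4, 2]⟩,
  ⟨1, 6, 2, 2, 2, 2, 2, [37, 133, 4]⟩,
  ⟨1, 6, 2, 2, 2, 2, 2, [37, 37, 8]⟩,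
  ⟨1, 6, 2, 2, 2, 2, 2, [37, 2755]⟩,
  ⟨1, 6, 2, 2, 2, 2, 2, [37547, 2, 2]⟩,
  ⟨1, 6, 2, 2, 2, 2, 2, [2755, 2, 4]⟩,
  ⟨1, 6, 2, 2, 2, 2, 2, [2747, 2, 8]⟩,
  ⟨1, 6, 2, 2, 2, 2, 2, [2747, 8, 2]⟩,
  ⟨1, 6, 2, 2, 2, 2, 2, [35453, 4]⟩,
  ⟨1, 6, 2, 2, 2, 2, 2, [452891048566915]⟩,
  ⟨1, 6, 2, 2, 2, 2, 2, [2513830427]⟩,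
  ⟨1, 6, 2, 2, 2, 2, 2, [15180125]⟩,
  ⟨1, 6, 2, 4, 2, 2, 2, [2, 8, 2, 2, 4]⟩,
  ⟨1, 6, 2, 4, 2, 2, 2, [2, 8, 2, 4, 2]⟩,
  ⟨1, 6, 2, 4, 2, 2, 2, [2, 35383, 4]⟩,
  ⟨1, 6, 2, 4, 2, 2, 2, [4, 8, 2, 2, 2]⟩,
  ⟨1, 6, 2, 4, 2, 2, 2, [8, 2, 2, 4, 2]⟩,
  ⟨1, 6, 2, 4, 2, 2, 2, [8, 2, 37, 2]⟩,
  ⟨1, 6, 2, 4, 2, 2, 2, [137, 2, 2, 2]⟩,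
  ⟨1, 6, 2, 4, 2, 2, 2, [2755, 2, 2]⟩,
  ⟨1, 6, 2, 4, 2, 2, 2, [2743, 8, 2]⟩,
  ⟨1, 6, 2, 8, 2, 2, 2, [2, 2, 2, 4, 4]⟩,
  ⟨1, 6, 2, 8, 2, 2, 2, [2, 2, 4, 4, 2]⟩,
  ⟨1, 6, 2, 8, 2, 2, 2, [2, 4, 2, 4, 2]⟩,
  ⟨1, 6, 2, 8, 2, 2, 2, [2, 37, 4, 2]⟩,
  ⟨1, 6, 2, 8, 2, 2, 2, [2, 15048107]⟩,
  ⟨1, 6, 2, 8, 2, 2, 2, [4, 2, 2, 2, 4]⟩,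
  ⟨1, 6, 2, 8, 2, 2, 2, [4, 2, 4, 2, 2]⟩,
  ⟨1, 6, 2, 8, 2, 2, 2, [4, 2, 37, 2]⟩,
  ⟨1, 6, 2, 8, 2, 2, 2, [4, 4, 2, 2, 2]⟩,
  ⟨1, 6, 2, 8, 2, 2, 2, [37, 2, 4, 2]⟩,
  ⟨1, 6, 2, 8, 2, 2, 2, [2743, 2, 4]⟩,
  ⟨1, 6, 2, 8, 2, 2, 2, [2743, 4, 2]⟩,
  ⟨1, 6, 2, 133, 2, 2, 2, [37, 4, 2]⟩,
  ⟨1, 6, 2, 133, 2, 2, 2, [2743, 4]⟩,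
  ⟨1, 6, 2, 37, 2, 2, 2, [2, 2, 8, 4]⟩,
  ⟨1, 6, 2, 37, 2, 2, 2, [2, 8, 2, 4]⟩,
  ⟨1, 6, 2, 37, 2, 2, 2, [2, 8, 4, 2]⟩,
  ⟨1, 6, 2, 37, 2, 2, 2, [2, 133, 4]⟩,
  ⟨1, 6, 2, 37, 2, 2, 2, [4, 8, 2, 2]⟩,
  ⟨1, 6, 2, 37, 2, 2, 2, [8, 2, 2, 4]⟩,
  ⟨1, 6, 2, 37, 2, 2, 2, [8, 37, 2]⟩,
  ⟨1, 6, 2, 37, 2, 2, 2, [137, 2, 2]⟩,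
  ⟨1, 6, 2, 37, 2, 2, 2, [133, 2, 4]⟩,
  ⟨1, 6, 2, 37, 2, 2, 2, [37, 8, 2]⟩,
  ⟨1, 6, 2, 37, 2, 2, 2, [35383, 4]⟩,
  ⟨1, 6, 2, 35387, 2, 2, 2, [2, 2, 4]⟩,
  ⟨1, 6, 2, 35387, 2, 2, 2, [2, 4, 2]⟩,
  ⟨1, 6, 2, 35387, 2, 2, 2, [4, 2, 2]⟩,
  ⟨1, 6, 2, 35387, 2, 2, 2, [37, 2]⟩,
  ⟨1, 6, 2, 35383, 2, 2, 2, [4, 4, 2]⟩,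
  ⟨1, 6, 2, 35383, 2, 2, 2, [37, 4]⟩,
  ⟨1, 6, 2, 2743, 2, 2, 2, [2, 4, 8]⟩,
  ⟨1, 6, 2, 2743, 2, 2, 2, [2, 137]⟩,
  ⟨1, 6, 2, 2743, 2, 2, 2, [4, 2, 8]⟩,
  ⟨1, 6, 2, 2743, 2, 2, 2, [4, 133]⟩,
  ⟨1, 6, 2, 2743, 2, 2, 2, [8, 37]⟩,
  ⟨1, 6, 2, 2743, 2, 2, 2, [2755]⟩,
  ⟨1, 6, 4, 2, 2, 2, 2, [2, 4, 8, 2, 2]⟩,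
  ⟨1, 6, 4, 2, 2, 2, 2, [2, 8, 2, 4, 2]⟩,
  ⟨1, 6, 4, 2, 2, 2, 2, [2, 8, 4, 2, 2]⟩,
  ⟨1, 6, 4, 2, 2, 2, 2, [2, 137, 2, 2]⟩,
  ⟨1, 6, 4, 2, 2, 2, 2, [2, 133, 2, 4]⟩,
  ⟨1, 6, 4, 2, 2, 2, 2, [2, 133, 4, 2]⟩,
  ⟨1, 6, 4, 2, 2, 2, 2, [2, 35383, 4]⟩,
  ⟨1, 6, 4, 2, 2, 2, 2, [4, 2, 2, 8, 2]⟩,
  ⟨1, 6, 4, 2, 2, 2, 2, [8, 2, 37, 2]⟩,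
  ⟨1, 6, 4, 2, 2, 2, 2, [8, 4, 2, 2, 2]⟩,
  ⟨1, 6, 4, 2, 2, 2, 2, [137, 2, 2, 2]⟩,
  ⟨1, 6, 4, 2, 2, 2, 2, [133, 4, 2, 2]⟩,
  ⟨1, 6, 4, 2, 2, 2, 2, [2755, 2, 2]⟩,
  ⟨1, 6, 4, 2, 2, 2, 2, [35387, 2, 2]⟩,
  ⟨1, 6, 4, 2, 2, 2, 2, [37543, 2, 2]⟩,
  ⟨1, 6, 4, 2, 2, 2, 2, [35383, 2, 4]⟩,
  ⟨1, 6, 4, 2, 2, 2, 2, [35383, 4, 2]⟩,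
  ⟨1, 6, 4, 2, 2, 2, 2, [2755, 2, 2]⟩,
  ⟨1, 6, 4, 2, 2, 2, 2, [35387, 2, 2]⟩,
  ⟨1, 6, 4, 4, 2, 2, 2, [8, 2, 2, 2, 2]⟩,
  ⟨1, 6, 4, 8, 2, 2, 2, [4, 2, 2, 2, 2]⟩,
  ⟨1, 6, 4, 8, 2, 2, 2, [2743, 2, 2]⟩,
  ⟨1, 6, 4, 37, 2, 2, 2, [2, 2, 8, 2]⟩,
  ⟨1, 6, 4, 37, 2, 2, 2, [2, 8, 2, 2]⟩,
  ⟨1, 6, 4, 35387, 2, 2, 2, [2, 2, 2]⟩,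
  ⟨1, 6, 4, 2503913387, 2, 2, 2, [2, 2]⟩,
  ⟨1, 6, 4, 35453, 2, 2, 2, [2, 2]⟩,
  ⟨1, 6, 8, 2, 2, 2, 2, [2, 2, 2, 4, 4]⟩,
  ⟨1, 6, 8, 2, 2, 2, 2, [2, 2, 4, 4, 2]⟩,
  ⟨1, 6, 8, 2, 2, 2, 2, [2, 4, 2, 4, 2]⟩,
  ⟨1, 6, 8, 2, 2, 2, 2, [2, 37, 4, 2]⟩,
  ⟨1, 6, 8, 2, 2, 2, 2, [2, 15048107]⟩,
  ⟨1, 6, 8, 2, 2, 2, 2, [4, 2, 2, 2, 4]⟩,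
  ⟨1, 6, 8, 2, 2, 2, 2, [4, 2, 4, 2, 2]⟩,
  ⟨1, 6, 8, 2, 2, 2, 2, [4, 2, 37, 2]⟩,
  ⟨1, 6, 8, 2, 2, 2, 2, [37, 2, 4, 2]⟩,
  ⟨1, 6, 8, 2, 2, 2, 2, [2743, 2, 4]⟩,
  ⟨1, 6, 8, 2, 2, 2, 2, [2743, 4, 2]⟩,
  ⟨1, 6, 8, 4, 2, 2, 2, [2, 2, 2, 2, 4]⟩,
  ⟨1, 6, 8, 4, 2, 2, 2, [4, 2, 2, 2, 2]⟩,
  ⟨1, 6, 8, 4, 2, 2, 2, [2743, 2, 2]⟩,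
  ⟨1, 6, 8, 37, 2, 2, 2, [2, 2, 2, 4]⟩,
  ⟨1, 6, 8, 37, 2, 2, 2, [2, 4, 2, 2]⟩,
  ⟨1, 6, 8, 37, 2, 2, 2, [4, 2, 2, 2]⟩,
  ⟨1, 6, 8, 2747, 2, 2, 2, [2, 2, 2]⟩,
  ⟨1, 6, 8, 2743, 2, 2, 2, [2, 2, 4]⟩,
  ⟨1, 6, 137, 2, 2, 2, 2, [2, 4, 2, 2]⟩,
  ⟨1, 6, 137, 2, 2, 2, 2, [4, 2, 2, 2]⟩,
  ⟨1, 6, 137, 4, 2, 2, 2, [2, 2, 2, 2]⟩,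
  ⟨1, 6, 133, 2, 2, 2, 2, [2, 2, 4, 4]⟩,
  ⟨1, 6, 133, 2, 2, 2, 2, [2, 4, 2, 4]⟩,
  ⟨1, 6, 133, 2, 2, 2, 2, [2, 37, 4]⟩,
  ⟨1, 6, 133, 2, 2, 2, 2, [2, 2747]⟩,
  ⟨1, 6, 133, 2, 2, 2, 2, [4, 4, 2, 2]⟩,
  ⟨1, 6, 133, 4, 2, 2, 2, [2, 2, 2, 4]⟩,
  ⟨1, 6, 133, 4, 2, 2, 2, [2, 4, 2, 2]⟩,
  ⟨1, 6, 133, 4, 2, 2, 2, [4, 2, 2, 2]⟩,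
  ⟨1, 6, 133, 37, 2, 2, 2, [2, 2, 4]⟩,
  ⟨1, 6, 133, 37, 2, 2, 2, [2, 4, 2]⟩,
  ⟨1, 6, 133, 37, 2, 2, 2, [4, 2, 2]⟩,
  ⟨1, 6, 133, 2743, 2, 2, 2, [4, 2]⟩,
  ⟨1, 6, 37, 2, 2, 2, 2, [2, 4, 8, 2]⟩,
  ⟨1, 6, 37, 2, 2, 2, 2, [2, 8, 2, 4]⟩,
  ⟨1, 6, 37, 2, 2, 2, 2, [2, 8, 4, 2]⟩,
  ⟨1, 6, 37, 2, 2, 2, 2, [4, 2, 8, 2]⟩,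
  ⟨1, 6, 37, 2, 2, 2, 2, [8, 2, 2, 4]⟩,
  ⟨1, 6, 37, 2, 2, 2, 2, [8, 2, 4, 2]⟩,
  ⟨1, 6, 37, 2, 2, 2, 2, [137, 2, 2]⟩,
  ⟨1, 6, 37, 2, 2, 2, 2, [133, 2, 4]⟩,
  ⟨1, 6, 37, 2, 2, 2, 2, [133, 4, 2]⟩,
  ⟨1, 6, 37, 4, 2, 2, 2, [2, 2, 8, 2]⟩,
  ⟨1, 6, 37, 8, 2, 2, 2, [2, 2, 4, 2]⟩,
  ⟨1, 6, 37, 8, 2, 2, 2, [2, 4, 2, 2]⟩,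
  ⟨1, 6, 37, 8, 2, 2, 2, [2, 37, 2]⟩,
  ⟨1, 6, 37, 8, 2, 2, 2, [37, 2, 2]⟩,
  ⟨1, 6, 37, 8, 2, 2, 2, [2743, 2]⟩,
  ⟨1, 6, 37, 37, 2, 2, 2, [2, 8, 2]⟩,
  ⟨1, 6, 37, 37, 2, 2, 2, [8, 2, 2]⟩,
  ⟨1, 6, 37, 2755, 2, 2, 2, [2, 2]⟩,
  ⟨1, 6, 37, 2743, 2, 2, 2, [2, 8]⟩,
  ⟨1, 6, 37, 2743, 2, 2, 2, [8, 2]⟩,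
  ⟨1, 6, 37, 2743, 2, 2, 2, [133]⟩,
  ⟨1, 6, 37, 35453, 2, 2, 2, [2]⟩,
  ⟨1, 6, 2755, 2, 2, 2, 2, [2, 2, 4]⟩,
  ⟨1, 6, 2755, 2, 2, 2, 2, [4, 2, 2]⟩,
  ⟨1, 6, 37543, 4, 2, 2, 2, [2, 2, 2]⟩,
  ⟨1, 6, 35383, 2, 2, 2, 2, [37, 4]⟩,
  ⟨1, 6, 35383, 37, 2, 2, 2, [4, 2]⟩,
  ⟨1, 6, 35383, 2743, 2, 2, 2, [4]⟩,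
  ⟨1, 6, 2743, 2, 2, 2, 2, [2, 4, 8]⟩,
  ⟨1, 6, 2743, 2, 2, 2, 2, [4, 2, 8]⟩,
  ⟨1, 6, 2743, 2, 2, 2, 2, [4, 8, 2]⟩,
  ⟨1, 6, 2743, 2, 2, 2, 2, [4, 133]⟩,
  ⟨1, 6, 2743, 2, 2, 2, 2, [8, 4, 2]⟩,
  ⟨1, 6, 2743, 2, 2, 2, 2, [133, 4]⟩,
  ⟨1, 6, 2743, 2, 2, 2, 2, [37, 8]⟩,
  ⟨1, 6, 2743, 2, 2, 2, 2, [2755]⟩,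
  ⟨1, 6, 2743, 8, 2, 2, 2, [4, 2, 2]⟩,
  ⟨1, 6, 2743, 133, 2, 2, 2, [2, 4]⟩,
  ⟨1, 6, 2743, 133, 2, 2, 2, [4, 2]⟩,
  ⟨1, 6, 2743, 37, 2, 2, 2, [8, 2]⟩,
  ⟨1, 6, 15092035, 2, 2, 2, 2, [2, 2]⟩,
  ⟨1, 6, 37613, 2, 2, 2, 2, [2, 2]⟩,
  ⟨1, 6, 15048115, 2743, 2, 2, 2, []⟩,
  ⟨1, 6, 15180055, 2, 2, 2, 2, [2, 4]⟩,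
  ⟨1, 6, 15180055, 2743, 2, 2, 2, []⟩,
  ⟨1, 6, 35453, 2, 2, 2, 2, [2, 4]⟩,
  ⟨1, 6, 15048107, 2, 2, 2, 2, [8, 2]⟩,
  ⟨1, 6, 15048107, 8, 2, 2, 2, [2, 2]⟩,
  ⟨1, 6, 2513830423, 2, 2, 2, 2, [4]⟩,
  ⟨1, 81, 2, 2, 2, 2, 2, [2, 8, 2]⟩,
  ⟨1, 81, 8, 2, 2, 2, 2, [2, 2, 2]⟩,
  ⟨1, 77, 2, 8, 2, 2, 2, [2, 4, 4]⟩,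
  ⟨1, 77, 2, 8, 2, 2, 2, [4, 4, 2]⟩,
  ⟨1, 77, 2, 8, 2, 2, 2, [37, 4]⟩,
  ⟨1, 77, 4, 2, 2, 2, 2, [2, 4, 8]⟩,
  ⟨1, 77, 4, 2, 2, 2, 2, [2, 8, 4]⟩,
  ⟨1, 77, 4, 2, 2, 2, 2, [2, 137]⟩,
  ⟨1, 77, 4, 2, 2, 2, 2, [8, 2, 4]⟩,
  ⟨1, 77, 4, 2, 2, 2, 2, [8, 4, 2]⟩,
  ⟨1, 77, 4, 2, 2, 2, 2, [8, 37]⟩,
  ⟨1, 77, 4, 2, 2, 2, 2, [137, 2]⟩,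
  ⟨1, 77, 4, 8, 2, 2, 2, [2, 4, 2]⟩,
  ⟨1, 77, 8, 2, 2, 2, 2, [2, 4, 4]⟩,
  ⟨1, 77, 8, 2, 2, 2, 2, [4, 2, 4]⟩,
  ⟨1, 77, 8, 2, 2, 2, 2, [4, 4, 2]⟩,
  ⟨1, 77, 8, 2, 2, 2, 2, [37, 4]⟩,
  ⟨1, 77, 8, 4, 2, 2, 2, [2, 2, 4]⟩,
  ⟨1, 77, 8, 4, 2, 2, 2, [2, 4, 2]⟩,
  ⟨1, 77, 8, 4, 2, 2, 2, [2, 37]⟩,
  ⟨1, 77, 8, 4, 2, 2, 2, [4, 2, 2]⟩,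
  ⟨1, 77, 8, 4, 2, 2, 2, [2743]⟩,
  ⟨1, 77, 8, 37, 2, 2, 2, [2, 4]⟩,
  ⟨1, 77, 8, 37, 2, 2, 2, [37]⟩,
  ⟨1, 77, 137, 2, 2, 2, 2, [2, 4]⟩,
  ⟨1, 77, 137, 2, 2, 2, 2, [4, 2]⟩,
  ⟨1, 77, 137, 2, 2, 2, 2, [37]⟩,
  ⟨1, 77, 137, 37, 2, 2, 2, [2]⟩,
  ⟨1, 77, 37, 8, 2, 2, 2, [4, 2]⟩,
  ⟨1, 77, 37, 137, 2, 2, 2, [2]⟩,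
  ⟨1, 77, 37, 133, 2, 2, 2, [4]⟩,
  ⟨1, 77, 2755, 37, 2, 2, 2, []⟩,
  ⟨1, 77, 2743, 4, 2, 2, 2, [8]⟩,
  ⟨1, 37, 2, 6, 2, 2, 2, [2, 6, 8]⟩,
  ⟨1, 37, 2, 6, 2, 2, 2, [6, 8, 2]⟩,
  ⟨1, 37, 2, 8, 2, 2, 2, [6, 2, 6]⟩,
  ⟨1, 37, 2, 8, 2, 2, 2, [6, 77]⟩,
  ⟨1, 37, 2, 8, 2, 2, 2, [77, 6]⟩,
  ⟨1, 37, 6, 2, 2, 2, 2, [2, 6, 8]⟩,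
  ⟨1, 37, 6, 2, 2, 2, 2, [6, 2, 8]⟩,
  ⟨1, 37, 6, 2, 2, 2, 2, [8, 2, 6]⟩,
  ⟨1, 37, 6, 2, 2, 2, 2, [133, 6]⟩,
  ⟨1, 37, 6, 2, 2, 2, 2, [39767]⟩,
  ⟨1, 37, 6, 8, 2, 2, 2, [2, 2, 6]⟩,
  ⟨1, 37, 6, 8, 2, 2, 2, [2, 77]⟩,
  ⟨1, 37, 6, 8, 2, 2, 2, [6, 2, 2]⟩,
  ⟨1, 37, 8, 2, 2, 2, 2, [2, 6, 6]⟩,
  ⟨1, 37, 8, 2, 2, 2, 2, [6, 6, 2]⟩,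
  ⟨1, 37, 8, 2, 2, 2, 2, [77, 6]⟩,
  ⟨1, 37, 8, 6, 2, 2, 2, [2, 2, 6]⟩,
  ⟨1, 37, 8, 6, 2, 2, 2, [2, 77]⟩,
  ⟨1, 37, 8, 77, 2, 2, 2, [2, 6]⟩,
  ⟨1, 37, 8, 77, 2, 2, 2, [77]⟩,
  ⟨1, 37, 141, 77, 2, 2, 2, [2]⟩,
  ⟨1, 37, 133, 77, 2, 2, 2, [6]⟩,
  ⟨1, 37, 77, 8, 2, 2, 2, [77]⟩,
  ⟨1, 37, 77, 133, 2, 2, 2, [6]⟩,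
  ⟨1, 37, 39775, 2, 2, 2, 2, [2]⟩,
  ⟨1, 2751, 2, 8, 2, 2, 2, [2]⟩,
  ⟨2, 2, 4, 6, 35541, 2, 2, [2, 2]⟩,
  ⟨2, 2, 4, 6, 35533, 2, 2, [2, 4]⟩,
  ⟨2, 2, 4, 6, 35533, 2, 2, [4, 2]⟩,
  ⟨2, 2, 4, 8, 6, 2, 2, [2, 2, 2, 6, 4]⟩,
  ⟨2, 2, 4, 8, 6, 2, 2, [2, 2, 4, 6, 2]⟩,
  ⟨2, 2, 4, 8, 6, 2, 2, [2, 2, 4, 77]⟩,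
  ⟨2, 2, 4, 8, 6, 2, 2, [2, 2, 6, 2, 4]⟩,
  ⟨2, 2, 4, 8, 6, 2, 2, [2, 4, 2, 2, 6]⟩,
  ⟨2, 2, 4, 8, 6, 2, 2, [2, 4, 6, 2, 2]⟩,
  ⟨2, 2, 4, 8, 6, 2, 2, [2, 6, 2, 4, 2]⟩,
  ⟨2, 2, 4, 8, 6, 2, 2, [2, 6, 4, 2, 2]⟩,
  ⟨2, 2, 4, 8, 6, 2, 2, [2, 6, 37, 2]⟩,
  ⟨2, 2, 4, 8, 6, 2, 2, [2, 77, 2, 4]⟩,
  ⟨2, 2, 4, 8, 6, 2, 2, [2, 77, 4, 2]⟩,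
  ⟨2, 2, 4, 8, 6, 2, 2, [2, 77, 37]⟩,
  ⟨2, 2, 4, 8, 6, 2, 2, [2, 37, 2, 6]⟩,
  ⟨2, 2, 4, 8, 6, 2, 2, [2, 37, 6, 2]⟩,
  ⟨2, 2, 4, 8, 6, 2, 2, [2, 37, 77]⟩,
  ⟨2, 2, 4, 8, 6, 2, 2, [2, 11863, 4]⟩,
  ⟨2, 2, 4, 8, 6, 2, 2, [4, 2, 6, 2, 2]⟩,
  ⟨2, 2, 4, 8, 6, 2, 2, [4, 6, 2, 2, 2]⟩,
  ⟨2, 2, 4, 8, 6, 2, 2, [6, 2, 2, 4, 2]⟩,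
  ⟨2, 2, 4, 8, 6, 2, 2, [37, 2, 2, 6]⟩,
  ⟨2, 2, 4, 8, 6, 2, 2, [37, 2, 77]⟩,
  ⟨2, 2, 4, 8, 6, 2, 2, [2743, 2, 6]⟩,
  ⟨2, 2, 4, 8, 2751, 2, 2, [2, 2, 6]⟩,
  ⟨2, 2, 4, 8, 2751, 2, 2, [6, 2, 2]⟩,
  ⟨2, 2, 4, 8, 11863, 2, 2, [4, 77]⟩,
  ⟨2, 2, 4, 8, 11863, 2, 2, [6, 4, 2]⟩,
  ⟨2, 2, 4, 8, 11863, 2, 2, [77, 4]⟩,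
  ⟨2, 2, 4, 8, 281651391, 2, 2, [2, 2]⟩,
  ⟨2, 2, 4, 8, 15136007, 2, 2, [2, 6]⟩,
  ⟨2, 2, 4, 8, 15136007, 2, 2, [77]⟩,
  ⟨2, 2, 4, 8, 15136157, 2, 2, [2]⟩,
  ⟨2, 2, 4, 141, 2, 2, 2, [2, 6, 2, 4]⟩,
  ⟨2, 2, 4, 141, 2, 2, 2, [2, 6, 4, 2]⟩,
  ⟨2, 2, 4, 141, 2, 2, 2, [4, 6, 2, 2]⟩,
  ⟨2, 2, 4, 141, 2, 2, 2, [6, 2, 2, 4]⟩,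
  ⟨2, 2, 4, 141, 2, 2, 2, [6, 4, 2, 2]⟩,
  ⟨2, 2, 4, 141, 2, 2, 2, [6, 37, 2]⟩,
  ⟨2, 2, 4, 141, 2, 2, 2, [77, 2, 4]⟩,
  ⟨2, 2, 4, 141, 2, 2, 2, [77, 4, 2]⟩,
  ⟨2, 2, 4, 141, 2, 2, 2, [37, 6, 2]⟩,
  ⟨2, 2, 4, 141, 11933, 2, 2, [2]⟩,
  ⟨2, 2, 4, 81, 6, 2, 2, [2, 2, 8, 2]⟩,
  ⟨2, 2, 4, 81, 8, 2, 2, [2, 2, 77]⟩,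
  ⟨2, 2, 4, 133, 2, 2, 2, [2, 6, 4, 6]⟩,
  ⟨2, 2, 4, 133, 2, 2, 2, [2, 6, 6, 4]⟩,
  ⟨2, 2, 4, 133, 2, 2, 2, [2, 81, 6]⟩,
  ⟨2, 2, 4, 133, 2, 2, 2, [4, 2, 6, 6]⟩,
  ⟨2, 2, 4, 133, 2, 2, 2, [4, 6, 77]⟩,
  ⟨2, 2, 4, 133, 2, 2, 2, [4, 77, 6]⟩,
  ⟨2, 2, 4, 133, 2, 2, 2, [6, 2, 4, 6]⟩,
  ⟨2, 2, 4, 133, 2, 2, 2, [6, 4, 6, 2]⟩,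
  ⟨2, 2, 4, 133, 2, 2, 2, [6, 4, 77]⟩,
  ⟨2, 2, 4, 133, 2, 2, 2, [6, 6, 2, 4]⟩,
  ⟨2, 2, 4, 133, 2, 2, 2, [6, 77, 4]⟩,
  ⟨2, 2, 4, 133, 2, 2, 2, [81, 2, 6]⟩,
  ⟨2, 2, 4, 133, 2, 2, 2, [77, 4, 6]⟩,
  ⟨2, 2, 4, 133, 2, 2, 2, [11871, 4]⟩,
  ⟨2, 2, 4, 133, 2, 2, 2, [11867, 6]⟩,
  ⟨2, 2, 4, 77, 2, 2, 2, [2, 4, 6, 8]⟩,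
  ⟨2, 2, 4, 77, 2, 2, 2, [2, 6, 8, 4]⟩,
  ⟨2, 2, 4, 77, 2, 2, 2, [2, 8, 4, 6]⟩,
  ⟨2, 2, 4, 77, 2, 2, 2, [2, 8, 6, 4]⟩,
  ⟨2, 2, 4, 77, 2, 2, 2, [4, 2, 6, 8]⟩,
  ⟨2, 2, 4, 77, 2, 2, 2, [4, 6, 2, 8]⟩,
  ⟨2, 2, 4, 77, 2, 2, 2, [4, 141, 2]⟩,
  ⟨2, 2, 4, 77, 2, 2, 2, [4, 11875]⟩,
  ⟨2, 2, 4, 77, 2, 2, 2, [6, 2, 137]⟩,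
  ⟨2, 2, 4, 77, 2, 2, 2, [6, 4, 2, 8]⟩,
  ⟨2, 2, 4, 77, 2, 2, 2, [6, 4, 8, 2]⟩,
  ⟨2, 2, 4, 77, 2, 2, 2, [6, 8, 4, 2]⟩,
  ⟨2, 2, 4, 77, 2, 2, 2, [6, 8, 37]⟩,
  ⟨2, 2, 4, 77, 2, 2, 2, [6, 133, 4]⟩,
  ⟨2, 2, 4, 77, 2, 2, 2, [8, 37, 6]⟩,
  ⟨2, 2, 4, 77, 2, 2, 2, [8, 2751]⟩,
  ⟨2, 2, 4, 77, 2, 2, 2, [8, 11867]⟩,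
  ⟨2, 2, 4, 77, 2, 2, 2, [141, 4, 2]⟩,
  ⟨2, 2, 4, 77, 2, 2, 2, [137, 6, 2]⟩,
  ⟨2, 2, 4, 77, 2, 2, 2, [133, 4, 6]⟩,
  ⟨2, 2, 4, 77, 2, 2, 2, [133, 6, 4]⟩,
  ⟨2, 2, 4, 77, 2, 2, 2, [37, 8, 6]⟩,
  ⟨2, 2, 4, 77, 2, 2, 2, [11875, 4]⟩,
  ⟨2, 2, 4, 77, 2, 2, 2, [2755, 6]⟩,
  ⟨2, 2, 4, 77, 2, 2, 2, [15180063]⟩,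
  ⟨2, 2, 4, 77, 2, 2, 2, [39837]⟩,
  ⟨2, 2, 4, 77, 2, 2, 2, [282031259]⟩,
  ⟨2, 2, 4, 77, 2, 2, 2, [37693]⟩,
  ⟨2, 2, 4, 77, 6, 2, 2, [8, 2, 2, 4]⟩,
  ⟨2, 2, 4, 77, 6, 2, 2, [8, 2, 4, 2]⟩,
  ⟨2, 2, 4, 77, 6, 2, 2, [137, 2, 2]⟩,
  ⟨2, 2, 4, 77, 6, 2, 2, [133, 2, 4]⟩,
  ⟨2, 2, 4, 77, 6, 2, 2, [133, 4, 2]⟩,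
  ⟨2, 2, 4, 77, 6, 2, 2, [35383, 4]⟩,
  ⟨2, 2, 4, 77, 8, 2, 2, [2, 4, 2, 6]⟩,
  ⟨2, 2, 4, 77, 8, 2, 2, [2, 4, 6, 2]⟩,
  ⟨2, 2, 4, 77, 8, 2, 2, [2, 4, 77]⟩,
  ⟨2, 2, 4, 77, 8, 2, 2, [2, 6, 2, 4]⟩,
  ⟨2, 2, 4, 77, 8, 2, 2, [2, 6, 4, 2]⟩,
  ⟨2, 2, 4, 77, 8, 2, 2, [2, 77, 4]⟩,
  ⟨2, 2, 4, 77, 8, 2, 2, [4, 2, 2, 6]⟩,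
  ⟨2, 2, 4, 77, 8, 2, 2, [6, 2, 2, 4]⟩,
  ⟨2, 2, 4, 77, 8, 2, 2, [6, 2, 4, 2]⟩,
  ⟨2, 2, 4, 77, 8, 2, 2, [77, 2, 4]⟩,
  ⟨2, 2, 4, 77, 8, 2, 2, [77, 4, 2]⟩,
  ⟨2, 2, 4, 77, 8, 2, 2, [77, 37]⟩,
  ⟨2, 2, 4, 77, 8, 2, 2, [37, 2, 6]⟩,
  ⟨2, 2, 4, 77, 8, 2, 2, [37, 77]⟩,
  ⟨2, 2, 4, 77, 8, 2, 2, [11863, 4]⟩,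
  ⟨2, 2, 4, 11875, 2, 2, 2, [2, 6, 4]⟩,
  ⟨2, 2, 4, 11875, 2, 2, 2, [4, 2, 6]⟩,
  ⟨2, 2, 4, 11875, 2, 2, 2, [4, 77]⟩,
  ⟨2, 2, 4, 11875, 2, 2, 2, [6, 4, 2]⟩,
  ⟨2, 2, 4, 11871, 2, 2, 2, [4, 8, 2]⟩,
  ⟨2, 2, 4, 11871, 2, 2, 2, [8, 2, 4]⟩,
  ⟨2, 2, 4, 11871, 2, 2, 2, [8, 4, 2]⟩,
  ⟨2, 2, 4, 2755, 2, 2, 2, [2, 6, 6]⟩,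
  ⟨2, 2, 4, 2755, 2, 2, 2, [6, 77]⟩,
  ⟨2, 2, 4, 2751, 2, 2, 2, [8, 2, 6]⟩,
  ⟨2, 2, 4, 2751, 2, 2, 2, [8, 77]⟩,
  ⟨2, 2, 4, 2751, 8, 2, 2, [2, 2, 6]⟩,
  ⟨2, 2, 4, 2751, 8, 2, 2, [6, 2, 2]⟩,
  ⟨2, 2, 4, 11867, 77, 2, 2, [8, 2]⟩,
  ⟨2, 2, 4, 37693, 2, 2, 2, [2, 6]⟩,
  ⟨2, 2, 4, 13277, 8, 2, 2, [2, 2]⟩,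
  ⟨2, 2, 4, 2503913391, 2, 2, 2, [6, 4]⟩,
  ⟨2, 2, 4, 35533, 6, 2, 2, [4, 2]⟩,
  ⟨2, 2, 4, 15048111, 8, 2, 2, [77]⟩,
  ⟨2, 2, 4, 2513830431, 2, 2, 2, [6]⟩,
  ⟨2, 2, 4, 2526325367, 2, 2, 2, [6]⟩,
  ⟨2, 2, 4, 2841524653, 2, 2, 2, []⟩,
  ⟨2, 2, 6, 8, 4, 2, 2, [2, 2, 4, 2, 6]⟩,
  ⟨2, 2, 6, 8, 4, 2, 2, [2, 2, 6, 2, 4]⟩,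
  ⟨2, 2, 6, 8, 4, 2, 2, [2, 2, 6, 4, 2]⟩,
  ⟨2, 2, 6, 8, 4, 2, 2, [2, 2, 77, 4]⟩,
  ⟨2, 2, 6, 8, 4, 2, 2, [2, 4, 6, 2, 2]⟩,
  ⟨2, 2, 6, 8, 4, 2, 2, [2, 6, 2, 2, 4]⟩,
  ⟨2, 2, 6, 8, 4, 2, 2, [2, 6, 37, 2]⟩,
  ⟨2, 2, 6, 8, 4, 2, 2, [2, 77, 2, 4]⟩,
  ⟨2, 2, 6, 8, 4, 2, 2, [2, 77, 4, 2]⟩,
  ⟨2, 2, 6, 8, 4, 2, 2, [2, 37, 6, 2]⟩,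
  ⟨2, 2, 6, 8, 4, 2, 2, [2, 11863, 4]⟩,
  ⟨2, 2, 6, 8, 4, 2, 2, [4, 2, 2, 2, 6]⟩,
  ⟨2, 2, 6, 8, 4, 2, 2, [4, 2, 6, 2, 2]⟩,
  ⟨2, 2, 6, 8, 4, 2, 2, [4, 6, 2, 2, 2]⟩,
  ⟨2, 2, 6, 8, 4, 2, 2, [6, 2, 4, 2, 2]⟩,
  ⟨2, 2, 6, 8, 4, 2, 2, [6, 4, 2, 2, 2]⟩,
  ⟨2, 2, 6, 8, 4, 2, 2, [81, 2, 2, 2]⟩,
  ⟨2, 2, 6, 8, 4, 2, 2, [2751, 2, 2]⟩,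
  ⟨2, 2, 6, 8, 4, 2, 2, [11863, 4, 2]⟩,
  ⟨2, 2, 6, 8, 4, 2, 2, [2743, 2, 6]⟩,
  ⟨2, 2, 6, 8, 4, 2, 2, [2743, 77]⟩,
  ⟨2, 2, 6, 8, 81, 2, 2, [2, 2, 4, 2]⟩,
  ⟨2, 2, 6, 8, 81, 2, 2, [2, 4, 2, 2]⟩,
  ⟨2, 2, 6, 8, 81, 2, 2, [4, 2, 2, 2]⟩,
  ⟨2, 2, 6, 8, 2751, 2, 2, [2, 2, 4]⟩,
  ⟨2, 2, 6, 8, 2751, 2, 2, [4, 2, 2]⟩,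
  ⟨2, 2, 6, 8, 2743, 2, 2, [2, 4, 6]⟩,
  ⟨2, 2, 6, 8, 2743, 2, 2, [2, 6, 4]⟩,
  ⟨2, 2, 6, 8, 2743, 2, 2, [6, 4, 2]⟩,
  ⟨2, 2, 6, 8, 2743, 2, 2, [77, 4]⟩,
  ⟨2, 2, 6, 8, 15092031, 2, 2, [2, 2]⟩,
  ⟨2, 2, 6, 8, 13197, 2, 2, [2, 2]⟩,
  ⟨2, 2, 6, 8, 281461547, 2, 2, [4, 2]⟩,
  ⟨2, 2, 6, 141, 4, 2, 2, [2, 2, 4, 2]⟩,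
  ⟨2, 2, 6, 141, 4, 2, 2, [2, 4, 2, 2]⟩,
  ⟨2, 2, 6, 141, 4, 2, 2, [2, 37, 2]⟩,
  ⟨2, 2, 6, 137, 2, 2, 2, [2, 4, 6, 2]⟩,
  ⟨2, 2, 6, 137, 2, 2, 2, [2, 4, 77]⟩,
  ⟨2, 2, 6, 137, 2, 2, 2, [2, 6, 2, 4]⟩,
  ⟨2, 2, 6, 137, 2, 2, 2, [2, 77, 4]⟩,
  ⟨2, 2, 6, 137, 2, 2, 2, [6, 2, 2, 4]⟩,
  ⟨2, 2, 6, 137, 2, 2, 2, [6, 2, 4, 2]⟩,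
  ⟨2, 2, 6, 137, 2, 2, 2, [77, 2, 4]⟩,
  ⟨2, 2, 6, 137, 2, 2, 2, [77, 4, 2]⟩,
  ⟨2, 2, 6, 137, 2, 2, 2, [37, 6, 2]⟩,
  ⟨2, 2, 6, 137, 4, 2, 2, [2, 2, 77]⟩,
  ⟨2, 2, 6, 137, 4, 2, 2, [77, 2, 2]⟩,
  ⟨2, 2, 6, 137, 37, 2, 2, [6, 2, 2]⟩,
  ⟨2, 2, 6, 81, 8, 2, 2, [2, 2, 2, 4]⟩,
  ⟨2, 2, 6, 81, 8, 2, 2, [2, 2, 4, 2]⟩,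
  ⟨2, 2, 6, 81, 8, 2, 2, [2, 4, 2, 2]⟩,
  ⟨2, 2, 6, 81, 8, 2, 2, [4, 2, 2, 2]⟩,
  ⟨2, 2, 6, 133, 2, 2, 2, [2, 4, 4, 6]⟩,
  ⟨2, 2, 6, 133, 2, 2, 2, [2, 4, 6, 4]⟩,
  ⟨2, 2, 6, 133, 2, 2, 2, [4, 2, 4, 6]⟩,
  ⟨2, 2, 6, 133, 2, 2, 2, [4, 2, 6, 4]⟩,
  ⟨2, 2, 6, 133, 2, 2, 2, [4, 4, 2, 6]⟩,
  ⟨2, 2, 6, 133, 2, 2, 2, [4, 6, 2, 4]⟩,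
  ⟨2, 2, 6, 133, 2, 2, 2, [4, 77, 4]⟩,
  ⟨2, 2, 6, 133, 2, 2, 2, [4, 37, 6]⟩,
  ⟨2, 2, 6, 133, 2, 2, 2, [4, 2751]⟩,
  ⟨2, 2, 6, 133, 2, 2, 2, [4, 11867]⟩,
  ⟨2, 2, 6, 133, 2, 2, 2, [6, 4, 2, 4]⟩,
  ⟨2, 2, 6, 133, 2, 2, 2, [6, 2747]⟩,
  ⟨2, 2, 6, 133, 2, 2, 2, [81, 4, 2]⟩,
  ⟨2, 2, 6, 133, 2, 2, 2, [77, 4, 4]⟩,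
  ⟨2, 2, 6, 133, 2, 2, 2, [37, 6, 4]⟩,
  ⟨2, 2, 6, 133, 2, 2, 2, [2747, 6]⟩,
  ⟨2, 2, 6, 133, 4, 2, 2, [2, 2, 4, 6]⟩,
  ⟨2, 2, 6, 133, 4, 2, 2, [2, 4, 2, 6]⟩,
  ⟨2, 2, 6, 133, 4, 2, 2, [2, 4, 6, 2]⟩,
  ⟨2, 2, 6, 133, 4, 2, 2, [2, 4, 77]⟩,
  ⟨2, 2, 6, 133, 4, 2, 2, [2, 77, 4]⟩,
  ⟨2, 2, 6, 133, 4, 2, 2, [4, 2, 2, 6]⟩,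
  ⟨2, 2, 6, 133, 4, 2, 2, [4, 2, 77]⟩,
  ⟨2, 2, 6, 133, 37, 2, 2, [2, 4, 6]⟩,
  ⟨2, 2, 6, 133, 37, 2, 2, [6, 2, 4]⟩,
  ⟨2, 2, 6, 133, 11933, 2, 2, [4]⟩,
  ⟨2, 2, 6, 77, 37, 2, 2, [2, 8, 4]⟩,
  ⟨2, 2, 6, 77, 37, 2, 2, [2, 137]⟩,
  ⟨2, 2, 6, 77, 37, 2, 2, [8, 2, 4]⟩,
  ⟨2, 2, 6, 77, 37, 2, 2, [8, 4, 2]⟩,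
  ⟨2, 2, 6, 77, 37, 2, 2, [8, 37]⟩,
  ⟨2, 2, 6, 37, 4, 2, 2, [2, 8, 2, 6]⟩,
  ⟨2, 2, 6, 37, 4, 2, 2, [2, 8, 6, 2]⟩,
  ⟨2, 2, 6, 37, 4, 2, 2, [6, 8, 2, 2]⟩,
  ⟨2, 2, 6, 37, 4, 2, 2, [8, 2, 2, 6]⟩,
  ⟨2, 2, 6, 37, 4, 2, 2, [8, 2, 77]⟩,
  ⟨2, 2, 6, 37, 4, 2, 2, [141, 2, 2]⟩,
  ⟨2, 2, 6, 37, 4, 2, 2, [133, 2, 6]⟩,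
  ⟨2, 2, 6, 37, 4, 2, 2, [133, 6, 2]⟩,
  ⟨2, 2, 6, 37, 4, 2, 2, [133, 77]⟩,
  ⟨2, 2, 6, 11875, 2, 2, 2, [2, 4, 4]⟩,
  ⟨2, 2, 6, 11875, 2, 2, 2, [4, 2, 4]⟩,
  ⟨2, 2, 6, 11875, 2, 2, 2, [4, 4, 2]⟩,
  ⟨2, 2, 6, 11875, 2, 2, 2, [37, 4]⟩,
  ⟨2, 2, 6, 2755, 2, 2, 2, [2, 4, 6]⟩,
  ⟨2, 2, 6, 2755, 2, 2, 2, [4, 77]⟩,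
  ⟨2, 2, 6, 2755, 2, 2, 2, [6, 2, 4]⟩,
  ⟨2, 2, 6, 2755, 2, 2, 2, [77, 4]⟩,
  ⟨2, 2, 6, 2755, 4, 2, 2, [2, 2, 6]⟩,
  ⟨2, 2, 6, 2755, 4, 2, 2, [2, 77]⟩,
  ⟨2, 2, 6, 2755, 4, 2, 2, [6, 2, 2]⟩,
  ⟨2, 2, 6, 35387, 6, 2, 2, [2, 2, 4]⟩,
  ⟨2, 2, 6, 35387, 6, 2, 2, [4, 2, 2]⟩,
  ⟨2, 2, 6, 2751, 8, 2, 2, [4, 2, 2]⟩,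
  ⟨2, 2, 6, 2751, 37, 2, 2, [8, 2]⟩,
  ⟨2, 2, 6, 11867, 35383, 2, 2, [4]⟩,
  ⟨2, 2, 6, 2747, 2, 2, 2, [6, 2, 8]⟩,
  ⟨2, 2, 6, 2747, 2, 2, 2, [6, 8, 2]⟩,
  ⟨2, 2, 6, 2747, 2, 2, 2, [8, 2, 6]⟩,
  ⟨2, 2, 6, 2747, 2, 2, 2, [8, 77]⟩,
  ⟨2, 2, 6, 2747, 2, 2, 2, [141, 2]⟩,
  ⟨2, 2, 6, 2747, 2, 2, 2, [39767]⟩,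
  ⟨2, 2, 6, 35383, 4, 2, 2, [2, 4, 6]⟩,
  ⟨2, 2, 6, 35383, 4, 2, 2, [4, 77]⟩,
  ⟨2, 2, 6, 35383, 4, 2, 2, [6, 4, 2]⟩,
  ⟨2, 2, 6, 35383, 4, 2, 2, [77, 4]⟩,
  ⟨2, 2, 6, 2743, 4, 2, 2, [2, 8, 6]⟩,
  ⟨2, 2, 6, 2743, 4, 2, 2, [8, 2, 6]⟩,
  ⟨2, 2, 6, 2743, 4, 2, 2, [8, 77]⟩,
  ⟨2, 2, 6, 2743, 4, 2, 2, [141, 2]⟩,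
  ⟨2, 2, 6, 281651395, 2, 2, 2, [2, 4]⟩,
  ⟨2, 2, 6, 281651395, 2, 2, 2, [4, 2]⟩,
  ⟨2, 2, 6, 282031259, 2, 2, 2, [2, 4]⟩,
  ⟨2, 2, 6, 281461555, 4, 2, 2, [2, 4]⟩,
  ⟨2, 2, 6, 281461555, 4, 2, 2, [4, 2]⟩,
  ⟨2, 2, 6, 15180055, 4, 2, 2, [2, 6]⟩,
  ⟨2, 2, 6, 35453, 4, 2, 2, [2, 6]⟩,
  ⟨2, 2, 6, 2525188183, 4, 2, 2, [4]⟩,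
  ⟨2, 2, 8, 81, 37, 2, 2, [2, 2, 6]⟩,
  ⟨2, 2, 8, 81, 37, 2, 2, [2, 77]⟩,
  ⟨2, 2, 8, 77, 6, 2, 2, [2, 4, 4, 2]⟩,
  ⟨2, 2, 8, 77, 6, 2, 2, [4, 2, 2, 4]⟩,
  ⟨2, 2, 8, 77, 6, 2, 2, [4, 2, 4, 2]⟩,
  ⟨2, 2, 8, 77, 6, 2, 2, [4, 4, 2, 2]⟩,
  ⟨2, 2, 8, 77, 6, 2, 2, [37, 4, 2]⟩,
  ⟨2, 2, 8, 77, 6, 2, 2, [15048107]⟩,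
  ⟨2, 2, 8, 77, 37, 2, 2, [2, 6, 4]⟩,
  ⟨2, 2, 8, 77, 37, 2, 2, [4, 2, 6]⟩,
  ⟨2, 2, 8, 77, 37, 2, 2, [6, 2, 4]⟩,
  ⟨2, 2, 8, 77, 11867, 2, 2, [37]⟩,
  ⟨2, 2, 8, 37, 4, 2, 2, [6, 6, 2, 2]⟩,
  ⟨2, 2, 8, 37, 6, 2, 2, [2, 2, 6, 4]⟩,
  ⟨2, 2, 8, 37, 6, 2, 2, [2, 4, 77]⟩,
  ⟨2, 2, 8, 37, 6, 2, 2, [2, 6, 2, 4]⟩,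
  ⟨2, 2, 8, 37, 6, 2, 2, [2, 6, 4, 2]⟩,
  ⟨2, 2, 8, 37, 6, 2, 2, [4, 2, 2, 6]⟩,
  ⟨2, 2, 8, 37, 6, 2, 2, [4, 2, 77]⟩,
  ⟨2, 2, 8, 37, 6, 2, 2, [6, 2, 2, 4]⟩,
  ⟨2, 2, 8, 37, 6, 2, 2, [6, 37, 2]⟩,
  ⟨2, 2, 8, 37, 6, 2, 2, [77, 2, 4]⟩,
  ⟨2, 2, 8, 37, 6, 2, 2, [77, 4, 2]⟩,
  ⟨2, 2, 8, 37, 6, 2, 2, [37, 2, 6]⟩,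
  ⟨2, 2, 8, 37, 6, 2, 2, [11863, 4]⟩,
  ⟨2, 2, 8, 37, 77, 2, 2, [2, 6, 4]⟩,
  ⟨2, 2, 8, 37, 77, 2, 2, [4, 2, 6]⟩,
  ⟨2, 2, 8, 37, 77, 2, 2, [4, 77]⟩,
  ⟨2, 2, 8, 37, 77, 2, 2, [6, 4, 2]⟩,
  ⟨2, 2, 8, 37, 15136015, 2, 2, [2]⟩,
  ⟨2, 2, 8, 13131, 6, 2, 2, [2, 2, 2]⟩,
  ⟨2, 2, 8, 13131, 77, 2, 2, [2, 2]⟩,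
  ⟨2, 2, 8, 11871, 2, 2, 2, [2, 4, 4]⟩,
  ⟨2, 2, 8, 11871, 2, 2, 2, [4, 2, 4]⟩,
  ⟨2, 2, 8, 11871, 2, 2, 2, [2747]⟩,
  ⟨2, 2, 8, 11871, 4, 2, 2, [4, 2, 2]⟩,
  ⟨2, 2, 8, 2751, 81, 2, 2, [2, 2]⟩,
  ⟨2, 2, 8, 2751, 37, 2, 2, [2, 6]⟩,
  ⟨2, 2, 8, 2751, 37, 2, 2, [77]⟩,
  ⟨2, 2, 8, 11867, 2, 2, 2, [4, 6, 2]⟩,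
  ⟨2, 2, 8, 13127, 4, 2, 2, [2, 77]⟩,
  ⟨2, 2, 8, 2747, 2, 2, 2, [2, 6, 6]⟩,
  ⟨2, 2, 8, 11863, 6, 2, 2, [2, 4, 4]⟩,
  ⟨2, 2, 8, 11863, 6, 2, 2, [4, 4, 2]⟩,
  ⟨2, 2, 8, 11863, 6, 2, 2, [37, 4]⟩,
  ⟨2, 2, 8, 11863, 6, 2, 2, [2747]⟩,
  ⟨2, 2, 8, 2743, 4, 2, 2, [6, 6, 2]⟩,
  ⟨2, 2, 8, 2743, 4, 2, 2, [6, 77]⟩,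
  ⟨2, 2, 8, 15136015, 4, 2, 2, [2, 2]⟩,
  ⟨2, 2, 8, 281651391, 4, 2, 2, [2, 2]⟩,
  ⟨2, 2, 8, 15048111, 6, 2, 2, [2, 4]⟩,
  ⟨2, 2, 8, 15048111, 6, 2, 2, [4, 2]⟩,
  ⟨2, 2, 8, 11933, 4, 2, 2, [77]⟩,
  ⟨2, 2, 8, 11933, 6, 2, 2, [2, 4]⟩,
  ⟨2, 2, 8, 11933, 6, 2, 2, [4, 2]⟩,
  ⟨2, 2, 8, 452891289336655, 37, 2, 2, []⟩,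
  ⟨2, 2, 8, 158441204879266431, 2, 2, 2, [4]⟩,
  ⟨2, 2, 8, 284793053, 6, 2, 2, []⟩,
  ⟨2, 2, 141, 77, 37, 2, 2, [2, 4]⟩,
  ⟨2, 2, 141, 37, 6, 2, 2, [2, 2, 4]⟩,
  ⟨2, 2, 141, 37, 6, 2, 2, [2, 4, 2]⟩,
  ⟨2, 2, 141, 37, 6, 2, 2, [4, 2, 2]⟩,
  ⟨2, 2, 141, 37, 6, 2, 2, [37, 2]⟩,
  ⟨2, 2, 141, 37, 77, 2, 2, [2, 4]⟩,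
  ⟨2, 2, 141, 13131, 2, 2, 2, [2, 2]⟩,
  ⟨2, 2, 141, 2751, 37, 2, 2, [2]⟩,
  ⟨2, 2, 137, 77, 37, 2, 2, [2, 6]⟩,
  ⟨2, 2, 137, 2751, 6, 2, 2, [2, 2]⟩,
  ⟨2, 2, 137, 13127, 2, 2, 2, [2, 6]⟩,
  ⟨2, 2, 137, 13127, 2, 2, 2, [77]⟩,
  ⟨2, 2, 81, 133, 6, 2, 2, [4, 2, 2]⟩,
  ⟨2, 2, 81, 77, 8, 2, 2, [2, 2, 4]⟩,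
  ⟨2, 2, 133, 37, 77, 2, 2, [4, 6]⟩,
  ⟨2, 2, 133, 2751, 77, 2, 2, [4]⟩,
  ⟨2, 2, 77, 2755, 37, 2, 2, [6]⟩,
  ⟨2, 2, 37, 39775, 37, 2, 2, [2]⟩,
  ⟨2, 4, 6, 8, 2, 2, 2, [2, 4, 2, 2, 6]⟩,
  ⟨2, 4, 6, 8, 2, 2, 2, [2, 4, 2, 77]⟩,
  ⟨2, 4, 6, 8, 2, 2, 2, [2, 4, 6, 2, 2]⟩,
  ⟨2, 4, 6, 8, 2, 2, 2, [4, 2, 2, 2, 6]⟩,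
  ⟨2, 4, 6, 8, 2, 2, 2, [4, 2, 6, 2, 2]⟩,
  ⟨2, 4, 6, 8, 2, 2, 2, [4, 6, 2, 2, 2]⟩,
  ⟨2, 4, 6, 8, 2, 2, 2, [6, 2, 2, 2, 4]⟩,
  ⟨2, 4, 6, 8, 2, 2, 2, [6, 2, 2, 4, 2]⟩,
  ⟨2, 4, 6, 8, 2, 2, 2, [6, 2, 4, 2, 2]⟩,
  ⟨2, 4, 6, 8, 2, 2, 2, [6, 2, 37, 2]⟩,
  ⟨2, 4, 6, 8, 2, 2, 2, [81, 2, 2, 2]⟩,
  ⟨2, 4, 6, 8, 2, 2, 2, [77, 4, 2, 2]⟩,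
  ⟨2, 4, 6, 8, 2, 2, 2, [11867, 2, 2]⟩,
  ⟨2, 4, 6, 8, 2, 2, 2, [13127, 2, 2]⟩,
  ⟨2, 4, 6, 8, 2, 2, 2, [2743, 6, 2]⟩,
  ⟨2, 4, 6, 8, 2, 2, 2, [2743, 77]⟩,
  ⟨2, 4, 6, 8, 77, 2, 2, [2, 2, 4, 2]⟩,
  ⟨2, 4, 6, 8, 77, 2, 2, [2, 4, 2, 2]⟩,
  ⟨2, 4, 6, 8, 77, 2, 2, [4, 2, 2, 2]⟩,
  ⟨2, 4, 6, 8, 2751, 2, 2, [2, 2, 2]⟩,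
  ⟨2, 4, 6, 8, 11863, 2, 2, [2, 2, 4]⟩,
  ⟨2, 4, 6, 8, 15048111, 2, 2, [2, 2]⟩,
  ⟨2, 4, 6, 8, 15136007, 2, 2, [2, 2]⟩,
  ⟨2, 4, 6, 141, 2, 2, 2, [2, 2, 4, 2]⟩,
  ⟨2, 4, 6, 141, 2, 2, 2, [4, 2, 2, 2]⟩,
  ⟨2, 4, 6, 137, 2, 2, 2, [2, 6, 2, 2]⟩,
  ⟨2, 4, 6, 137, 2, 2, 2, [77, 2, 2]⟩,
  ⟨2, 4, 6, 81, 2, 2, 2, [2, 2, 8, 2]⟩,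
  ⟨2, 4, 6, 81, 2, 2, 2, [8, 2, 2, 2]⟩,
  ⟨2, 4, 6, 133, 2, 2, 2, [2, 4, 6, 2]⟩,
  ⟨2, 4, 6, 133, 2, 2, 2, [4, 2, 2, 6]⟩,
  ⟨2, 4, 6, 133, 2, 2, 2, [6, 2, 2, 4]⟩,
  ⟨2, 4, 6, 133, 2, 2, 2, [6, 2, 4, 2]⟩,
  ⟨2, 4, 6, 133, 2, 2, 2, [77, 2, 4]⟩,
  ⟨2, 4, 6, 133, 2, 2, 2, [77, 4, 2]⟩,
  ⟨2, 4, 6, 133, 2, 2, 2, [37, 6, 2]⟩,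
  ⟨2, 4, 6, 133, 2, 2, 2, [281461547]⟩,
  ⟨2, 4, 6, 133, 2, 2, 2, [11933]⟩,
  ⟨2, 4, 6, 133, 4, 2, 2, [2, 2, 2, 6]⟩,
  ⟨2, 4, 6, 133, 4, 2, 2, [6, 2, 2, 2]⟩,
  ⟨2, 4, 6, 133, 4, 2, 2, [77, 2, 2]⟩,
  ⟨2, 4, 6, 77, 2, 2, 2, [2, 2, 8, 4]⟩,
  ⟨2, 4, 6, 77, 2, 2, 2, [2, 2, 137]⟩,
  ⟨2, 4, 6, 77, 2, 2, 2, [2, 4, 8, 2]⟩,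
  ⟨2, 4, 6, 77, 2, 2, 2, [2, 8, 2, 4]⟩,
  ⟨2, 4, 6, 77, 2, 2, 2, [2, 8, 4, 2]⟩,
  ⟨2, 4, 6, 77, 2, 2, 2, [2, 8, 37]⟩,
  ⟨2, 4, 6, 77, 2, 2, 2, [4, 2, 8, 2]⟩,
  ⟨2, 4, 6, 77, 2, 2, 2, [8, 2, 2, 4]⟩,
  ⟨2, 4, 6, 77, 2, 2, 2, [8, 2, 4, 2]⟩,
  ⟨2, 4, 6, 77, 2, 2, 2, [137, 2, 2]⟩,
  ⟨2, 4, 6, 77, 2, 2, 2, [133, 2, 4]⟩,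
  ⟨2, 4, 6, 77, 2, 2, 2, [133, 4, 2]⟩,
  ⟨2, 4, 6, 77, 2, 2, 2, [37, 133]⟩,
  ⟨2, 4, 6, 77, 2, 2, 2, [35383, 4]⟩,
  ⟨2, 4, 6, 77, 8, 2, 2, [2, 4, 2, 2]⟩,
  ⟨2, 4, 6, 37, 2, 2, 2, [2, 8, 2, 6]⟩,
  ⟨2, 4, 6, 37, 2, 2, 2, [2, 8, 6, 2]⟩,
  ⟨2, 4, 6, 37, 2, 2, 2, [2, 8, 77]⟩,
  ⟨2, 4, 6, 37, 2, 2, 2, [8, 2, 2, 6]⟩,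
  ⟨2, 4, 6, 37, 2, 2, 2, [8, 2, 77]⟩,
  ⟨2, 4, 6, 37, 2, 2, 2, [8, 6, 2, 2]⟩,
  ⟨2, 4, 6, 37, 2, 2, 2, [141, 2, 2]⟩,
  ⟨2, 4, 6, 37, 2, 2, 2, [133, 2, 6]⟩,
  ⟨2, 4, 6, 2751, 2, 2, 2, [8, 2, 2]⟩,
  ⟨2, 4, 6, 2751, 8, 2, 2, [2, 2, 2]⟩,
  ⟨2, 4, 6, 11863, 2, 2, 2, [2, 8, 4]⟩,
  ⟨2, 4, 6, 2743, 2, 2, 2, [2, 6, 8]⟩,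
  ⟨2, 4, 6, 2743, 2, 2, 2, [2, 8, 6]⟩,
  ⟨2, 4, 6, 2743, 2, 2, 2, [6, 2, 8]⟩,
  ⟨2, 4, 6, 2743, 2, 2, 2, [8, 2, 6]⟩,
  ⟨2, 4, 6, 2743, 2, 2, 2, [8, 77]⟩,
  ⟨2, 4, 6, 2743, 2, 2, 2, [141, 2]⟩,
  ⟨2, 4, 6, 2743, 2, 2, 2, [133, 6]⟩,
  ⟨2, 4, 6, 2503913391, 2, 2, 2, [4, 2]⟩,
  ⟨2, 4, 6, 35533, 2, 2, 2, [2, 4]⟩,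
  ⟨2, 4, 6, 15048115, 2, 2, 2, [6, 2]⟩,
  ⟨2, 4, 6, 15048115, 2, 2, 2, [77]⟩,
  ⟨2, 4, 6, 35453, 2, 2, 2, [6, 2]⟩,
  ⟨2, 4, 6, 35453, 2, 2, 2, [77]⟩,
  ⟨2, 4, 6, 15048111, 2, 2, 2, [133]⟩,
  ⟨2, 4, 6, 15048111, 8, 2, 2, [2, 2]⟩,
  ⟨2, 4, 6, 2525188183, 2, 2, 2, [4]⟩,
  ⟨2, 4, 6, 2513830423, 2, 2, 2, [6]⟩,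
  ⟨2, 4, 6, 284792983, 2, 2, 2, [8]⟩,
  ⟨2, 4, 6, 162214086332076595, 2, 2, 2, []⟩,
  ⟨2, 4, 6, 410221039914021017298594405235, 2, 2, 2, []⟩,
  ⟨2, 4, 6, 12753150719125682987, 2, 2, 2, []⟩,
  ⟨2, 4, 6, 50207236515361248833858641519926059, 2, 2, 2, []⟩,
  ⟨2, 4, 6, 284793245, 2, 2, 2, []⟩,
  ⟨2, 4, 8, 81, 2, 2, 2, [6, 2, 2, 2]⟩,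
  ⟨2, 4, 8, 81, 6, 2, 2, [2, 2, 2, 2]⟩,
  ⟨2, 4, 8, 77, 2, 2, 2, [4, 2, 2, 6]⟩,
  ⟨2, 4, 8, 77, 2, 2, 2, [4, 6, 2, 2]⟩,
  ⟨2, 4, 8, 77, 2, 2, 2, [6, 2, 2, 4]⟩,
  ⟨2, 4, 8, 77, 2, 2, 2, [6, 2, 4, 2]⟩,
  ⟨2, 4, 8, 77, 2, 2, 2, [77, 2, 4]⟩,
  ⟨2, 4, 8, 77, 2, 2, 2, [77, 4, 2]⟩,
  ⟨2, 4, 8, 77, 2, 2, 2, [77, 37]⟩,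
  ⟨2, 4, 8, 77, 11863, 2, 2, [2, 4]⟩,
  ⟨2, 4, 8, 77, 11863, 2, 2, [4, 2]⟩,
  ⟨2, 4, 8, 77, 452891289336647, 2, 2, []⟩,
  ⟨2, 4, 8, 37, 2, 2, 2, [6, 2, 2, 6]⟩,
  ⟨2, 4, 8, 37, 11863, 2, 2, [2, 6]⟩,
  ⟨2, 4, 8, 13135, 2, 2, 2, [2, 2, 2]⟩,
  ⟨2, 4, 8, 11871, 2, 2, 2, [2, 2, 4]⟩,
  ⟨2, 4, 8, 11867, 2, 2, 2, [2, 2, 6]⟩,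
  ⟨2, 4, 8, 11867, 2, 2, 2, [6, 2, 2]⟩,
  ⟨2, 4, 8, 11863, 2, 2, 2, [2, 4, 6]⟩,
  ⟨2, 4, 8, 11863, 2, 2, 2, [4, 2, 6]⟩,
  ⟨2, 4, 8, 11863, 2, 2, 2, [4, 6, 2]⟩,
  ⟨2, 4, 8, 11863, 2, 2, 2, [6, 4, 2]⟩,
  ⟨2, 4, 8, 11863, 2, 2, 2, [77, 4]⟩,
  ⟨2, 4, 8, 11863, 77, 2, 2, [2, 4]⟩,
  ⟨2, 4, 8, 11863, 77, 2, 2, [4, 2]⟩,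
  ⟨2, 4, 8, 11863, 11863, 2, 2, [4]⟩,
  ⟨2, 4, 8, 2743, 2, 2, 2, [2, 6, 6]⟩,
  ⟨2, 4, 8, 2743, 2, 2, 2, [6, 2, 6]⟩,
  ⟨2, 4, 8, 2743, 2, 2, 2, [6, 6, 2]⟩,
  ⟨2, 4, 8, 2743, 77, 2, 2, [77]⟩,
  ⟨2, 4, 8, 13277, 2, 2, 2, [2, 2]⟩,
  ⟨2, 4, 8, 15048111, 2, 2, 2, [2, 6]⟩,
  ⟨2, 4, 8, 15048111, 11863, 2, 2, []⟩,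
  ⟨2, 4, 8, 281461547, 11863, 2, 2, []⟩,
  ⟨2, 4, 8, 11933, 2, 2, 2, [2, 6]⟩,
  ⟨2, 4, 8, 11933, 2, 2, 2, [77]⟩,
  ⟨2, 4, 8, 11933, 6, 2, 2, [2, 2]⟩,
  ⟨2, 4, 8, 11933, 11863, 2, 2, []⟩,
  ⟨2, 4, 141, 77, 2, 2, 2, [2, 4, 2]⟩,
  ⟨2, 4, 141, 77, 2, 2, 2, [4, 2, 2]⟩,
  ⟨2, 4, 141, 37, 6, 2, 2, [2, 2, 2]⟩,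
  ⟨2, 4, 141, 11863, 4, 2, 2, [2, 2]⟩,
  ⟨2, 4, 137, 77, 2, 2, 2, [2, 2, 6]⟩,
  ⟨2, 4, 137, 77, 2, 2, 2, [6, 2, 2]⟩,
  ⟨2, 4, 137, 11863, 2, 2, 2, [6, 2]⟩,
  ⟨2, 4, 137, 11863, 2, 2, 2, [77]⟩,
  ⟨2, 4, 81, 35383, 2, 2, 2, [77]⟩,
  ⟨2, 4, 133, 77, 2, 2, 2, [2, 6, 4]⟩,
  ⟨2, 4, 133, 77, 2, 2, 2, [4, 2, 6]⟩,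
  ⟨2, 4, 133, 77, 2, 2, 2, [4, 6, 2]⟩,
  ⟨2, 4, 133, 77, 2, 2, 2, [4, 77]⟩,
  ⟨2, 4, 133, 77, 2, 2, 2, [6, 2, 4]⟩,
  ⟨2, 4, 133, 77, 2, 2, 2, [6, 4, 2]⟩,
  ⟨2, 4, 133, 77, 2, 2, 2, [37, 6]⟩,
  ⟨2, 4, 133, 77, 2, 2, 2, [2751]⟩,
  ⟨2, 4, 133, 77, 2, 2, 2, [11867]⟩,
  ⟨2, 4, 133, 77, 37, 2, 2, [2, 6]⟩,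
  ⟨2, 4, 133, 77, 37, 2, 2, [77]⟩,
  ⟨2, 4, 133, 37, 2, 2, 2, [6, 2, 6]⟩,
  ⟨2, 4, 133, 37, 2, 2, 2, [77, 6]⟩,
  ⟨2, 4, 133, 11871, 2, 2, 2, [2, 4]⟩,
  ⟨2, 4, 133, 2751, 2, 2, 2, [2, 6]⟩,
  ⟨2, 4, 133, 2751, 2, 2, 2, [6, 2]⟩,
  ⟨2, 4, 133, 2751, 2, 2, 2, [77]⟩,
  ⟨2, 4, 133, 13127, 2, 2, 2, [2, 6]⟩,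
  ⟨2, 4, 133, 13127, 2, 2, 2, [6, 2]⟩,
  ⟨2, 4, 133, 13127, 2, 2, 2, [77]⟩,
  ⟨2, 4, 133, 11863, 2, 2, 2, [6, 4]⟩,
  ⟨2, 4, 133, 281461547, 2, 2, 2, [6]⟩,
  ⟨2, 4, 133, 11933, 2, 2, 2, [6]⟩,
  ⟨2, 4, 77, 37, 2, 2, 2, [2, 8, 6]⟩,
  ⟨2, 4, 77, 37, 2, 2, 2, [133, 6]⟩,
  ⟨2, 4, 77, 37, 2, 2, 2, [11875]⟩,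
  ⟨2, 4, 77, 37, 8, 2, 2, [2, 2, 6]⟩,
  ⟨2, 4, 77, 11875, 2, 2, 2, [4, 2]⟩,
  ⟨2, 4, 77, 35391, 2, 2, 2, [2, 4]⟩,
  ⟨2, 4, 77, 35391, 2, 2, 2, [4, 2]⟩,
  ⟨2, 4, 77, 39767, 2, 2, 2, [2, 4]⟩,
  ⟨2, 4, 77, 39767, 2, 2, 2, [4, 2]⟩,
  ⟨2, 4, 77, 35383, 6, 2, 2, [2, 4]⟩,
  ⟨2, 4, 77, 35383, 6, 2, 2, [4, 2]⟩,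
  ⟨2, 4, 77, 2743, 2, 2, 2, [8, 6]⟩,
  ⟨2, 4, 77, 2503913391, 2, 2, 2, [4]⟩,
  ⟨2, 4, 77, 2503913387, 2, 2, 2, [6]⟩,
  ⟨2, 4, 77, 2513830431, 2, 2, 2, []⟩,
  ⟨2, 4, 77, 2525188187, 2, 2, 2, []⟩,
  ⟨2, 4, 77, 15180205, 2, 2, 2, []⟩,
  ⟨2, 4, 37, 39767, 2, 2, 2, [2, 6]⟩,
  ⟨2, 4, 11875, 11863, 2, 2, 2, [4]⟩,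
  ⟨2, 4, 11875, 281461547, 2, 2, 2, []⟩,
  ⟨2, 4, 39767, 15048111, 2, 2, 2, []⟩,
  ⟨2, 4, 11871, 35383, 2, 2, 2, [4]⟩,
  ⟨2, 4, 2751, 35383, 2, 2, 2, [6]⟩,
  ⟨2, 6, 8, 77, 2, 2, 2, [4, 2, 2, 4]⟩,
  ⟨2, 6, 8, 77, 4, 2, 2, [4, 2, 2, 2]⟩,
  ⟨2, 6, 8, 77, 37, 2, 2, [4, 2, 2]⟩,
  ⟨2, 6, 8, 37, 2, 2, 2, [2, 2, 6, 4]⟩,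
  ⟨2, 6, 8, 37, 2, 2, 2, [2, 4, 77]⟩,
  ⟨2, 6, 8, 37, 2, 2, 2, [2, 6, 2, 4]⟩,
  ⟨2, 6, 8, 37, 2, 2, 2, [2, 6, 4, 2]⟩,
  ⟨2, 6, 8, 37, 2, 2, 2, [4, 2, 77]⟩,
  ⟨2, 6, 8, 37, 2, 2, 2, [4, 6, 2, 2]⟩,
  ⟨2, 6, 8, 37, 2, 2, 2, [6, 37, 2]⟩,
  ⟨2, 6, 8, 37, 2, 2, 2, [77, 2, 4]⟩,
  ⟨2, 6, 8, 37, 2, 2, 2, [77, 4, 2]⟩,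
  ⟨2, 6, 8, 37, 2, 2, 2, [2751, 2]⟩,
  ⟨2, 6, 8, 37, 2, 2, 2, [2743, 6]⟩,
  ⟨2, 6, 8, 37, 77, 2, 2, [2, 4, 2]⟩,
  ⟨2, 6, 8, 37, 77, 2, 2, [4, 2, 2]⟩,
  ⟨2, 6, 8, 37, 2743, 2, 2, [77]⟩,
  ⟨2, 6, 8, 2751, 2, 2, 2, [37, 2]⟩,
  ⟨2, 6, 8, 2751, 4, 2, 2, [2, 2, 2]⟩,
  ⟨2, 6, 8, 2751, 37, 2, 2, [2, 2]⟩,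
  ⟨2, 6, 8, 11867, 2, 2, 2, [4, 2, 2]⟩,
  ⟨2, 6, 8, 13127, 4, 2, 2, [2, 2, 2]⟩,
  ⟨2, 6, 8, 2747, 2, 2, 2, [2, 2, 6]⟩,
  ⟨2, 6, 8, 2747, 2, 2, 2, [2, 77]⟩,
  ⟨2, 6, 8, 11863, 2, 2, 2, [2, 4, 4]⟩,
  ⟨2, 6, 8, 11863, 2, 2, 2, [4, 2, 4]⟩,
  ⟨2, 6, 8, 11863, 2, 2, 2, [4, 4, 2]⟩,
  ⟨2, 6, 8, 11863, 2, 2, 2, [37, 4]⟩,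
  ⟨2, 6, 8, 11863, 2, 2, 2, [2747]⟩,
  ⟨2, 6, 8, 11863, 4, 2, 2, [2, 2, 4]⟩,
  ⟨2, 6, 8, 11863, 4, 2, 2, [4, 2, 2]⟩,
  ⟨2, 6, 8, 2743, 2, 2, 2, [4, 77]⟩,
  ⟨2, 6, 8, 2743, 2, 2, 2, [6, 2, 4]⟩,
  ⟨2, 6, 8, 2743, 2, 2, 2, [6, 4, 2]⟩,
  ⟨2, 6, 8, 2743, 4, 2, 2, [6, 2, 2]⟩,
  ⟨2, 6, 8, 2743, 37, 2, 2, [2, 6]⟩,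
  ⟨2, 6, 8, 2743, 37, 2, 2, [77]⟩,
  ⟨2, 6, 8, 15048111, 2, 2, 2, [2, 4]⟩,
  ⟨2, 6, 8, 15048111, 2, 2, 2, [4, 2]⟩,
  ⟨2, 6, 8, 15048111, 4, 2, 2, [2, 2]⟩,
  ⟨2, 6, 8, 15048111, 2743, 2, 2, []⟩,
  ⟨2, 6, 8, 281461547, 2, 2, 2, [2, 4]⟩,
  ⟨2, 6, 8, 281461547, 2, 2, 2, [4, 2]⟩,
  ⟨2, 6, 8, 281461547, 2743, 2, 2, []⟩,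
  ⟨2, 6, 8, 11933, 2, 2, 2, [2, 4]⟩,
  ⟨2, 6, 8, 11933, 2743, 2, 2, []⟩,
  ⟨2, 6, 141, 37, 37, 2, 2, [2, 2]⟩,
  ⟨2, 6, 141, 2743, 2, 2, 2, [2, 4]⟩,
  ⟨2, 6, 141, 2743, 2, 2, 2, [4, 2]⟩,
  ⟨2, 6, 141, 2743, 37, 2, 2, [2]⟩,
  ⟨2, 6, 137, 81, 2, 2, 2, [2, 2, 2]⟩,
  ⟨2, 6, 137, 77, 2, 2, 2, [2, 4, 2]⟩,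
  ⟨2, 6, 137, 77, 2, 2, 2, [4, 2, 2]⟩,
  ⟨2, 6, 137, 37, 2, 2, 2, [6, 2, 2]⟩,
  ⟨2, 6, 137, 13127, 2, 2, 2, [2, 2]⟩,
  ⟨2, 6, 137, 11863, 2, 2, 2, [2, 4]⟩,
  ⟨2, 6, 137, 2743, 2, 2, 2, [6, 2]⟩,
  ⟨2, 6, 137, 2743, 2, 2, 2, [77]⟩,
  ⟨2, 6, 81, 133, 4, 2, 2, [2, 2, 2]⟩,
  ⟨2, 6, 81, 37, 2, 2, 2, [8, 2, 2]⟩,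
  ⟨2, 6, 81, 35383, 2, 2, 2, [2, 4]⟩,
  ⟨2, 6, 133, 77, 2, 2, 2, [2, 4, 4]⟩,
  ⟨2, 6, 133, 77, 2, 2, 2, [4, 4, 2]⟩,
  ⟨2, 6, 133, 77, 4, 2, 2, [4, 2, 2]⟩,
  ⟨2, 6, 133, 37, 2, 2, 2, [4, 6, 2]⟩,
  ⟨2, 6, 133, 37, 2, 2, 2, [6, 2, 4]⟩,
  ⟨2, 6, 133, 37, 2, 2, 2, [77, 4]⟩,
  ⟨2, 6, 133, 37, 2, 2, 2, [37, 6]⟩,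
  ⟨2, 6, 133, 37, 2, 2, 2, [2751]⟩,
  ⟨2, 6, 133, 37, 2, 2, 2, [11867]⟩,
  ⟨2, 6, 133, 37, 4, 2, 2, [2, 2, 6]⟩,
  ⟨2, 6, 133, 37, 37, 2, 2, [2, 6]⟩,
  ⟨2, 6, 133, 37, 37, 2, 2, [6, 2]⟩,
  ⟨2, 6, 133, 37, 2743, 2, 2, [6]⟩,
  ⟨2, 6, 133, 2751, 2, 2, 2, [4, 2]⟩,
  ⟨2, 6, 133, 2751, 37, 2, 2, [2]⟩,
  ⟨2, 6, 133, 2751, 2743, 2, 2, []⟩,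
  ⟨2, 6, 133, 11867, 2743, 2, 2, []⟩,
  ⟨2, 6, 133, 13127, 2, 2, 2, [2, 4]⟩,
  ⟨2, 6, 133, 13127, 2, 2, 2, [4, 2]⟩,
  ⟨2, 6, 133, 2747, 2, 2, 2, [2, 6]⟩,
  ⟨2, 6, 133, 2743, 2, 2, 2, [4, 6]⟩,
  ⟨2, 6, 133, 2743, 4, 2, 2, [2, 6]⟩,
  ⟨2, 6, 133, 2743, 4, 2, 2, [6, 2]⟩,
  ⟨2, 6, 133, 2743, 4, 2, 2, [77]⟩,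
  ⟨2, 6, 133, 11933, 2, 2, 2, [4]⟩,
  ⟨2, 6, 133, 15048107, 2, 2, 2, [6]⟩,
  ⟨2, 6, 77, 37, 2, 2, 2, [2, 4, 8]⟩,
  ⟨2, 6, 77, 37, 2, 2, 2, [2, 8, 4]⟩,
  ⟨2, 6, 77, 37, 2, 2, 2, [4, 133]⟩,
  ⟨2, 6, 77, 37, 2, 2, 2, [37, 8]⟩,
  ⟨2, 6, 77, 37, 2, 2, 2, [2755]⟩,
  ⟨2, 6, 77, 37, 8, 2, 2, [2, 4, 2]⟩,
  ⟨2, 6, 77, 37, 8, 2, 2, [4, 2, 2]⟩,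
  ⟨2, 6, 77, 35453, 2, 2, 2, [4]⟩,
  ⟨2, 6, 77, 452891048566915, 2, 2, 2, []⟩,
  ⟨2, 6, 77, 2513830427, 2, 2, 2, []⟩,
  ⟨2, 6, 37, 39767, 2, 2, 2, [4, 2]⟩,
  ⟨2, 6, 37, 2755, 2, 2, 2, [77]⟩,
  ⟨2, 6, 37, 35387, 2, 2, 2, [2, 6]⟩,
  ⟨2, 6, 37, 35387, 2, 2, 2, [77]⟩,
  ⟨2, 6, 37, 2751, 2, 2, 2, [8, 2]⟩,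
  ⟨2, 6, 37, 2751, 133, 2, 2, [2]⟩,
  ⟨2, 6, 37, 35383, 4, 2, 2, [2, 6]⟩,
  ⟨2, 6, 37, 35383, 4, 2, 2, [77]⟩,
  ⟨2, 6, 37, 281461555, 2, 2, 2, [4]⟩,
  ⟨2, 6, 37, 282031255, 2, 2, 2, [4]⟩,
  ⟨2, 6, 11875, 2743, 2, 2, 2, [4]⟩,
  ⟨2, 6, 2755, 2743, 6, 2, 2, [2]⟩,
  ⟨2, 6, 2755, 15048111, 2, 2, 2, []⟩,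
  ⟨2, 6, 35383, 2743, 6, 2, 2, [4]⟩,
  ⟨2, 8, 81, 77, 2, 2, 2, [2, 2, 4]⟩,
  ⟨2, 8, 81, 77, 2, 2, 2, [2, 4, 2]⟩,
  ⟨2, 8, 81, 77, 4, 2, 2, [2, 2, 2]⟩,
  ⟨2, 8, 81, 37, 2, 2, 2, [2, 2, 6]⟩,
  ⟨2, 8, 81, 11863, 2, 2, 2, [4, 2]⟩,
  ⟨2, 8, 77, 37, 2, 2, 2, [2, 6, 4]⟩,
  ⟨2, 8, 77, 37, 2, 2, 2, [4, 2, 6]⟩,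
  ⟨2, 8, 77, 37, 2, 2, 2, [6, 4, 2]⟩,
  ⟨2, 8, 77, 37, 2, 2, 2, [37, 6]⟩,
  ⟨2, 8, 77, 37, 2, 2, 2, [2751]⟩,
  ⟨2, 8, 77, 37, 2, 2, 2, [11867]⟩,
  ⟨2, 8, 77, 37, 4, 2, 2, [2, 77]⟩,
  ⟨2, 8, 77, 13131, 2, 2, 2, [2, 2]⟩,
  ⟨2, 8, 77, 2751, 2, 2, 2, [2, 4]⟩,
  ⟨2, 8, 77, 2751, 2, 2, 2, [4, 2]⟩,
  ⟨2, 8, 77, 11867, 2, 2, 2, [2, 4]⟩,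
  ⟨2, 8, 77, 11867, 2, 2, 2, [4, 2]⟩,
  ⟨2, 8, 77, 11867, 4, 2, 2, [2, 2]⟩,
  ⟨2, 8, 77, 13127, 4, 2, 2, [2, 2]⟩,
  ⟨2, 8, 77, 2747, 2, 2, 2, [6, 2]⟩,
  ⟨2, 8, 77, 2743, 2, 2, 2, [4, 6]⟩,
  ⟨2, 8, 77, 2743, 4, 2, 2, [2, 6]⟩,
  ⟨2, 8, 77, 2743, 4, 2, 2, [6, 2]⟩,
  ⟨2, 8, 77, 2743, 4, 2, 2, [77]⟩,
  ⟨2, 8, 77, 2743, 6, 2, 2, [2, 4]⟩,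
  ⟨2, 8, 77, 2743, 6, 2, 2, [4, 2]⟩,
  ⟨2, 8, 77, 2743, 37, 2, 2, [6]⟩,
  ⟨2, 8, 77, 2743, 11867, 2, 2, []⟩,
  ⟨2, 8, 77, 15048111, 2, 2, 2, [4]⟩,
  ⟨2, 8, 77, 11933, 37, 2, 2, []⟩,
  ⟨2, 8, 77, 15048107, 2, 2, 2, [6]⟩,
  ⟨2, 8, 37, 11871, 2, 2, 2, [4, 2]⟩,
  ⟨2, 8, 37, 2751, 2, 2, 2, [6, 2]⟩,
  ⟨2, 8, 37, 2751, 2, 2, 2, [77]⟩,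
  ⟨2, 8, 37, 2751, 6, 2, 2, [2, 2]⟩,
  ⟨2, 8, 37, 2751, 77, 2, 2, [2]⟩,
  ⟨2, 8, 37, 11867, 2, 2, 2, [6, 2]⟩,
  ⟨2, 8, 37, 11867, 2, 2, 2, [77]⟩,
  ⟨2, 8, 37, 11863, 2, 2, 2, [4, 6]⟩,
  ⟨2, 8, 37, 11863, 2, 2, 2, [6, 4]⟩,
  ⟨2, 8, 37, 11863, 4, 2, 2, [2, 6]⟩,
  ⟨2, 8, 37, 11863, 4, 2, 2, [6, 2]⟩,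
  ⟨2, 8, 37, 11863, 4, 2, 2, [77]⟩,
  ⟨2, 8, 37, 11863, 6, 2, 2, [4, 2]⟩,
  ⟨2, 8, 37, 11863, 77, 2, 2, [4]⟩,
  ⟨2, 8, 37, 281461547, 2, 2, 2, [6]⟩,
  ⟨2, 8, 37, 11933, 2, 2, 2, [6]⟩,
  ⟨2, 8, 11871, 2743, 2, 2, 2, [4]⟩,
  ⟨2, 8, 2751, 11863, 2, 2, 2, [4]⟩,
  ⟨2, 8, 2751, 2743, 2, 2, 2, [6]⟩,
  ⟨2, 8, 2751, 2743, 6, 2, 2, [2]⟩,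
  ⟨2, 8, 2751, 281461547, 2, 2, 2, []⟩,
  ⟨2, 8, 2751, 11933, 2, 2, 2, []⟩,
  ⟨2, 8, 11867, 281461547, 2, 2, 2, []⟩,
  ⟨2, 8, 11867, 11933, 2, 2, 2, []⟩,
  ⟨2, 8, 2747, 11863, 2, 2, 2, [6]⟩,
  ⟨2, 141, 77, 15048107, 2, 2, 2, []⟩,
  ⟨2, 81, 77, 35383, 2, 2, 2, [4]⟩,
  ⟨3, 2, 4, 81, 2, 2, 2, [8, 6]⟩,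
  ⟨3, 2, 6, 4, 2, 2, 2, [4, 141]⟩,
  ⟨3, 2, 6, 4, 2, 2, 2, [6, 4, 8]⟩,
  ⟨3, 2, 6, 4, 2, 2, 2, [8, 6, 4]⟩,
  ⟨3, 2, 6, 141, 2, 2, 2, [4, 4]⟩,
  ⟨3, 2, 6, 81, 2, 2, 2, [8, 4]⟩,
  ⟨3, 2, 6, 37547, 2, 2, 2, [6]⟩,
  ⟨3, 2, 8, 4, 2, 2, 2, [6, 4, 6]⟩,
  ⟨3, 2, 8, 4, 2, 2, 2, [6, 6, 4]⟩,
  ⟨3, 2, 8, 4, 2, 2, 2, [81, 6]⟩,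
  ⟨3, 2, 8, 6, 2, 2, 2, [4, 4, 6]⟩,
  ⟨3, 2, 8, 6, 2, 2, 2, [4, 6, 4]⟩,
  ⟨3, 2, 8, 6, 2, 2, 2, [81, 4]⟩,
  ⟨3, 2, 8, 81, 2, 2, 2, [4, 6]⟩,
  ⟨4, 2, 4, 6, 4, 2, 2, [2, 6, 8]⟩,
  ⟨4, 2, 4, 6, 4, 2, 2, [2, 8, 6]⟩,
  ⟨4, 2, 4, 6, 4, 2, 2, [8, 77]⟩,
  ⟨4, 2, 4, 6, 4, 2, 2, [141, 2]⟩,
  ⟨4, 2, 4, 6, 81, 2, 2, [8, 2]⟩,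
  ⟨4, 2, 4, 6, 11875, 2, 2, [4]⟩,
  ⟨4, 2, 4, 6, 2755, 2, 2, [6]⟩,
  ⟨4, 2, 4, 8, 4, 2, 2, [2, 6, 6]⟩,
  ⟨4, 2, 4, 8, 4, 2, 2, [6, 2, 6]⟩,
  ⟨4, 2, 4, 8, 6, 2, 2, [2, 6, 4]⟩,
  ⟨4, 2, 4, 8, 6, 2, 2, [4, 2, 6]⟩,
  ⟨4, 2, 4, 8, 6, 2, 2, [4, 6, 2]⟩,
  ⟨4, 2, 4, 8, 6, 2, 2, [6, 4, 2]⟩,
  ⟨4, 2, 4, 8, 2751, 2, 2, [6]⟩,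
  ⟨4, 2, 4, 141, 4, 2, 2, [2, 6]⟩,
  ⟨4, 2, 6, 4, 137, 2, 2, [6, 2]⟩,
  ⟨4, 2, 6, 4, 81, 2, 2, [8, 2]⟩,
  ⟨4, 2, 6, 4, 2755, 2, 2, [6]⟩,
  ⟨4, 2, 6, 6, 4, 2, 2, [2, 8, 4]⟩,
  ⟨4, 2, 6, 6, 4, 2, 2, [8, 4, 2]⟩,
  ⟨4, 2, 6, 6, 137, 2, 2, [2, 4]⟩,
  ⟨4, 2, 6, 6, 137, 2, 2, [4, 2]⟩,
  ⟨4, 2, 6, 6, 2755, 2, 2, [4]⟩,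
  ⟨4, 2, 6, 8, 4, 2, 2, [2, 4, 6]⟩,
  ⟨4, 2, 6, 8, 4, 2, 2, [2, 6, 4]⟩,
  ⟨4, 2, 6, 8, 4, 2, 2, [4, 77]⟩,
  ⟨4, 2, 6, 8, 4, 2, 2, [6, 4, 2]⟩,
  ⟨4, 2, 6, 8, 6, 2, 2, [2, 4, 4]⟩,
  ⟨4, 2, 6, 8, 6, 2, 2, [37, 4]⟩,
  ⟨4, 2, 6, 8, 6, 2, 2, [2747]⟩,
  ⟨4, 2, 6, 8, 2751, 2, 2, [4]⟩,
  ⟨4, 2, 8, 4, 81, 2, 2, [77]⟩,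
  ⟨4, 2, 8, 4, 2751, 2, 2, [6]⟩,
  ⟨4, 2, 8, 6, 4, 2, 2, [2, 4, 6]⟩,
  ⟨4, 2, 8, 6, 4, 2, 2, [2, 6, 4]⟩,
  ⟨4, 2, 8, 6, 4, 2, 2, [4, 2, 6]⟩,
  ⟨4, 2, 8, 6, 4, 2, 2, [4, 77]⟩,
  ⟨4, 2, 8, 6, 4, 2, 2, [6, 2, 4]⟩,
  ⟨4, 2, 8, 6, 4, 2, 2, [6, 4, 2]⟩,
  ⟨4, 2, 81, 8, 4, 2, 2, [6, 2]⟩,
  ⟨4, 2, 81, 8, 4, 2, 2, [77]⟩,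
  ⟨4, 2, 81, 8, 6, 2, 2, [4, 2]⟩,
  ⟨4, 2, 2751, 8, 6, 2, 2, [4]⟩,
  ⟨5, 2, 4, 8, 6, 2, 2, [2, 2, 6]⟩,
  ⟨5, 2, 4, 8, 6, 2, 2, [6, 2, 2]⟩,
  ⟨5, 4, 6, 2, 133, 2, 2, [2, 2]⟩,
  ⟨6, 2, 6, 37, 8, 4, 2, [6, 2]⟩,
  ⟨6, 2, 6, 37, 8, 4, 2, [77]⟩,
  ⟨6, 2, 8, 37, 6, 4, 2, [77]⟩,
  ⟨6, 4, 2, 6, 8, 2, 2, [2, 2, 6]⟩,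
  ⟨6, 4, 2, 6, 8, 2, 2, [6, 2, 2]⟩,
  ⟨6, 4, 2, 8, 6, 2, 2, [2, 2, 6]⟩,
  ⟨6, 4, 2, 8, 6, 2, 2, [6, 2, 2]⟩,
  ⟨6, 4, 2, 77, 8, 6, 2, [2, 2]⟩,
  ⟨6, 4, 8, 77, 6, 2, 2, [2, 2]⟩,
  ⟨6, 6, 2, 4, 4, 2, 2, [8, 2, 2]⟩,
  ⟨6, 6, 2, 4, 4, 133, 2, [2, 2]⟩,
  ⟨6, 6, 2, 4, 8, 2, 2, [4, 2, 2]⟩,
  ⟨6, 6, 2, 4, 8, 4, 2, [2, 2, 2]⟩,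
  ⟨6, 6, 2, 4, 8, 37, 2, [2, 2]⟩,
  ⟨6, 6, 2, 8, 4, 37, 2, [2, 2]⟩,
  ⟨6, 6, 2, 137, 4, 2, 2, [2, 2]⟩,
  ⟨6, 6, 2, 37, 8, 2, 2, [4, 2]⟩,
  ⟨6, 6, 4, 8, 2, 37, 2, [2, 2]⟩,
  ⟨6, 77, 2, 4, 8, 2, 2, [4]⟩,
  ⟨6, 77, 4, 37, 8, 2, 2, []⟩,
  ⟨6, 37, 6, 77, 8, 2, 2, []⟩,
  ⟨8, 2, 4, 2, 2, 2, 2, [2, 8, 6, 6]⟩,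
  ⟨8, 2, 4, 2, 2, 2, 2, [2, 141, 6]⟩,
  ⟨8, 2, 4, 2, 2, 2, 2, [6, 2, 6, 8]⟩,
  ⟨8, 2, 4, 2, 2, 2, 2, [6, 2, 8, 6]⟩,
  ⟨8, 2, 4, 2, 2, 2, 2, [6, 6, 133]⟩,
  ⟨8, 2, 4, 2, 2, 2, 2, [6, 8, 2, 6]⟩,
  ⟨8, 2, 4, 2, 2, 2, 2, [8, 2, 6, 6]⟩,
  ⟨8, 2, 4, 2, 2, 2, 2, [8, 77, 6]⟩,
  ⟨8, 2, 4, 2, 2, 2, 2, [141, 6, 2]⟩,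
  ⟨8, 2, 4, 2, 2, 2, 2, [141, 77]⟩,
  ⟨8, 2, 4, 2, 2, 2, 2, [77, 8, 6]⟩,
  ⟨8, 2, 4, 2, 2, 2, 2, [77, 141]⟩,
  ⟨8, 2, 4, 2, 2, 2, 2, [282031263]⟩,
  ⟨8, 2, 4, 2, 2, 2, 2, [39917]⟩,
  ⟨8, 2, 6, 2, 2, 2, 2, [2, 4, 8, 4]⟩,
  ⟨8, 2, 6, 2, 2, 2, 2, [4, 2, 8, 4]⟩,
  ⟨8, 2, 6, 2, 2, 2, 2, [4, 2, 137]⟩,
  ⟨8, 2, 6, 2, 2, 2, 2, [4, 4, 2, 8]⟩,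
  ⟨8, 2, 6, 2, 2, 2, 2, [4, 8, 2, 4]⟩,
  ⟨8, 2, 6, 2, 2, 2, 2, [4, 8, 4, 2]⟩,
  ⟨8, 2, 6, 2, 2, 2, 2, [4, 8, 37]⟩,
  ⟨8, 2, 6, 2, 2, 2, 2, [8, 4, 4, 2]⟩,
  ⟨8, 2, 6, 2, 2, 2, 2, [8, 37, 4]⟩,
  ⟨8, 2, 6, 2, 2, 2, 2, [137, 4, 2]⟩,
  ⟨8, 2, 6, 2, 2, 2, 2, [37, 8, 4]⟩,
  ⟨8, 2, 6, 2, 2, 2, 2, [37, 137]⟩,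
  ⟨8, 2, 6, 2, 2, 2, 2, [35387, 4]⟩,
  ⟨8, 2, 6, 2, 2, 2, 2, [37543, 4]⟩,
  ⟨8, 2, 6, 2, 2, 2, 2, [15180059]⟩,
  ⟨8, 2, 6, 2, 2, 2, 2, [37613]⟩,
  ⟨8, 2, 81, 2, 2, 2, 2, [8, 2]⟩,
  ⟨9, 2, 4, 6, 2, 2, 2, [8, 2, 2, 4]⟩,
  ⟨9, 2, 4, 6, 2, 2, 2, [133, 2, 4]⟩,
  ⟨9, 2, 4, 6, 2, 2, 2, [133, 4, 2]⟩,
  ⟨9, 2, 4, 6, 2, 2, 2, [35383, 4]⟩,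
  ⟨9, 2, 6, 4, 2, 2, 2, [2, 2, 8, 6]⟩,
  ⟨9, 2, 6, 4, 2, 2, 2, [2, 8, 6, 2]⟩,
  ⟨9, 2, 6, 4, 2, 2, 2, [8, 2, 2, 6]⟩,
  ⟨9, 2, 6, 4, 2, 2, 2, [8, 2, 77]⟩,
  ⟨9, 2, 6, 4, 2, 2, 2, [141, 2, 2]⟩,
  ⟨9, 2, 6, 4, 2, 2, 2, [133, 2, 6]⟩,
  ⟨9, 2, 6, 4, 2, 2, 2, [133, 6, 2]⟩,
  ⟨9, 2, 6, 4, 2, 2, 2, [133, 77]⟩,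
  ⟨9, 2, 6, 4, 2, 2, 2, [35383, 6]⟩,
  ⟨9, 2, 8, 4, 2, 2, 2, [6, 2, 77]⟩,
  ⟨9, 2, 8, 4, 2, 2, 2, [6, 6, 2, 2]⟩,
  ⟨9, 2, 8, 4, 2, 2, 2, [77, 2, 6]⟩,
  ⟨9, 2, 8, 4, 2, 2, 2, [77, 6, 2]⟩,
  ⟨9, 2, 8, 4, 2, 2, 2, [77, 77]⟩,
  ⟨9, 2, 8, 4, 2, 2, 2, [11863, 6]⟩,
  ⟨9, 2, 8, 6, 2, 2, 2, [2, 2, 4, 4]⟩,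
  ⟨9, 2, 8, 6, 2, 2, 2, [2, 4, 4, 2]⟩,
  ⟨9, 2, 8, 6, 2, 2, 2, [4, 2, 4, 2]⟩,
  ⟨9, 2, 8, 6, 2, 2, 2, [37, 4, 2]⟩,
  ⟨9, 2, 8, 6, 2, 2, 2, [15048107]⟩,
  ⟨9, 2, 8, 77, 2, 2, 2, [4, 4]⟩,
  ⟨9, 2, 8, 37, 2, 2, 2, [6, 6]⟩,
  ⟨9, 2, 137, 6, 2, 2, 2, [2, 4, 2]⟩,
  ⟨9, 2, 137, 6, 2, 2, 2, [4, 2, 2]⟩,
  ⟨9, 2, 133, 4, 2, 2, 2, [2, 6, 6]⟩,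
  ⟨9, 2, 133, 4, 2, 2, 2, [6, 2, 6]⟩,
  ⟨9, 2, 133, 4, 2, 2, 2, [6, 77]⟩,
  ⟨9, 2, 133, 6, 2, 2, 2, [2, 4, 4]⟩,
  ⟨9, 2, 133, 6, 2, 2, 2, [4, 2, 4]⟩,
  ⟨9, 2, 133, 6, 2, 2, 2, [37, 4]⟩,
  ⟨9, 2, 133, 6, 2, 2, 2, [2747]⟩,
  ⟨9, 2, 37, 6, 2, 2, 2, [133, 4]⟩,
  ⟨9, 2, 39775, 4, 2, 2, 2, [2, 2]⟩,
  ⟨9, 2, 37547, 6, 2, 2, 2, [2, 2]⟩,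
  ⟨9, 2, 11875, 4, 2, 2, 2, [77]⟩,
  ⟨9, 2, 11871, 4, 2, 2, 2, [8, 2]⟩,
  ⟨9, 2, 2755, 6, 2, 2, 2, [2, 4]⟩,
  ⟨9, 2, 35533, 4, 2, 2, 2, [6]⟩,
  ⟨9, 4, 2, 6, 2, 2, 2, [2, 2, 8, 2]⟩,
  ⟨9, 4, 2, 6, 2, 2, 2, [8, 2, 2, 2]⟩,
  ⟨9, 4, 6, 2, 2, 2, 2, [2, 6, 2, 8]⟩,
  ⟨9, 4, 6, 2, 2, 2, 2, [2, 6, 133]⟩,
  ⟨9, 4, 6, 2, 2, 2, 2, [6, 8, 2, 2]⟩,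
  ⟨9, 4, 6, 2, 2, 2, 2, [8, 6, 2, 2]⟩,
  ⟨9, 4, 6, 2, 2, 2, 2, [141, 2, 2]⟩,
  ⟨9, 4, 6, 2, 2, 2, 2, [133, 2, 6]⟩,
  ⟨9, 4, 6, 2, 2, 2, 2, [133, 6, 2]⟩,
  ⟨9, 4, 6, 2, 2, 2, 2, [133, 77]⟩,
  ⟨9, 4, 6, 2, 2, 2, 2, [35383, 6]⟩,
  ⟨9, 4, 8, 2, 2, 2, 2, [2, 2, 6, 6]⟩,
  ⟨9, 4, 8, 2, 2, 2, 2, [2, 6, 2, 6]⟩,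
  ⟨9, 4, 8, 2, 2, 2, 2, [2, 6, 77]⟩,
  ⟨9, 4, 8, 2, 2, 2, 2, [77, 2, 6]⟩,
  ⟨9, 4, 8, 2, 2, 2, 2, [77, 6, 2]⟩,
  ⟨9, 4, 8, 2, 2, 2, 2, [77, 77]⟩,
  ⟨9, 4, 8, 2, 2, 2, 2, [11863, 6]⟩,
  ⟨9, 4, 8, 6, 2, 2, 2, [2, 2, 2, 2]⟩,
  ⟨9, 4, 8, 11863, 2, 2, 2, []⟩,
  ⟨9, 4, 141, 2, 2, 2, 2, [2, 2, 6]⟩,
  ⟨9, 4, 141, 2, 2, 2, 2, [2, 77]⟩,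
  ⟨9, 4, 141, 2, 2, 2, 2, [6, 2, 2]⟩,
  ⟨9, 4, 133, 2, 2, 2, 2, [6, 6, 2]⟩,
  ⟨9, 4, 133, 6, 2, 2, 2, [2, 2, 2]⟩,
  ⟨9, 4, 77, 2, 2, 2, 2, [2, 8, 6]⟩,
  ⟨9, 4, 77, 2, 2, 2, 2, [2, 141]⟩,
  ⟨9, 4, 77, 2, 2, 2, 2, [6, 8, 2]⟩,
  ⟨9, 4, 77, 2, 2, 2, 2, [8, 2, 6]⟩,
  ⟨9, 4, 77, 2, 2, 2, 2, [8, 77]⟩,
  ⟨9, 4, 77, 2, 2, 2, 2, [77, 8]⟩,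
  ⟨9, 4, 77, 2, 2, 2, 2, [11875]⟩,
  ⟨9, 4, 35391, 2, 2, 2, 2, [6, 2]⟩,
  ⟨9, 4, 35391, 2, 2, 2, 2, [77]⟩,
  ⟨9, 4, 39767, 2, 2, 2, 2, [6, 2]⟩,
  ⟨9, 4, 39767, 2, 2, 2, 2, [77]⟩,
  ⟨9, 4, 35383, 2, 2, 2, 2, [6, 6]⟩,
  ⟨9, 4, 11863, 2, 2, 2, 2, [141]⟩,
  ⟨9, 4, 35533, 2, 2, 2, 2, [6]⟩,
  ⟨9, 6, 2, 4, 2, 2, 2, [2, 2, 8, 2]⟩,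
  ⟨9, 6, 2, 37, 2, 2, 2, [8, 2]⟩,
  ⟨9, 6, 4, 2, 2, 2, 2, [2, 2, 8, 4]⟩,
  ⟨9, 6, 4, 2, 2, 2, 2, [2, 2, 137]⟩,
  ⟨9, 6, 4, 2, 2, 2, 2, [2, 4, 8, 2]⟩,
  ⟨9, 6, 4, 2, 2, 2, 2, [2, 8, 37]⟩,
  ⟨9, 6, 4, 2, 2, 2, 2, [4, 2, 8, 2]⟩,
  ⟨9, 6, 4, 2, 2, 2, 2, [8, 2, 2, 4]⟩,
  ⟨9, 6, 4, 2, 2, 2, 2, [8, 2, 4, 2]⟩,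
  ⟨9, 6, 4, 2, 2, 2, 2, [8, 4, 2, 2]⟩,
  ⟨9, 6, 4, 2, 2, 2, 2, [137, 2, 2]⟩,
  ⟨9, 6, 4, 2, 2, 2, 2, [133, 4, 2]⟩,
  ⟨9, 6, 4, 2, 2, 2, 2, [37, 133]⟩,
  ⟨9, 6, 8, 2, 2, 2, 2, [2, 2, 4, 4]⟩,
  ⟨9, 6, 8, 2, 2, 2, 2, [2, 4, 2, 4]⟩,
  ⟨9, 6, 8, 2, 2, 2, 2, [2, 4, 4, 2]⟩,
  ⟨9, 6, 8, 2, 2, 2, 2, [2, 37, 4]⟩,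
  ⟨9, 6, 8, 2, 2, 2, 2, [4, 4, 2, 2]⟩,
  ⟨9, 6, 8, 2, 2, 2, 2, [2743, 4]⟩,
  ⟨9, 6, 8, 2743, 2, 2, 2, []⟩,
  ⟨9, 6, 133, 2, 2, 2, 2, [4, 4, 2]⟩,
  ⟨9, 6, 133, 2, 2, 2, 2, [37, 4]⟩,
  ⟨9, 6, 133, 2, 2, 2, 2, [2747]⟩,
  ⟨9, 6, 37, 2, 2, 2, 2, [2, 4, 8]⟩,
  ⟨9, 6, 37, 2, 2, 2, 2, [2, 8, 4]⟩,
  ⟨9, 6, 37, 2, 2, 2, 2, [4, 2, 8]⟩,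
  ⟨9, 6, 37, 2, 2, 2, 2, [4, 8, 2]⟩,
  ⟨9, 6, 37, 2, 2, 2, 2, [4, 133]⟩,
  ⟨9, 6, 37, 2, 2, 2, 2, [133, 4]⟩,
  ⟨9, 6, 37, 2, 2, 2, 2, [37, 8]⟩,
  ⟨9, 6, 37, 2, 2, 2, 2, [2755]⟩,
  ⟨9, 6, 2755, 2, 2, 2, 2, [2, 4]⟩,
  ⟨9, 6, 2747, 2, 2, 2, 2, [2, 8]⟩,
  ⟨9, 6, 2747, 2, 2, 2, 2, [8, 2]⟩,
  ⟨9, 6, 35383, 2, 2, 2, 2, [4, 4]⟩,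
  ⟨9, 6, 2743, 2, 2, 2, 2, [8, 4]⟩,
  ⟨9, 6, 35453, 2, 2, 2, 2, [4]⟩,
  ⟨9, 6, 452891048566915, 2, 2, 2, 2, []⟩,
  ⟨9, 6, 2513830427, 2, 2, 2, 2, []⟩,
  ⟨9, 6, 15180125, 2, 2, 2, 2, []⟩,
  ⟨9, 77, 4, 2, 2, 2, 2, [4, 8]⟩,
  ⟨9, 77, 4, 2, 2, 2, 2, [8, 4]⟩,
  ⟨9, 77, 8, 37, 2, 2, 2, []⟩,
  ⟨9, 77, 137, 2, 2, 2, 2, [4]⟩,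
  ⟨9, 37, 6, 2, 2, 2, 2, [6, 8]⟩,
  ⟨9, 37, 8, 2, 2, 2, 2, [6, 6]⟩,
  ⟨9, 37, 133, 6, 2, 2, 2, [2]⟩,
  ⟨10, 2, 4, 6, 2, 2, 2, [2, 4, 6, 8]⟩,
  ⟨10, 2, 4, 6, 2, 2, 2, [2, 4, 8, 6]⟩,
  ⟨10, 2, 4, 6, 2, 2, 2, [2, 4, 141]⟩,
  ⟨10, 2, 4, 6, 2, 2, 2, [2, 6, 8, 4]⟩,
  ⟨10, 2, 4, 6, 2, 2, 2, [2, 8, 4, 6]⟩,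
  ⟨10, 2, 4, 6, 2, 2, 2, [2, 8, 6, 4]⟩,
  ⟨10, 2, 4, 6, 2, 2, 2, [4, 2, 6, 8]⟩,
  ⟨10, 2, 4, 6, 2, 2, 2, [4, 2, 8, 6]⟩,
  ⟨10, 2, 4, 6, 2, 2, 2, [4, 2, 141]⟩,
  ⟨10, 2, 4, 6, 2, 2, 2, [4, 6, 8, 2]⟩,
  ⟨10, 2, 4, 6, 2, 2, 2, [4, 6, 133]⟩,
  ⟨10, 2, 4, 6, 2, 2, 2, [4, 8, 2, 6]⟩,
  ⟨10, 2, 4, 6, 2, 2, 2, [4, 8, 77]⟩,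
  ⟨10, 2, 4, 6, 2, 2, 2, [4, 133, 6]⟩,
  ⟨10, 2, 4, 6, 2, 2, 2, [4, 39767]⟩,
  ⟨10, 2, 4, 6, 2, 2, 2, [6, 2, 8, 4]⟩,
  ⟨10, 2, 4, 6, 2, 2, 2, [6, 2, 137]⟩,
  ⟨10, 2, 4, 6, 2, 2, 2, [6, 4, 2, 8]⟩,
  ⟨10, 2, 4, 6, 2, 2, 2, [6, 4, 8, 2]⟩,
  ⟨10, 2, 4, 6, 2, 2, 2, [6, 8, 2, 4]⟩,
  ⟨10, 2, 4, 6, 2, 2, 2, [6, 8, 4, 2]⟩,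
  ⟨10, 2, 4, 6, 2, 2, 2, [6, 8, 37]⟩,
  ⟨10, 2, 4, 6, 2, 2, 2, [6, 133, 4]⟩,
  ⟨10, 2, 4, 6, 2, 2, 2, [8, 2, 6, 4]⟩,
  ⟨10, 2, 4, 6, 2, 2, 2, [8, 6, 4, 2]⟩,
  ⟨10, 2, 4, 6, 2, 2, 2, [8, 77, 4]⟩,
  ⟨10, 2, 4, 6, 2, 2, 2, [8, 37, 6]⟩,
  ⟨10, 2, 4, 6, 2, 2, 2, [8, 2751]⟩,
  ⟨10, 2, 4, 6, 2, 2, 2, [8, 11867]⟩,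
  ⟨10, 2, 4, 6, 2, 2, 2, [137, 6, 2]⟩,
  ⟨10, 2, 4, 6, 2, 2, 2, [137, 77]⟩,
  ⟨10, 2, 4, 6, 2, 2, 2, [133, 6, 4]⟩,
  ⟨10, 2, 4, 6, 2, 2, 2, [77, 4, 8]⟩,
  ⟨10, 2, 4, 6, 2, 2, 2, [77, 8, 4]⟩,
  ⟨10, 2, 4, 6, 2, 2, 2, [77, 137]⟩,
  ⟨10, 2, 4, 6, 2, 2, 2, [2755, 6]⟩,
  ⟨10, 2, 4, 6, 2, 2, 2, [2751, 8]⟩,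
  ⟨10, 2, 4, 6, 2, 2, 2, [11867, 8]⟩,
  ⟨10, 2, 4, 6, 2, 2, 2, [15180063]⟩,
  ⟨10, 2, 4, 6, 2, 2, 2, [39837]⟩,
  ⟨10, 2, 4, 6, 2, 2, 2, [282031259]⟩,
  ⟨10, 2, 4, 6, 2, 2, 2, [37693]⟩,
  ⟨10, 2, 4, 8, 2, 2, 2, [2, 6, 6, 4]⟩,
  ⟨10, 2, 4, 8, 2, 2, 2, [4, 6, 2, 6]⟩,
  ⟨10, 2, 4, 8, 2, 2, 2, [4, 6, 6, 2]⟩,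
  ⟨10, 2, 4, 8, 2, 2, 2, [4, 77, 6]⟩,
  ⟨10, 2, 4, 8, 2, 2, 2, [6, 4, 6, 2]⟩,
  ⟨10, 2, 4, 8, 2, 2, 2, [6, 6, 2, 4]⟩,
  ⟨10, 2, 4, 8, 2, 2, 2, [6, 6, 4, 2]⟩,
  ⟨10, 2, 4, 8, 2, 2, 2, [81, 2, 6]⟩,
  ⟨10, 2, 4, 8, 2, 2, 2, [11871, 4]⟩,
  ⟨10, 2, 4, 8, 2, 2, 2, [11867, 6]⟩,
  ⟨10, 2, 4, 8, 6, 2, 2, [2, 2, 2, 4]⟩,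
  ⟨10, 2, 4, 8, 6, 2, 2, [2, 2, 4, 2]⟩,
  ⟨10, 2, 4, 8, 6, 2, 2, [2, 4, 2, 2]⟩,
  ⟨10, 2, 4, 8, 6, 2, 2, [2, 37, 2]⟩,
  ⟨10, 2, 4, 8, 6, 2, 2, [4, 2, 2, 2]⟩,
  ⟨10, 2, 4, 141, 2, 2, 2, [4, 77]⟩,
  ⟨10, 2, 4, 37, 6, 2, 2, [8, 2, 2]⟩,
  ⟨10, 2, 4, 13135, 2, 2, 2, [8, 2]⟩,
  ⟨10, 2, 4, 2755, 6, 2, 2, [2, 2]⟩,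
  ⟨10, 2, 4, 35383, 6, 2, 2, [2, 4]⟩,
  ⟨10, 2, 4, 39917, 2, 2, 2, [4]⟩,
  ⟨10, 2, 6, 8, 2, 2, 2, [2, 4, 4, 6]⟩,
  ⟨10, 2, 6, 8, 2, 2, 2, [2, 4, 6, 4]⟩,
  ⟨10, 2, 6, 8, 2, 2, 2, [4, 2, 4, 6]⟩,
  ⟨10, 2, 6, 8, 2, 2, 2, [4, 6, 2, 4]⟩,
  ⟨10, 2, 6, 8, 2, 2, 2, [4, 6, 4, 2]⟩,
  ⟨10, 2, 6, 8, 2, 2, 2, [4, 37, 6]⟩,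
  ⟨10, 2, 6, 8, 2, 2, 2, [4, 2751]⟩,
  ⟨10, 2, 6, 8, 2, 2, 2, [4, 11867]⟩,
  ⟨10, 2, 6, 8, 2, 2, 2, [6, 4, 4, 2]⟩,
  ⟨10, 2, 6, 8, 2, 2, 2, [81, 2, 4]⟩,
  ⟨10, 2, 6, 8, 2, 2, 2, [37, 6, 4]⟩,
  ⟨10, 2, 6, 8, 2, 2, 2, [11867, 4]⟩,
  ⟨10, 2, 6, 8, 2, 2, 2, [2747, 6]⟩,
  ⟨10, 2, 6, 8, 37, 2, 2, [2, 6]⟩,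
  ⟨10, 2, 6, 8, 37, 2, 2, [77]⟩,
  ⟨10, 2, 6, 137, 2, 2, 2, [6, 4, 2]⟩,
  ⟨10, 2, 6, 133, 4, 2, 2, [2, 2, 6]⟩,
  ⟨10, 2, 6, 39771, 2, 2, 2, [2, 4]⟩,
  ⟨10, 2, 6, 37547, 2, 2, 2, [2, 6]⟩,
  ⟨10, 2, 6, 37543, 2, 2, 2, [4, 6]⟩,
  ⟨10, 2, 6, 11867, 2, 2, 2, [8, 4]⟩,
  ⟨10, 2, 6, 35383, 4, 2, 2, [2, 6]⟩,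
  ⟨10, 2, 6, 39837, 2, 2, 2, [4]⟩,
  ⟨10, 2, 6, 282031259, 2, 2, 2, [4]⟩,
  ⟨10, 2, 6, 15092035, 2, 2, 2, [6]⟩,
  ⟨10, 2, 8, 81, 2, 2, 2, [2, 4, 6]⟩,
  ⟨10, 2, 8, 81, 2, 2, 2, [4, 77]⟩,
  ⟨10, 2, 8, 81, 2, 2, 2, [6, 2, 4]⟩,
  ⟨10, 2, 8, 81, 2, 2, 2, [6, 4, 2]⟩,
  ⟨10, 2, 8, 77, 4, 2, 2, [2, 2, 6]⟩,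
  ⟨10, 2, 8, 77, 4, 2, 2, [6, 2, 2]⟩,
  ⟨10, 2, 8, 37, 6, 2, 2, [2, 4, 2]⟩,
  ⟨10, 2, 8, 13135, 2, 2, 2, [2, 4]⟩,
  ⟨10, 2, 8, 11871, 4, 2, 2, [2, 2]⟩,
  ⟨10, 2, 8, 13127, 2, 2, 2, [4, 6]⟩,
  ⟨10, 2, 8, 13197, 2, 2, 2, [6]⟩,
  ⟨10, 2, 141, 81, 2, 2, 2, [2, 4]⟩,
  ⟨10, 2, 141, 81, 2, 2, 2, [4, 2]⟩,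
  ⟨10, 2, 141, 2747, 2, 2, 2, [6]⟩,
  ⟨10, 2, 137, 37, 77, 2, 2, []⟩,
  ⟨10, 4, 6, 8, 2, 2, 2, [2, 4, 77]⟩,
  ⟨10, 4, 6, 8, 2, 2, 2, [2, 6, 2, 4]⟩,
  ⟨10, 4, 6, 8, 2, 2, 2, [4, 2, 2, 6]⟩,
  ⟨10, 4, 6, 8, 2, 2, 2, [4, 2, 77]⟩,
  ⟨10, 4, 6, 8, 2, 2, 2, [4, 6, 2, 2]⟩,
  ⟨10, 4, 6, 8, 2, 2, 2, [6, 37, 2]⟩,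
  ⟨10, 4, 6, 8, 2, 2, 2, [77, 2, 4]⟩,
  ⟨10, 4, 6, 8, 2, 2, 2, [77, 4, 2]⟩,
  ⟨10, 4, 6, 8, 2, 2, 2, [37, 6, 2]⟩,
  ⟨10, 4, 6, 8, 2, 2, 2, [281461547]⟩,
  ⟨10, 4, 6, 8, 2, 2, 2, [11933]⟩,
  ⟨10, 4, 6, 39767, 2, 2, 2, [4, 2]⟩,
  ⟨10, 4, 6, 11863, 2, 2, 2, [4, 8]⟩,
  ⟨10, 4, 6, 2743, 2, 2, 2, [6, 8]⟩,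
  ⟨10, 4, 6, 35533, 2, 2, 2, [4]⟩,
  ⟨10, 4, 6, 35453, 2, 2, 2, [6]⟩,
  ⟨10, 4, 6, 15048111, 2, 2, 2, [8]⟩,
  ⟨10, 4, 6, 284792995, 2, 2, 2, []⟩,
  ⟨10, 4, 6, 159083257593750059, 2, 2, 2, []⟩,
  ⟨10, 4, 8, 81, 2, 2, 2, [2, 2, 6]⟩,
  ⟨10, 4, 8, 81, 2, 2, 2, [6, 2, 2]⟩,
  ⟨10, 4, 8, 77, 2, 2, 2, [2, 6, 4]⟩,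
  ⟨10, 4, 8, 77, 2, 2, 2, [4, 2, 6]⟩,
  ⟨10, 4, 8, 77, 2, 2, 2, [4, 6, 2]⟩,
  ⟨10, 4, 8, 77, 2, 2, 2, [4, 77]⟩,
  ⟨10, 4, 8, 77, 2, 2, 2, [6, 2, 4]⟩,
  ⟨10, 4, 8, 77, 2, 2, 2, [6, 4, 2]⟩,
  ⟨10, 4, 8, 77, 2, 2, 2, [37, 6]⟩,
  ⟨10, 4, 8, 77, 2, 2, 2, [2751]⟩,
  ⟨10, 4, 8, 77, 2, 2, 2, [11867]⟩,
  ⟨10, 4, 8, 2751, 2, 2, 2, [2, 6]⟩,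
  ⟨10, 4, 8, 2751, 2, 2, 2, [6, 2]⟩,
  ⟨10, 4, 8, 2751, 2, 2, 2, [77]⟩,
  ⟨10, 4, 8, 13127, 2, 2, 2, [2, 6]⟩,
  ⟨10, 4, 8, 13127, 2, 2, 2, [6, 2]⟩,
  ⟨10, 4, 8, 13127, 2, 2, 2, [77]⟩,
  ⟨10, 4, 8, 11863, 2, 2, 2, [4, 6]⟩,
  ⟨10, 4, 8, 11863, 2, 2, 2, [6, 4]⟩,
  ⟨10, 4, 8, 2743, 6, 2, 2, [2, 2]⟩,
  ⟨10, 4, 8, 11933, 2, 2, 2, [6]⟩,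
  ⟨10, 6, 8, 81, 2, 2, 2, [2, 4, 2]⟩,
  ⟨10, 6, 8, 77, 4, 2, 2, [2, 2, 2]⟩,
  ⟨10, 6, 8, 37, 2, 2, 2, [2, 4, 6]⟩,
  ⟨10, 6, 8, 37, 2, 2, 2, [2, 6, 4]⟩,
  ⟨10, 6, 8, 37, 2, 2, 2, [4, 6, 2]⟩,
  ⟨10, 6, 8, 37, 2, 2, 2, [4, 77]⟩,
  ⟨10, 6, 8, 37, 2, 2, 2, [6, 2, 4]⟩,
  ⟨10, 6, 8, 37, 2, 2, 2, [6, 4, 2]⟩,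
  ⟨10, 6, 8, 37, 2, 2, 2, [37, 6]⟩,
  ⟨10, 6, 8, 37, 2, 2, 2, [2751]⟩,
  ⟨10, 6, 8, 37, 2, 2, 2, [11867]⟩,
  ⟨10, 6, 8, 13127, 2, 2, 2, [2, 4]⟩,
  ⟨10, 6, 8, 13127, 2, 2, 2, [4, 2]⟩,
  ⟨10, 6, 8, 2743, 2, 2, 2, [4, 6]⟩,
  ⟨10, 6, 8, 2743, 2, 2, 2, [6, 4]⟩,
  ⟨10, 6, 8, 281461547, 2, 2, 2, [4]⟩,
  ⟨10, 6, 8, 15048107, 2, 2, 2, [6]⟩,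
  ⟨10, 6, 81, 133, 2, 2, 2, [2, 4]⟩,
  ⟨10, 6, 81, 133, 2, 2, 2, [4, 2]⟩,
  ⟨10, 6, 133, 77, 37, 2, 2, []⟩,
  ⟨10, 6, 39767, 2747, 2, 2, 2, []⟩,
  ⟨10, 8, 81, 77, 2, 2, 2, [2, 4]⟩,
  ⟨10, 8, 81, 77, 2, 2, 2, [4, 2]⟩,
  ⟨10, 8, 81, 37, 2, 2, 2, [77]⟩,
  ⟨10, 8, 81, 2743, 2, 2, 2, [6]⟩,
  ⟨10, 8, 77, 13127, 2, 2, 2, [4]⟩,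
  ⟨10, 8, 77, 2747, 2, 2, 2, [6]⟩,
  ⟨10, 8, 37, 11871, 2, 2, 2, [4]⟩,
  ⟨10, 141, 77, 2747, 2, 2, 2, []⟩,
  ⟨12, 2, 4, 6, 8, 2, 2, [2, 4, 2, 6]⟩,
  ⟨12, 2, 4, 6, 8, 2, 2, [2, 4, 6, 2]⟩,
  ⟨12, 2, 4, 6, 8, 2, 2, [2, 4, 77]⟩,
  ⟨12, 2, 4, 6, 8, 2, 2, [4, 2, 2, 6]⟩,
  ⟨12, 2, 4, 6, 8, 2, 2, [4, 2, 77]⟩,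
  ⟨12, 2, 4, 6, 8, 2, 2, [6, 2, 4, 2]⟩,
  ⟨12, 2, 4, 6, 8, 2, 2, [6, 4, 2, 2]⟩,
  ⟨12, 2, 4, 6, 8, 2, 2, [6, 37, 2]⟩,
  ⟨12, 2, 4, 8, 81, 2, 2, [2, 77]⟩,
  ⟨12, 2, 4, 8, 77, 2, 2, [2, 4, 6]⟩,
  ⟨12, 2, 4, 8, 77, 2, 2, [4, 2, 6]⟩,
  ⟨12, 2, 4, 8, 77, 2, 2, [4, 6, 2]⟩,
  ⟨12, 2, 4, 8, 77, 2, 2, [4, 77]⟩,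
  ⟨12, 2, 4, 8, 77, 2, 2, [6, 2, 4]⟩,
  ⟨12, 2, 4, 8, 77, 2, 2, [6, 4, 2]⟩,
  ⟨12, 2, 4, 141, 37, 2, 2, [2, 6]⟩,
  ⟨12, 2, 4, 141, 37, 2, 2, [77]⟩,
  ⟨12, 2, 6, 4, 2743, 2, 2, [6, 8]⟩,
  ⟨12, 2, 6, 4, 2743, 2, 2, [8, 6]⟩,
  ⟨12, 2, 6, 4, 35533, 2, 2, [4]⟩,
  ⟨12, 2, 6, 8, 81, 2, 2, [2, 2, 4]⟩,
  ⟨12, 2, 6, 8, 81, 2, 2, [2, 4, 2]⟩,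
  ⟨12, 2, 6, 8, 37, 2, 2, [2, 6, 4]⟩,
  ⟨12, 2, 6, 8, 37, 2, 2, [4, 6, 2]⟩,
  ⟨12, 2, 6, 8, 37, 2, 2, [6, 2, 4]⟩,
  ⟨12, 2, 6, 8, 15048111, 2, 2, [4]⟩,
  ⟨12, 2, 6, 137, 2743, 2, 2, [6]⟩,
  ⟨12, 2, 8, 4, 6, 2, 2, [2, 4, 2, 6]⟩,
  ⟨12, 2, 8, 4, 6, 2, 2, [2, 6, 2, 4]⟩,
  ⟨12, 2, 8, 4, 6, 2, 2, [2, 6, 4, 2]⟩,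
  ⟨12, 2, 8, 4, 6, 2, 2, [2, 77, 4]⟩,
  ⟨12, 2, 8, 4, 6, 2, 2, [4, 2, 2, 6]⟩,
  ⟨12, 2, 8, 4, 6, 2, 2, [4, 2, 77]⟩,
  ⟨12, 2, 8, 4, 6, 2, 2, [6, 2, 2, 4]⟩,
  ⟨12, 2, 8, 4, 6, 2, 2, [6, 4, 2, 2]⟩,
  ⟨12, 2, 8, 4, 6, 2, 2, [6, 37, 2]⟩,
  ⟨12, 2, 8, 4, 6, 2, 2, [77, 2, 4]⟩,
  ⟨12, 2, 8, 4, 6, 2, 2, [77, 4, 2]⟩,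
  ⟨12, 2, 8, 4, 6, 2, 2, [37, 6, 2]⟩,
  ⟨12, 2, 8, 4, 13135, 2, 2, [2, 2]⟩,
  ⟨12, 2, 8, 4, 11863, 2, 2, [4, 6]⟩,
  ⟨12, 2, 8, 4, 2743, 2, 2, [6, 6]⟩,
  ⟨12, 2, 8, 81, 77, 2, 2, [2, 4]⟩,
  ⟨12, 2, 8, 81, 77, 2, 2, [4, 2]⟩,
  ⟨12, 2, 8, 81, 37, 2, 2, [77]⟩,
  ⟨12, 2, 8, 77, 37, 2, 2, [6, 4]⟩,
  ⟨12, 2, 141, 6, 37, 2, 2, [2, 4]⟩,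
  ⟨12, 2, 141, 77, 37, 2, 2, [4]⟩,
  ⟨12, 2, 137, 4, 6, 2, 2, [2, 2, 6]⟩,
  ⟨12, 2, 137, 4, 6, 2, 2, [6, 2, 2]⟩,
  ⟨12, 2, 137, 6, 11863, 2, 2, [4]⟩,
  ⟨12, 2, 137, 77, 37, 2, 2, [6]⟩,
  ⟨12, 2, 81, 4, 8, 2, 2, [2, 2, 6]⟩,
  ⟨12, 2, 81, 4, 8, 2, 2, [6, 2, 2]⟩,
  ⟨12, 2, 81, 4, 133, 2, 2, [2, 6]⟩,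
  ⟨12, 2, 81, 6, 8, 2, 2, [2, 4, 2]⟩,
  ⟨12, 2, 81, 6, 8, 2, 2, [4, 2, 2]⟩,
  ⟨12, 2, 81, 8, 77, 2, 2, [4, 2]⟩,
  ⟨12, 2, 81, 8, 37, 2, 2, [2, 6]⟩,
  ⟨12, 2, 77, 137, 37, 2, 2, [6]⟩,
  ⟨12, 2, 37, 6, 8, 2, 2, [2, 4, 6]⟩,
  ⟨12, 2, 37, 6, 8, 2, 2, [4, 77]⟩,
  ⟨12, 2, 37, 6, 8, 2, 2, [6, 4, 2]⟩,
  ⟨12, 2, 13139, 4, 6, 2, 2, [2, 2]⟩,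
  ⟨12, 2, 39771, 4, 6, 2, 2, [2, 2]⟩,
  ⟨12, 2, 11871, 4, 8, 2, 2, [2, 4]⟩,
  ⟨12, 2, 11867, 6, 8, 2, 2, [2, 4]⟩,
  ⟨12, 2, 11867, 6, 8, 2, 2, [4, 2]⟩,
  ⟨12, 2, 35453, 4, 6, 2, 2, [6]⟩,
  ⟨12, 2, 11933, 4, 8, 2, 2, [6]⟩,
  ⟨12, 4, 2, 2, 11863, 2, 2, [8, 6]⟩,
  ⟨12, 4, 2, 6, 8, 2, 2, [2, 2, 2, 6]⟩,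
  ⟨12, 4, 2, 6, 133, 2, 2, [2, 2, 6]⟩,
  ⟨12, 4, 2, 6, 133, 2, 2, [2, 77]⟩,
  ⟨12, 4, 6, 2, 8, 2, 2, [6, 2, 2, 2]⟩,
  ⟨12, 4, 6, 2, 133, 2, 2, [2, 2, 6]⟩,
  ⟨12, 4, 6, 2, 133, 2, 2, [2, 77]⟩,
  ⟨12, 4, 6, 2, 133, 2, 2, [6, 2, 2]⟩,
  ⟨12, 4, 6, 2, 35383, 2, 2, [2, 6]⟩,
  ⟨12, 4, 6, 2, 35383, 2, 2, [77]⟩,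
  ⟨12, 4, 6, 2, 2525188183, 2, 2, []⟩,
  ⟨12, 4, 6, 8, 77, 2, 2, [2, 2, 2]⟩,
  ⟨12, 4, 8, 2, 77, 2, 2, [2, 2, 6]⟩,
  ⟨12, 4, 8, 2, 11863, 2, 2, [6, 2]⟩,
  ⟨12, 4, 8, 6, 11863, 2, 2, [2, 2]⟩,
  ⟨12, 4, 141, 2, 6, 2, 2, [2, 2, 2]⟩,
  ⟨12, 4, 133, 6, 77, 2, 2, [2, 2]⟩,
  ⟨12, 4, 77, 2, 11863, 2, 2, [8]⟩,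
  ⟨12, 4, 11875, 2, 11863, 2, 2, []⟩,
  ⟨12, 4, 39767, 2, 11863, 2, 2, []⟩,
  ⟨12, 4, 35383, 2, 6, 2, 2, [6, 2]⟩,
  ⟨12, 4, 11863, 2, 8, 2, 2, [6, 2]⟩,
  ⟨12, 4, 11863, 2, 8, 2, 2, [77]⟩,
  ⟨12, 6, 2, 2, 2743, 2, 2, [4, 8]⟩,
  ⟨12, 6, 2, 8, 37, 2, 2, [2, 2, 4]⟩,
  ⟨12, 6, 4, 2, 8, 2, 2, [2, 2, 2, 4]⟩,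
  ⟨12, 6, 4, 2, 8, 2, 2, [2, 4, 2, 2]⟩,
  ⟨12, 6, 4, 2, 8, 2, 2, [2, 37, 2]⟩,
  ⟨12, 6, 4, 2, 35383, 2, 2, [2, 4]⟩,
  ⟨12, 6, 4, 2, 35383, 2, 2, [4, 2]⟩,
  ⟨12, 6, 4, 2, 2743, 2, 2, [2, 8]⟩,
  ⟨12, 6, 4, 2, 2743, 2, 2, [133]⟩,
  ⟨12, 6, 4, 8, 37, 2, 2, [2, 2, 2]⟩,
  ⟨12, 6, 8, 2, 4, 2, 2, [2, 2, 2, 4]⟩,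
  ⟨12, 6, 8, 2, 4, 2, 2, [2, 2, 4, 2]⟩,
  ⟨12, 6, 8, 2, 4, 2, 2, [2, 4, 2, 2]⟩,
  ⟨12, 6, 8, 2, 4, 2, 2, [2, 37, 2]⟩,
  ⟨12, 6, 8, 2, 4, 2, 2, [4, 2, 2, 2]⟩,
  ⟨12, 6, 8, 2, 37, 2, 2, [2, 2, 4]⟩,
  ⟨12, 6, 8, 2, 2743, 2, 2, [4, 2]⟩,
  ⟨12, 6, 8, 4, 37, 2, 2, [2, 2, 2]⟩,
  ⟨12, 6, 8, 37, 2743, 2, 2, [2]⟩,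
  ⟨12, 6, 137, 2, 4, 2, 2, [2, 2, 2]⟩,
  ⟨12, 6, 137, 2, 37, 2, 2, [2, 2]⟩,
  ⟨12, 6, 133, 2, 4, 2, 2, [4, 2, 2]⟩,
  ⟨12, 6, 133, 2, 37, 2, 2, [4, 2]⟩,
  ⟨12, 6, 133, 2, 2743, 2, 2, [4]⟩,
  ⟨12, 6, 37, 2, 133, 2, 2, [4, 2]⟩,
  ⟨12, 6, 37, 2, 2743, 2, 2, [8]⟩,
  ⟨12, 6, 2755, 2, 4, 2, 2, [2, 2]⟩,
  ⟨12, 6, 2755, 2, 2743, 2, 2, []⟩,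
  ⟨12, 6, 35383, 2, 37, 2, 2, [4]⟩,
  ⟨12, 6, 2743, 2, 133, 2, 2, [4]⟩,
  ⟨12, 6, 2743, 4, 8, 2, 2, [2, 2]⟩,
  ⟨12, 6, 2743, 8, 37, 2, 2, [2]⟩,
  ⟨12, 77, 4, 2, 8, 2, 2, [2, 4]⟩,
  ⟨12, 77, 4, 2, 8, 2, 2, [4, 2]⟩,
  ⟨12, 77, 4, 133, 37, 2, 2, []⟩,
  ⟨12, 77, 8, 2, 4, 2, 2, [2, 4]⟩,
  ⟨12, 77, 8, 2, 4, 2, 2, [4, 2]⟩,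
  ⟨12, 77, 137, 2, 37, 2, 2, []⟩,
  ⟨12, 77, 133, 4, 37, 2, 2, []⟩,
  ⟨12, 77, 37, 2, 137, 2, 2, []⟩,
  ⟨12, 37, 2, 6, 8, 2, 2, [2, 6]⟩,
  ⟨12, 37, 8, 2, 6, 2, 2, [2, 6]⟩,
  ⟨12, 37, 8, 2, 6, 2, 2, [6, 2]⟩,
  ⟨12, 37, 141, 2, 6, 2, 2, [2]⟩,
  ⟨13, 2, 4, 6, 8, 77, 2, [2, 2, 4]⟩,
  ⟨13, 2, 4, 6, 8, 77, 2, [4, 2, 2]⟩,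
  ⟨13, 2, 4, 8, 2, 11863, 2, [6, 4]⟩,
  ⟨13, 2, 4, 8, 77, 37, 2, [2, 6]⟩,
  ⟨13, 2, 4, 141, 6, 37, 2, [2, 2]⟩,
  ⟨13, 2, 4, 77, 137, 11863, 2, []⟩,
  ⟨13, 2, 6, 8, 2, 2743, 2, [4, 6]⟩,
  ⟨13, 2, 6, 8, 4, 2743, 2, [2, 6]⟩,
  ⟨13, 2, 8, 77, 4, 6, 2, [2, 4, 2]⟩,
  ⟨13, 2, 8, 77, 4, 6, 2, [4, 2, 2]⟩,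
  ⟨13, 2, 8, 15048111, 6, 37, 2, []⟩,
  ⟨13, 4, 6, 8, 2, 452891289336647, 2, []⟩,
  ⟨13, 4, 6, 133, 2, 37, 2, [2, 6]⟩,
  ⟨13, 4, 6, 35383, 2, 6, 2, [4, 2]⟩,
  ⟨13, 4, 8, 11863, 2, 77, 2, [4]⟩,
  ⟨13, 4, 133, 77, 4, 6, 2, [2, 2]⟩,
  ⟨13, 6, 8, 81, 2, 4, 2, [2, 2, 2]⟩,
  ⟨13, 6, 8, 2743, 2, 4, 2, [6, 2]⟩,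
  ⟨13, 6, 8, 2743, 2, 4, 2, [77]⟩,
  ⟨13, 6, 8, 2743, 2, 6, 2, [2, 4]⟩,
  ⟨13, 6, 8, 2743, 2, 6, 2, [4, 2]⟩,
  ⟨13, 6, 8, 2743, 2, 37, 2, [6]⟩,
  ⟨13, 6, 137, 77, 2, 4, 2, [2, 2]⟩,
  ⟨13, 8, 77, 37, 2, 4, 2, [2, 6]⟩,
  ⟨13, 8, 77, 37, 2, 4, 2, [6, 2]⟩,
  ⟨13, 8, 77, 37, 2, 4, 2, [77]⟩,
  ⟨13, 8, 37, 2751, 2, 6, 2, [2]⟩,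
  ⟨13, 8, 37, 11863, 2, 6, 2, [4]⟩]

end Pool.Agent.H12.Eng2
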