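import Pool.Agent.H12.Eng2.IdsDef
import Pool.Agent.H12.Eng2.DatS2

/-! Kernel evaluation of a certificate. -/

set_option autoImplicit false

namespace Pool.Agent.H12.Eng2
set_option maxRecDepth 1000000

theorem kS2 : chk idsM tS2 cS2 = true := by decide +kernel

end Pool.Agent.H12.Eng2
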