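import Pool.Agent.H12.Eng2.Core

/-! The identities used by the certificates (generated). -/

set_option autoImplicit false

namespace Pool.Agent.H12.Eng2

open Pool.Agent.H12.Eng (Ex)

def rE3 : List Ex := [(.m (.m (.m (.v 1) (.v 0)) (.v 0)) (.v 0))]

def rE21 : List Ex := [(.m (.m (.m (.v 2) (.v 0)) (.v 0)) (.v 1)),
  (.m (.m (.m (.v 2) (.v 0)) (.v 1)) (.v 0)),
  (.m (.m (.m (.v 2) (.v 1)) (.v 0)) (.v 0))]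

def rE111 : List Ex := [(.m (.m (.m (.v 3) (.v 0)) (.v 1)) (.v 2)),
  (.m (.m (.m (.v 3) (.v 0)) (.v 2)) (.v 1)),
  (.m (.m (.m (.v 3) (.v 1)) (.v 0)) (.v 2)),
  (.m (.m (.m (.v 3) (.v 1)) (.v 2)) (.v 0)),
  (.m (.m (.m (.v 3) (.v 2)) (.v 0)) (.v 1)),
  (.m (.m (.m (.v 3) (.v 2)) (.v 1)) (.v 0))]

def rV4 : List Ex := [(.m (.m (.m (.v 1) (.v 0)) (.v 0)) (.m (.m (.v 2) (.v 0)) (.v 0)))]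

def rV31 : List Ex := [(.m (.m (.m (.v 2) (.v 0)) (.v 0)) (.m (.m (.v 3) (.v 0)) (.v 1))),
  (.m (.m (.m (.v 2) (.v 0)) (.v 0)) (.m (.m (.v 3) (.v 1)) (.v 0))),
  (.m (.m (.m (.v 2) (.v 0)) (.v 1)) (.m (.m (.v 3) (.v 0)) (.v 0))),
  (.m (.m (.m (.v 2) (.v 1)) (.v 0)) (.m (.m (.v 3) (.v 0)) (.v 0)))]

def rV22 : List Ex := [(.m (.m (.m (.v 2) (.v 0)) (.v 0)) (.m (.m (.v 3) (.v 1)) (.v 1))),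
  (.m (.m (.m (.v 2) (.v 0)) (.v 1)) (.m (.m (.v 3) (.v 0)) (.v 1))),
  (.m (.m (.m (.v 2) (.v 0)) (.v 1)) (.m (.m (.v 3) (.v 1)) (.v 0))),
  (.m (.m (.m (.v 2) (.v 1)) (.v 0)) (.m (.m (.v 3) (.v 0)) (.v 1))),
  (.m (.m (.m (.v 2) (.v 1)) (.v 0)) (.m (.m (.v 3) (.v 1)) (.v 0))),
  (.m (.m (.m (.v 2) (.v 1)) (.v 1)) (.m (.m (.v 3) (.v 0)) (.v 0)))]

def rV211 : List Ex := [(.m (.m (.m (.v 3) (.v 0)) (.v 0)) (.m (.m (.v 4) (.v 1)) (.v 2))),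
  (.m (.m (.m (.v 3) (.v 0)) (.v 0)) (.m (.m (.v 4) (.v 2)) (.v 1))),
  (.m (.m (.m (.v 3) (.v 0)) (.v 1)) (.m (.m (.v 4) (.v 0)) (.v 2))),
  (.m (.m (.m (.v 3) (.v 0)) (.v 1)) (.m (.m (.v 4) (.v 2)) (.v 0))),
  (.m (.m (.m (.v 3) (.v 0)) (.v 2)) (.m (.m (.v 4) (.v 0)) (.v 1))),
  (.m (.m (.m (.v 3) (.v 0)) (.v 2)) (.m (.m (.v 4) (.v 1)) (.v 0))),
  (.m (.m (.m (.v 3) (.v 1)) (.v 0)) (.m (.m (.v 4) (.v 0)) (.v 2))),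
  (.m (.m (.m (.v 3) (.v 1)) (.v 0)) (.m (.m (.v 4) (.v 2)) (.v 0))),
  (.m (.m (.m (.v 3) (.v 1)) (.v 2)) (.m (.m (.v 4) (.v 0)) (.v 0))),
  (.m (.m (.m (.v 3) (.v 2)) (.v 0)) (.m (.m (.v 4) (.v 0)) (.v 1))),
  (.m (.m (.m (.v 3) (.v 2)) (.v 0)) (.m (.m (.v 4) (.v 1)) (.v 0))),
  (.m (.m (.m (.v 3) (.v 2)) (.v 1)) (.m (.m (.v 4) (.v 0)) (.v 0)))]

def rV1111 : List Ex := [(.m (.m (.m (.v 4) (.v 0)) (.v 1)) (.m (.m (.v 5) (.v 2)) (.v 3))),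
  (.m (.m (.m (.v 4) (.v 0)) (.v 1)) (.m (.m (.v 5) (.v 3)) (.v 2))),
  (.m (.m (.m (.v 4) (.v 0)) (.v 2)) (.m (.m (.v 5) (.v 1)) (.v 3))),
  (.m (.m (.m (.v 4) (.v 0)) (.v 2)) (.m (.m (.v 5) (.v 3)) (.v 1))),
  (.m (.m (.m (.v 4) (.v 0)) (.v 3)) (.m (.m (.v 5) (.v 1)) (.v 2))),
  (.m (.m (.m (.v 4) (.v 0)) (.v 3)) (.m (.m (.v 5) (.v 2)) (.v 1))),
  (.m (.m (.m (.v 4) (.v 1)) (.v 0)) (.m (.m (.v 5) (.v 2)) (.v 3))),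
  (.m (.m (.m (.v 4) (.v 1)) (.v 0)) (.m (.m (.v 5) (.v 3)) (.v 2))),
  (.m (.m (.m (.v 4) (.v 1)) (.v 2)) (.m (.m (.v 5) (.v 0)) (.v 3))),
  (.m (.m (.m (.v 4) (.v 1)) (.v 2)) (.m (.m (.v 5) (.v 3)) (.v 0))),
  (.m (.m (.m (.v 4) (.v 1)) (.v 3)) (.m (.m (.v 5) (.v 0)) (.v 2))),
  (.m (.m (.m (.v 4) (.v 1)) (.v 3)) (.m (.m (.v 5) (.v 2)) (.v 0))),
  (.m (.m (.m (.v 4) (.v 2)) (.v 0)) (.m (.m (.v 5) (.v 1)) (.v 3))),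
  (.m (.m (.m (.v 4) (.v 2)) (.v 0)) (.m (.m (.v 5) (.v 3)) (.v 1))),
  (.m (.m (.m (.v 4) (.v 2)) (.v 1)) (.m (.m (.v 5) (.v 0)) (.v 3))),
  (.m (.m (.m (.v 4) (.v 2)) (.v 1)) (.m (.m (.v 5) (.v 3)) (.v 0))),
  (.m (.m (.m (.v 4) (.v 2)) (.v 3)) (.m (.m (.v 5) (.v 0)) (.v 1))),
  (.m (.m (.m (.v 4) (.v 2)) (.v 3)) (.m (.m (.v 5) (.v 1)) (.v 0))),
  (.m (.m (.m (.v 4) (.v 3)) (.v 0)) (.m (.m (.v 5) (.v 1)) (.v 2))),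
  (.m (.m (.m (.v 4) (.v 3)) (.v 0)) (.m (.m (.v 5) (.v 2)) (.v 1))),
  (.m (.m (.m (.v 4) (.v 3)) (.v 1)) (.m (.m (.v 5) (.v 0)) (.v 2))),
  (.m (.m (.m (.v 4) (.v 3)) (.v 1)) (.m (.m (.v 5) (.v 2)) (.v 0))),
  (.m (.m (.m (.v 4) (.v 3)) (.v 2)) (.m (.m (.v 5) (.v 0)) (.v 1))),
  (.m (.m (.m (.v 4) (.v 3)) (.v 2)) (.m (.m (.v 5) (.v 1)) (.v 0)))]

def rM32 : List Ex := [(.m (.m (.m (.m (.v 1) (.v 0)) (.v 0)) (.v 1)) (.v 0))]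

def rM212 : List Ex := [(.m (.m (.m (.m (.v 2) (.v 0)) (.v 0)) (.v 2)) (.v 1)),
  (.m (.m (.m (.m (.v 2) (.v 0)) (.v 1)) (.v 2)) (.v 0)),
  (.m (.m (.m (.m (.v 2) (.v 1)) (.v 0)) (.v 2)) (.v 0))]

def rM1112 : List Ex := [(.m (.m (.m (.m (.v 3) (.v 0)) (.v 1)) (.v 3)) (.v 2)),
  (.m (.m (.m (.m (.v 3) (.v 0)) (.v 2)) (.v 3)) (.v 1)),
  (.m (.m (.m (.m (.v 3) (.v 1)) (.v 0)) (.v 3)) (.v 2)),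
  (.m (.m (.m (.m (.v 3) (.v 1)) (.v 2)) (.v 3)) (.v 0)),
  (.m (.m (.m (.m (.v 3) (.v 2)) (.v 0)) (.v 3)) (.v 1)),
  (.m (.m (.m (.m (.v 3) (.v 2)) (.v 1)) (.v 3)) (.v 0))]

def rM311 : List Ex := [(.m (.m (.m (.m (.v 1) (.v 0)) (.v 0)) (.v 2)) (.v 0)),
  (.m (.m (.m (.m (.v 2) (.v 0)) (.v 0)) (.v 1)) (.v 0))]

def rM2111 : List Ex := [(.m (.m (.m (.m (.v 2) (.v 0)) (.v 0)) (.v 3)) (.v 1)),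
  (.m (.m (.m (.m (.v 2) (.v 0)) (.v 1)) (.v 3)) (.v 0)),
  (.m (.m (.m (.m (.v 2) (.v 1)) (.v 0)) (.v 3)) (.v 0)),
  (.m (.m (.m (.m (.v 3) (.v 0)) (.v 0)) (.v 2)) (.v 1)),
  (.m (.m (.m (.m (.v 3) (.v 0)) (.v 1)) (.v 2)) (.v 0)),
  (.m (.m (.m (.m (.v 3) (.v 1)) (.v 0)) (.v 2)) (.v 0))]

def rM11111 : List Ex := [(.m (.m (.m (.m (.v 3) (.v 0)) (.v 1)) (.v 4)) (.v 2)),
  (.m (.m (.m (.m (.v 3) (.v 0)) (.v 2)) (.v 4)) (.v 1)),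
  (.m (.m (.m (.m (.v 3) (.v 1)) (.v 0)) (.v 4)) (.v 2)),
  (.m (.m (.m (.m (.v 3) (.v 1)) (.v 2)) (.v 4)) (.v 0)),
  (.m (.m (.m (.m (.v 3) (.v 2)) (.v 0)) (.v 4)) (.v 1)),
  (.m (.m (.m (.m (.v 3) (.v 2)) (.v 1)) (.v 4)) (.v 0)),
  (.m (.m (.m (.m (.v 4) (.v 0)) (.v 1)) (.v 3)) (.v 2)),
  (.m (.m (.m (.m (.v 4) (.v 0)) (.v 2)) (.v 3)) (.v 1)),
  (.m (.m (.m (.m (.v 4) (.v 1)) (.v 0)) (.v 3)) (.v 2)),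
  (.m (.m (.m (.m (.v 4) (.v 1)) (.v 2)) (.v 3)) (.v 0)),
  (.m (.m (.m (.m (.v 4) (.v 2)) (.v 0)) (.v 3)) (.v 1)),
  (.m (.m (.m (.m (.v 4) (.v 2)) (.v 1)) (.v 3)) (.v 0))]

def rW2 : List Ex := [(.m (.m (.m (.v 1) (.v 0)) (.v 0)) (.v 2)),
  (.m (.m (.m (.v 2) (.v 0)) (.v 0)) (.v 1)),
  (.m (.m (.v 2) (.v 0)) (.m (.v 1) (.v 0)))]

def rW11 : List Ex := [(.m (.m (.m (.v 2) (.v 0)) (.v 1)) (.v 3)),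
  (.m (.m (.m (.v 2) (.v 1)) (.v 0)) (.v 3)),
  (.m (.m (.m (.v 3) (.v 0)) (.v 1)) (.v 2)),
  (.m (.m (.m (.v 3) (.v 1)) (.v 0)) (.v 2)),
  (.m (.m (.v 3) (.v 0)) (.m (.v 2) (.v 1))),
  (.m (.m (.v 3) (.v 1)) (.m (.v 2) (.v 0)))]

def idsA : ℕ → List Ex
  | 0 => rE3
  | 1 => rE21
  | 2 => rE111
  | 3 => rV4
  | 4 => rV31
  | 5 => rV22
  | 6 => rV211
  | 7 => rV1111
  | 8 => rM32
  | 9 => rM212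
  | 10 => rM1112
  | 11 => rM311
  | 12 => rM2111
  | 13 => rM11111
  | 14 => rW2
  | _ => rW11

def idsM : ℕ → List Ex
  | 0 => rE3
  | 1 => rE21
  | 2 => rE111
  | 3 => rV4
  | 4 => rV31
  | 5 => rV22
  | 6 => rV211
  | 7 => rV1111
  | 8 => rM32
  | 9 => rM212
  | 10 => rM1112
  | 11 => rM311
  | 12 => rM2111
  | _ => rM11111

def idsV : ℕ → List Ex
  | 0 => rE3
  | 1 => rE21
  | 2 => rE111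
  | 3 => rV4
  | 4 => rV31
  | 5 => rV22
  | 6 => rV211
  | _ => rV1111

def idsE : ℕ → List Ex
  | 0 => rE3
  | 1 => rE21
  | _ => rE111

end Pool.Agent.H12.Eng2
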