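import Mathlib

/-! Polarisation over an infinite field. -/

set_option autoImplicit false
set_option linter.unusedSectionVars false
set_option linter.unusedSimpArgs false

namespace Pool.Agent.H12.Eng2

section coef
variable {K M : Type*} [Field K] [Infinite K] [AddCommGroup M] [Module K M]

theorem coef_zero (n : ℕ) (c : ℕ → M) (h : ∀ t : K, ∑ i ∈ Finset.range n, t ^ i • c i = 0)
    (i : ℕ) (hi : i < n) : c i = 0 := by
  rw [← Module.forall_dual_apply_eq_zero_iff K]
  intro φ
  have hp : (∑ j ∈ Finset.range n, Polynomial.C (φ (c j)) * Polynomial.X ^ j) =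
      (0 : Polynomial K) := by
    apply Polynomial.funext
    intro t
    have h1 := congrArg φ (h t)
    rw [map_sum, map_zero] at h1
    rw [Polynomial.eval_finsetSum, Polynomial.eval_zero, ← h1]
    refine Finset.sum_congr rfl fun j _ => ?_
    rw [Polynomial.eval_mul, Polynomial.eval_C, Polynomial.eval_pow, Polynomial.eval_X, map_smul,
      smul_eq_mul, mul_comm]
  have h2 := congrArg (fun p => Polynomial.coeff p i) hp
  simp only [Polynomial.finsetSum_coeff, Polynomial.coeff_C_mul_X_pow, Polynomial.coeff_zero] at h2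
  rw [Finset.sum_ite_eq] at h2
  simpa [hi] using h2

theorem cz2 {c0 c1 c2 : M} (h : ∀ t : K, c0 + t • c1 + t ^ 2 • c2 = 0) : c1 = 0 := by
  have := coef_zero (K := K) 3 (fun i => if i = 0 then c0 else if i = 1 then c1 else c2)
    (fun t => by rw [← h t]; simp [Finset.sum_range_succ]) 1 (by norm_num)
  simpa using this

theorem cz3 {c0 c1 c2 c3 : M} (h : ∀ t : K, c0 + t • c1 + t ^ 2 • c2 + t ^ 3 • c3 = 0) :
    c1 = 0 := by
  have := coef_zero (K := K) 4
    (fun i => if i = 0 then c0 else if i = 1 then c1 else if i = 2 then c2 else c3)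
    (fun t => by rw [← h t]; simp [Finset.sum_range_succ]) 1 (by norm_num)
  simpa using this

theorem cz4 {c0 c1 c2 c3 c4 : M}
    (h : ∀ t : K, c0 + t • c1 + t ^ 2 • c2 + t ^ 3 • c3 + t ^ 4 • c4 = 0) :
    c1 = 0 ∧ c2 = 0 := by
  have := coef_zero (K := K) 5
    (fun i => if i = 0 then c0 else if i = 1 then c1 else if i = 2 then c2 else
      if i = 3 then c3 else c4)
    (fun t => by rw [← h t]; simp [Finset.sum_range_succ])
  exact ⟨by simpa using this 1 (by norm_num), by simpa using this 2 (by norm_num)⟩

end coef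

section four
variable {K A : Type*} [Field K] [Infinite K] [AddCommGroup A] [Module K A]
  (F : A → A → A → A → A)
  (l1 : ∀ a a' b c d, F (a + a') b c d = F a b c d + F a' b c d)
  (l2 : ∀ a b b' c d, F a (b + b') c d = F a b c d + F a b' c d)
  (l3 : ∀ a b c c' d, F a b (c + c') d = F a b c d + F a b c' d)
  (l4 : ∀ a b c d d', F a b c (d + d') = F a b c d + F a b c d')
  (s1 : ∀ (t : K) a b c d, F (t • a) b c d = t • F a b c d)
  (s2 : ∀ (t : K) a b c d, F a (t • b) c d = t • F a b c d)
  (s3 : ∀ (t : K) a b c d, F a b (t • c) d = t • F a b c d)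
  (s4 : ∀ (t : K) a b c d, F a b c (t • d) = t • F a b c d)
include l1 l2 l3 l4 s1 s2 s3 s4

theorem pol_4 (h : ∀ a, F a a a a = 0) (a b : A) :
    F a a a b + F a a b a + F a b a a + F b a a a = 0 ∧
    F a a b b + F a b a b + F a b b a + F b a a b + F b a b a + F b b a a = 0 := by
  refine cz4 (K := K) (c0 := F a a a a) (c3 := F b b b a + F b b a b + F b a b b + F a b b b)
    (c4 := F b b b b) fun t => ?_
  rw [← h (a + t • b)]
  simp only [l1, l2, l3, l4, s1, s2, s3, s4]
  module

theorem pol_31 (h : ∀ a b, F a a a b + F a a b a + F a b a a + F b a a a = 0) (a b c : A) :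
    F a a b c + F a a c b + F a b a c + F a b c a + F a c a b + F a c b a
    + F b a a c + F b a c a + F b c a a + F c a a b + F c a b a + F c b a a = 0 := by
  refine cz3 (K := K) (c0 := F a a a c + F a a c a + F a c a a + F c a a a)
    (c2 := F b b a c + F b b c a + F b a b c + F b a c b + F b c b a + F b c a b
    + F a b b c + F a b c b + F a c b b + F c b b a + F c b a b + F c a b b)
    (c3 := F b b b c + F b b c b + F b c b b + F c b b b) fun t => ?_
  rw [← h (a + t • b) c]
  simp only [l1, l2, l3, l4, s1, s2, s3, s4]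
  module

theorem pol_211 (h : ∀ a b c, F a a b c + F a a c b + F a b a c + F a b c a + F a c a b + F a c b a
    + F b a a c + F b a c a + F b c a a + F c a a b + F c a b a + F c b a a = 0) (a b c d : A) :
    F a b c d + F a b d c + F a c b d + F a c d b + F a d b c + F a d c b
    + F b a c d + F b a d c + F b c a d + F b c d a + F b d a c + F b d c a
    + F c a b d + F c a d b + F c b a d + F c b d a + F c d a b + F c d b a
    + F d a b c + F d a c b + F d b a c + F d b c a + F d c a b + F d c b a = 0 := by
  refine cz2 (K := K) (c0 := F a a c d + F a a d c + F a c a d + F a c d a + F a d a c + F a d c a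
    + F c a a d + F c a d a + F c d a a + F d a a c + F d a c a + F d c a a)
    (c2 := F b b c d + F b b d c + F b c b d + F b c d b + F b d b c + F b d c b
    + F c b b d + F c b d b + F c d b b + F d b b c + F d b c b + F d c b b) fun t => ?_
  rw [← h (a + t • b) c d]
  simp only [l1, l2, l3, l4, s1, s2, s3, s4]
  module

end four

section five
variable {K A : Type*} [Field K] [Infinite K] [AddCommGroup A] [Module K A]
  (H : A → A → A → A → A → A)
  (l1 : ∀ a a' b c x y, H (a + a') b c x y = H a b c x y + H a' b c x y)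
  (l2 : ∀ a b b' c x y, H a (b + b') c x y = H a b c x y + H a b' c x y)
  (l3 : ∀ a b c c' x y, H a b (c + c') x y = H a b c x y + H a b c' x y)
  (l4 : ∀ a b c x x' y, H a b c (x + x') y = H a b c x y + H a b c x' y)
  (l5 : ∀ a b c x y y', H a b c x (y + y') = H a b c x y + H a b c x y')
  (s1 : ∀ (t : K) a b c x y, H (t • a) b c x y = t • H a b c x y)
  (s2 : ∀ (t : K) a b c x y, H a (t • b) c x y = t • H a b c x y)
  (s3 : ∀ (t : K) a b c x y, H a b (t • c) x y = t • H a b c x y)
  (s4 : ∀ (t : K) a b c x y, H a b c (t • x) y = t • H a b c x y)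
  (s5 : ∀ (t : K) a b c x y, H a b c x (t • y) = t • H a b c x y)
include l1 l2 l3 l4 l5 s1 s2 s3 s4 s5

theorem pol5_21_2 (h : ∀ a x, H a a a x x = 0) (a b x : A) :
    H a a b x x + H a b a x x + H b a a x x = 0 := by
  refine cz3 (K := K) (c0 := H a a a x x) (c2 := H b b a x x + H b a b x x + H a b b x x)
    (c3 := H b b b x x) fun t => ?_
  rw [← h (a + t • b) x]
  simp only [l1, l2, l3, l4, l5, s1, s2, s3, s4, s5]
  module

theorem pol5_3_11 (h : ∀ a x, H a a a x x = 0) (a x y : A) :
    H a a a x y + H a a a y x = 0 := by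
  refine cz2 (K := K) (c0 := H a a a x x) (c2 := H a a a y y) fun t => ?_
  rw [← h a (x + t • y)]
  simp only [l1, l2, l3, l4, l5, s1, s2, s3, s4, s5]
  module

theorem pol5_111_2 (h : ∀ a b x, H a a b x x + H a b a x x + H b a a x x = 0) (a b c x : A) :
    H a b c x x + H a c b x x + H b a c x x + H b c a x x + H c a b x x + H c b a x x = 0 := by
  refine cz2 (K := K) (c0 := H a a c x x + H a c a x x + H c a a x x)
    (c2 := H b b c x x + H b c b x x + H c b b x x) fun t => ?_
  rw [← h (a + t • b) c x]
  simp only [l1, l2, l3, l4, l5, s1, s2, s3, s4, s5]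
  module

theorem pol5_21_11 (h : ∀ a b x, H a a b x x + H a b a x x + H b a a x x = 0) (a b x y : A) :
    H a a b x y + H a a b y x + H a b a x y + H a b a y x + H b a a x y + H b a a y x = 0 := by
  refine cz2 (K := K) (c0 := H a a b x x + H a b a x x + H b a a x x)
    (c2 := H a a b y y + H a b a y y + H b a a y y) fun t => ?_
  rw [← h a b (x + t • y)]
  simp only [l1, l2, l3, l4, l5, s1, s2, s3, s4, s5]
  module

theorem pol5_111_11 (h : ∀ a b c x, H a b c x x + H a c b x x + H b a c x x + H b c a x x
    + H c a b x x + H c b a x x = 0) (a b c x y : A) :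
    H a b c x y + H a b c y x + H a c b x y + H a c b y x + H b a c x y + H b a c y x
    + H b c a x y + H b c a y x + H c a b x y + H c a b y x + H c b a x y + H c b a y x = 0 := by
  refine cz2 (K := K) (c0 := H a b c x x + H a c b x x + H b a c x x + H b c a x x
    + H c a b x x + H c b a x x)
    (c2 := H a b c y y + H a c b y y + H b a c y y + H b c a y y
    + H c a b y y + H c b a y y) fun t => ?_
  rw [← h a b c (x + t • y)]
  simp only [l1, l2, l3, l4, l5, s1, s2, s3, s4, s5]
  module

end five

end Pool.Agent.H12.Eng2
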