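import Pool.Agent.H12.Eng2.Chk1
import Pool.Agent.H12.Eng2.Chk2
import Pool.Agent.H12.Eng2.Pol

/-! Target (II) in characteristic 2: an anticommutative 3-Engel algebra over an infinite field of
characteristic 2 without nonzero sandwiches is zero. -/

set_option autoImplicit false

namespace Pool.Agent.H12.Eng2

open Pool.Agent.H12.Eng (Ex val uf)
open Pool.Agent.H86.Eng2 (E2)

section ids
variable {A : Type*} [NonUnitalNonAssocRing A]

theorem valid_rE3 (hA : E2 A) : Valid A rE3 := by
  intro x0 x1 x2 x3 x4 x5
  simpa [rE3, evS, val, uf] using hA.eng x1 x0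

theorem valid_rE21 (hA : E2 A) : Valid A rE21 := by
  intro x0 x1 x2 x3 x4 x5
  rw [← hA.lin x2 x0 x1]
  simp only [rE21, evS, val, uf]
  abel

theorem valid_rE111 (hA : E2 A) : Valid A rE111 := by
  intro x0 x1 x2 x3 x4 x5
  rw [← hA.full x3 x0 x1 x2]
  simp only [rE111, evS, val, uf]
  abel

theorem valid_idsE (hA : E2 A) (i : ℕ) : Valid A (idsE i) := by
  unfold idsE
  split
  · exact valid_rE3 hA
  · exact valid_rE21 hA
  · exact valid_rE111 hA

theorem valid_idsL (hA : E2 A) (i : ℕ) : Valid A (idsL i) := by
  unfold idsL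
  split
  · exact valid_rE3 hA
  · exact valid_rE21 hA
  · exact valid_rE111 hA
  · exact chk_sound hA idsE (valid_idsE hA) _ _ kL0
  · exact chk_sound hA idsE (valid_idsE hA) _ _ kL1
  · exact chk_sound hA idsE (valid_idsE hA) _ _ kL2

theorem l1 (hA : E2 A) (z x y a : A) : (z * (((x * a) * a) * ((y * a) * a))) * a = 0 := by
  have h := chk_sound hA idsE (valid_idsE hA) _ _ kL1 a x y z a a
  simpa [tL1, evS, val, uf] using h

theorem l4 (hA : E2 A) (z x y t a : A) :
    (z * (((x * a) * a) * ((y * a) * a))) * ((t * a) * a) = 0 := by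
  have h := chk_sound hA idsL (valid_idsL hA) _ _ kL4 a x y z t a
  simpa [tL4, evS, val, uf] using h

theorem l3 (hA : E2 A) (z x y a : A) :
    z * (((x * a) * a) * ((y * a) * a)) = ((z * a) * (x * a)) * ((y * a) * a)
      + ((z * a) * ((y * a) * a)) * (x * a) + (z * ((x * a) * a)) * ((y * a) * a) := by
  have h := chk_sound hA idsE (valid_idsE hA) _ _ kL3 a x y z a a
  apply hA.eq_of
  rw [← h]
  simp only [tL3, evS, val, uf]
  abel

theorem sand0 (hA : E2 A) (x y a z : A) :
    (z * (((x * a) * a) * ((y * a) * a))) * (((x * a) * a) * ((y * a) * a)) = 0 := by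
  rw [l3 hA (z * (((x * a) * a) * ((y * a) * a))) x y a, l1 hA z x y a, l4 hA z x y x a]
  simp

end ids

section defs
variable {A : Type*} [NonUnitalNonAssocRing A]

def FV (x y a b c d : A) : A := ((x * a) * b) * ((y * c) * d)

def HM (a b c x y : A) : A := (((x * a) * b) * y) * c

end defs

section chain
variable {K A : Type*} [Field K] [Infinite K] [NonUnitalNonAssocRing A] [Module K A]
  [IsScalarTower K A A] [SMulCommClass K A A]

section V
variable (hV : ∀ x y a : A, ((x * a) * a) * ((y * a) * a) = 0)
include K hV

theorem hV4 (x y a b : A) :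
    ((x * a) * a) * ((y * a) * b) + ((x * a) * a) * ((y * b) * a) + ((x * a) * b) * ((y * a) * a)
      + ((x * b) * a) * ((y * a) * a) = 0 ∧
    ((x * a) * a) * ((y * b) * b) + ((x * a) * b) * ((y * a) * b) + ((x * a) * b) * ((y * b) * a)
      + ((x * b) * a) * ((y * a) * b) + ((x * b) * a) * ((y * b) * a)
      + ((x * b) * b) * ((y * a) * a) = 0 :=
  pol_4 (K := K) (fun a b c d => ((x * a) * b) * ((y * c) * d))
    (fun a a' b c d => by simp only [mul_add, add_mul])
    (fun a b b' c d => by simp only [mul_add, add_mul])
    (fun a b c c' d => by simp only [mul_add, add_mul])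
    (fun a b c d d' => by simp only [mul_add])
    (fun t a b c d => by simp only [mul_smul_comm, smul_mul_assoc])
    (fun t a b c d => by simp only [mul_smul_comm, smul_mul_assoc])
    (fun t a b c d => by simp only [mul_smul_comm, smul_mul_assoc])
    (fun t a b c d => by simp only [mul_smul_comm])
    (fun a => hV x y a) a b

theorem hV211 (x y a b c : A) :
    FV x y a a b c + FV x y a a c b + FV x y a b a c + FV x y a b c a + FV x y a c a b
      + FV x y a c b a + FV x y b a a c + FV x y b a c a + FV x y b c a a + FV x y c a a b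
      + FV x y c a b a + FV x y c b a a = 0 :=
  pol_31 (K := K) (FV x y)
    (fun a a' b c d => by simp only [FV, mul_add, add_mul])
    (fun a b b' c d => by simp only [FV, mul_add, add_mul])
    (fun a b c c' d => by simp only [FV, mul_add, add_mul])
    (fun a b c d d' => by simp only [FV, mul_add])
    (fun t a b c d => by simp only [FV, mul_smul_comm, smul_mul_assoc])
    (fun t a b c d => by simp only [FV, mul_smul_comm, smul_mul_assoc])
    (fun t a b c d => by simp only [FV, mul_smul_comm, smul_mul_assoc])
    (fun t a b c d => by simp only [FV, mul_smul_comm])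
    (fun a b => (hV4 (K := K) hV x y a b).1) a b c

theorem hV1111 (x y a b c d : A) :
    FV x y a b c d + FV x y a b d c + FV x y a c b d + FV x y a c d b + FV x y a d b c
      + FV x y a d c b + FV x y b a c d + FV x y b a d c + FV x y b c a d + FV x y b c d a
      + FV x y b d a c + FV x y b d c a + FV x y c a b d + FV x y c a d b + FV x y c b a d
      + FV x y c b d a + FV x y c d a b + FV x y c d b a + FV x y d a b c + FV x y d a c b
      + FV x y d b a c + FV x y d b c a + FV x y d c a b + FV x y d c b a = 0 :=
  pol_211 (K := K) (FV x y)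
    (fun a a' b c d => by simp only [FV, mul_add, add_mul])
    (fun a b b' c d => by simp only [FV, mul_add, add_mul])
    (fun a b c c' d => by simp only [FV, mul_add, add_mul])
    (fun a b c d d' => by simp only [FV, mul_add])
    (fun t a b c d => by simp only [FV, mul_smul_comm, smul_mul_assoc])
    (fun t a b c d => by simp only [FV, mul_smul_comm, smul_mul_assoc])
    (fun t a b c d => by simp only [FV, mul_smul_comm, smul_mul_assoc])
    (fun t a b c d => by simp only [FV, mul_smul_comm])
    (fun a b c => hV211 (K := K) hV x y a b c) a b c d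

end V

variable (K) in
include K in
/-- all identities of the first group -/
theorem valid_V (hA : E2 A) (hV : ∀ x y a : A, ((x * a) * a) * ((y * a) * a) = 0) (i : ℕ) :
    Valid A (idsV i) := by
  unfold idsV
  split
  · exact valid_rE3 hA
  · exact valid_rE21 hA
  · exact valid_rE111 hA
  · intro x0 x1 x2 x3 x4 x5
    simpa [rV4, evS, val, uf] using hV x1 x2 x0
  · intro x0 x1 x2 x3 x4 x5
    rw [← (hV4 (K := K) hV x2 x3 x0 x1).1]
    simp only [rV31, evS, val, uf]
    abel
  · intro x0 x1 x2 x3 x4 x5
    rw [← (hV4 (K := K) hV x2 x3 x0 x1).2]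
    simp only [rV22, evS, val, uf]
    abel
  · intro x0 x1 x2 x3 x4 x5
    rw [← hV211 (K := K) hV x3 x4 x0 x1 x2]
    simp only [rV211, evS, val, uf, FV]
    abel
  · intro x0 x1 x2 x3 x4 x5
    rw [← hV1111 (K := K) hV x4 x5 x0 x1 x2 x3]
    simp only [rV1111, evS, val, uf, FV]
    abel

section M
variable (hM : ∀ x a : A, (((x * a) * a) * x) * a = 0)
include K hM

theorem hM212 (a b x : A) :
    HM a a b x x + HM a b a x x + HM b a a x x = 0 :=
  pol5_21_2 (K := K) HM
    (fun a a' b c x y => by simp only [HM, mul_add, add_mul])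
    (fun a b b' c x y => by simp only [HM, mul_add, add_mul])
    (fun a b c c' x y => by simp only [HM, mul_add])
    (fun a b c x x' y => by simp only [HM, add_mul])
    (fun a b c x y y' => by simp only [HM, mul_add, add_mul])
    (fun t a b c x y => by simp only [HM, mul_smul_comm, smul_mul_assoc])
    (fun t a b c x y => by simp only [HM, mul_smul_comm, smul_mul_assoc])
    (fun t a b c x y => by simp only [HM, mul_smul_comm])
    (fun t a b c x y => by simp only [HM, smul_mul_assoc])
    (fun t a b c x y => by simp only [HM, mul_smul_comm, smul_mul_assoc])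
    (fun a x => hM x a) a b x

theorem hM311 (a x y : A) :
    HM a a a x y + HM a a a y x = 0 :=
  pol5_3_11 (K := K) HM
    (fun a a' b c x y => by simp only [HM, mul_add, add_mul])
    (fun a b b' c x y => by simp only [HM, mul_add, add_mul])
    (fun a b c c' x y => by simp only [HM, mul_add])
    (fun a b c x x' y => by simp only [HM, add_mul])
    (fun a b c x y y' => by simp only [HM, mul_add, add_mul])
    (fun t a b c x y => by simp only [HM, mul_smul_comm, smul_mul_assoc])
    (fun t a b c x y => by simp only [HM, mul_smul_comm, smul_mul_assoc])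
    (fun t a b c x y => by simp only [HM, mul_smul_comm])
    (fun t a b c x y => by simp only [HM, smul_mul_assoc])
    (fun t a b c x y => by simp only [HM, mul_smul_comm, smul_mul_assoc])
    (fun a x => hM x a) a x y

theorem hM1112 (a b c x : A) :
    HM a b c x x + HM a c b x x + HM b a c x x + HM b c a x x + HM c a b x x + HM c b a x x = 0 :=
  pol5_111_2 (K := K) HM
    (fun a a' b c x y => by simp only [HM, mul_add, add_mul])
    (fun a b b' c x y => by simp only [HM, mul_add, add_mul])
    (fun a b c c' x y => by simp only [HM, mul_add])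
    (fun a b c x x' y => by simp only [HM, add_mul])
    (fun a b c x y y' => by simp only [HM, mul_add, add_mul])
    (fun t a b c x y => by simp only [HM, mul_smul_comm, smul_mul_assoc])
    (fun t a b c x y => by simp only [HM, mul_smul_comm, smul_mul_assoc])
    (fun t a b c x y => by simp only [HM, mul_smul_comm])
    (fun t a b c x y => by simp only [HM, smul_mul_assoc])
    (fun t a b c x y => by simp only [HM, mul_smul_comm, smul_mul_assoc])
    (fun a b x => hM212 (K := K) hM a b x) a b c x

theorem hM2111 (a b x y : A) :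
    HM a a b x y + HM a a b y x + HM a b a x y + HM a b a y x + HM b a a x y + HM b a a y x = 0 :=
  pol5_21_11 (K := K) HM
    (fun a a' b c x y => by simp only [HM, mul_add, add_mul])
    (fun a b b' c x y => by simp only [HM, mul_add, add_mul])
    (fun a b c c' x y => by simp only [HM, mul_add])
    (fun a b c x x' y => by simp only [HM, add_mul])
    (fun a b c x y y' => by simp only [HM, mul_add, add_mul])
    (fun t a b c x y => by simp only [HM, mul_smul_comm, smul_mul_assoc])
    (fun t a b c x y => by simp only [HM, mul_smul_comm, smul_mul_assoc])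
    (fun t a b c x y => by simp only [HM, mul_smul_comm])
    (fun t a b c x y => by simp only [HM, smul_mul_assoc])
    (fun t a b c x y => by simp only [HM, mul_smul_comm, smul_mul_assoc])
    (fun a b x => hM212 (K := K) hM a b x) a b x y

theorem hM11111 (a b c x y : A) :
    HM a b c x y + HM a b c y x + HM a c b x y + HM a c b y x + HM b a c x y + HM b a c y x
      + HM b c a x y + HM b c a y x + HM c a b x y + HM c a b y x + HM c b a x y
      + HM c b a y x = 0 :=
  pol5_111_11 (K := K) HM
    (fun a a' b c x y => by simp only [HM, mul_add, add_mul])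
    (fun a b b' c x y => by simp only [HM, mul_add, add_mul])
    (fun a b c c' x y => by simp only [HM, mul_add])
    (fun a b c x x' y => by simp only [HM, add_mul])
    (fun a b c x y y' => by simp only [HM, mul_add, add_mul])
    (fun t a b c x y => by simp only [HM, mul_smul_comm, smul_mul_assoc])
    (fun t a b c x y => by simp only [HM, mul_smul_comm, smul_mul_assoc])
    (fun t a b c x y => by simp only [HM, mul_smul_comm])
    (fun t a b c x y => by simp only [HM, smul_mul_assoc])
    (fun t a b c x y => by simp only [HM, mul_smul_comm, smul_mul_assoc])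
    (fun a b c x => hM1112 (K := K) hM a b c x) a b c x y

end M

variable (K) in
include K in
theorem valid_M (hA : E2 A) (hV : ∀ x y a : A, ((x * a) * a) * ((y * a) * a) = 0)
    (hM : ∀ x a : A, (((x * a) * a) * x) * a = 0) (i : ℕ) :
    Valid A (idsM i) := by
  unfold idsM
  split
  · exact valid_V K hA hV 0
  · exact valid_V K hA hV 1
  · exact valid_V K hA hV 2
  · exact valid_V K hA hV 3
  · exact valid_V K hA hV 4
  · exact valid_V K hA hV 5
  · exact valid_V K hA hV 6
  · exact valid_V K hA hV 7
  · intro x0 x1 x2 x3 x4 x5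
    simpa [rM32, evS, val, uf] using hM x1 x0
  · intro x0 x1 x2 x3 x4 x5
    rw [← hM212 (K := K) hM x0 x1 x2]
    simp only [rM212, evS, val, uf, HM]
    abel
  · intro x0 x1 x2 x3 x4 x5
    rw [← hM1112 (K := K) hM x0 x1 x2 x3]
    simp only [rM1112, evS, val, uf, HM]
    abel
  · intro x0 x1 x2 x3 x4 x5
    rw [← hM311 (K := K) hM x0 x1 x2]
    simp only [rM311, evS, val, uf, HM]
    abel
  · intro x0 x1 x2 x3 x4 x5
    rw [← hM2111 (K := K) hM x0 x1 x2 x3]
    simp only [rM2111, evS, val, uf, HM]
    abel
  · intro x0 x1 x2 x3 x4 x5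
    rw [← hM11111 (K := K) hM x0 x1 x2 x3 x4]
    simp only [rM11111, evS, val, uf, HM]
    abel

variable (K) in
include K in
theorem valid_A (hA : E2 A) (hV : ∀ x y a : A, ((x * a) * a) * ((y * a) * a) = 0)
    (hM : ∀ x a : A, (((x * a) * a) * x) * a = 0)
    (hW : ∀ x y a : A, ((x * a) * a) * y + ((y * a) * a) * x + (y * a) * (x * a) = 0) (i : ℕ) :
    Valid A (idsA i) := by
  unfold idsA
  split
  · exact valid_M K hA hV hM 0
  · exact valid_M K hA hV hM 1
  · exact valid_M K hA hV hM 2
  · exact valid_M K hA hV hM 3
  · exact valid_M K hA hV hM 4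
  · exact valid_M K hA hV hM 5
  · exact valid_M K hA hV hM 6
  · exact valid_M K hA hV hM 7
  · exact valid_M K hA hV hM 8
  · exact valid_M K hA hV hM 9
  · exact valid_M K hA hV hM 10
  · exact valid_M K hA hV hM 11
  · exact valid_M K hA hV hM 12
  · exact valid_M K hA hV hM 13
  · intro x0 x1 x2 x3 x4 x5
    rw [← hW x1 x2 x0]
    simp only [rW2, evS, val, uf]
    abel
  · intro x0 x1 x2 x3 x4 x5
    have h := hW x2 x3 (x0 + x1)
    have h0 := hW x2 x3 x0
    have h1 := hW x2 x3 x1
    have key : evS (uf x0 x1 x2 x3 x4 x5) rW11 =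
        (((x2 * (x0 + x1)) * (x0 + x1)) * x3 + ((x3 * (x0 + x1)) * (x0 + x1)) * x2 +
        (x3 * (x0 + x1)) * (x2 * (x0 + x1)))
        - (((x2 * x0) * x0) * x3 + ((x3 * x0) * x0) * x2 + (x3 * x0) * (x2 * x0))
        - (((x2 * x1) * x1) * x3 + ((x3 * x1) * x1) * x2 + (x3 * x1) * (x2 * x1)) := by
      simp only [rW11, evS, val, uf, mul_add, add_mul]
      abel
    rw [key, h, h0, h1]
    simp

variable (K) in
include K in
/-- Target (II) in characteristic 2. -/
theorem target_II2 (hA : E2 A) (hS : ∀ c : A, (∀ x, (x * c) * c = 0) → c = 0) :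
    ∀ a : A, a = 0 := by
  have hV : ∀ x y a : A, ((x * a) * a) * ((y * a) * a) = 0 := fun x y a =>
    hS _ (sand0 hA x y a)
  have hM : ∀ x a : A, (((x * a) * a) * x) * a = 0 := by
    intro x a
    apply hS
    intro z
    have h := chk_sound hA idsV (valid_V K hA hV) _ _ kS1 a x z a a a
    simpa [tS1, evS, val, uf] using h
  have hW : ∀ x y a : A, ((x * a) * a) * y + ((y * a) * a) * x + (y * a) * (x * a) = 0 := by
    intro x y a
    apply hS
    intro z
    have h := chk_sound hA idsM (valid_M K hA hV hM) _ _ kS2 a x y z a a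
    rw [← h]
    simp only [tS2, evS, val, uf, mul_add, add_mul]
    abel
  have hX : ∀ x a : A, (x * a) * a = 0 := by
    intro x a
    apply hS
    intro z
    have h := chk_sound hA idsA (valid_A K hA hV hM hW) _ _ kS3 a x z a a a
    simpa [tS3, evS, val, uf] using h
  intro a
  exact hS _ fun x => hX x a

end chain

end Pool.Agent.H12.Eng2
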